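import Pool.Agent.H921PC.Poly

set_option autoImplicit false
set_option linter.unusedSectionVars false

namespace H921PC

open Polynomial

variable {K : Type*} [Field K]

/-- two independent polynomial solutions of minimal total degree -/
def MinPair (P Q R f g : K[X]) : Prop :=
  Sol P Q R f ∧ Sol P Q R g ∧ Wr f g ≠ 0 ∧
    ∀ f' g' : K[X], Sol P Q R f' → Sol P Q R g' → Wr f' g' ≠ 0 →
      f.natDegree + g.natDegree ≤ f'.natDegree + g'.natDegree

lemma MinPair.symm {P Q R f g : K[X]} (h : MinPair P Q R f g) : MinPair P Q R g f := by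
  obtain ⟨h1, h2, h3, h4⟩ := h
  refine ⟨h2, h1, ?_, ?_⟩
  · rw [Wr_swap]; exact neg_ne_zero.2 h3
  · intro f' g' hf hg hw
    rw [add_comm]
    exact h4 f' g' hf hg hw

lemma exists_minPair {P Q R f g : K[X]} (hf : Sol P Q R f) (hg : Sol P Q R g)
    (hw : Wr f g ≠ 0) : ∃ f' g', MinPair P Q R f' g' := by
  classical
  have hex : ∃ n : ℕ, ∃ f' g' : K[X], Sol P Q R f' ∧ Sol P Q R g' ∧ Wr f' g' ≠ 0 ∧
      f'.natDegree + g'.natDegree = n := ⟨_, f, g, hf, hg, hw, rfl⟩
  obtain ⟨f', g', h1, h2, h3, h4⟩ := Nat.find_spec hex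
  refine ⟨f', g', h1, h2, h3, ?_⟩
  intro a b ha hb hab
  rw [h4]
  exact Nat.find_min' hex ⟨a, b, ha, hb, hab, rfl⟩

/-- the valuations at `π` of the solutions are congruent to `0` or `t` -/
def Loc (P Q R π : K[X]) (t : ℕ) : Prop :=
  ∀ (f u : K[X]) (v : ℕ), Sol P Q R f → f = π ^ v * u → ¬ π ∣ u → (v : K) = 0 ∨ (v : K) = (t : K)

section CharP

variable (p : ℕ) [hp : Fact p.Prime] [CharP K p]

lemma natDegree_pos_of_irr {π : K[X]} (hπ : Irreducible π) : 0 < π.natDegree :=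
  hπ.natDegree_pos

lemma M1 {P Q R f g π : K[X]} (h : MinPair P Q R f g) (hπ : Irreducible π) : ¬ π ^ p ∣ f := by
  rintro ⟨f1, rfl⟩
  obtain ⟨h1, h2, h3, h4⟩ := h
  have hd := der_pow_p p π
  have hπ0 : π ^ p ≠ 0 := pow_ne_zero _ hπ.ne_zero
  rw [Wr_mul_left hd] at h3
  have h5 : Wr f1 g ≠ 0 := right_ne_zero_of_mul h3
  have h6 := h4 f1 g (h1.of_mul hd hπ0) h2 h5
  rw [natDegree_mul hπ0 (ne_zero_of_Wr_left h5), natDegree_pow] at h6
  have h7 : 0 < p * π.natDegree := Nat.mul_pos hp.out.pos (natDegree_pos_of_irr hπ)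
  omega

lemma Wr_comb_right (a f g : K[X]) : Wr f (a ^ p * f + g) = Wr f g := by
  rw [Wr_add_right, Wr_mul_right (der_pow_p p a), Wr_self, mul_zero, zero_add]

lemma Wr_comb_left (a f g : K[X]) : Wr (a ^ p * f + g) g = a ^ p * Wr f g := by
  rw [Wr_add_left, Wr_mul_left (der_pow_p p a), Wr_self, add_zero]

lemma Sol_comb {P Q R f g : K[X]} (a : K[X]) (hf : Sol P Q R f) (hg : Sol P Q R g) :
    Sol P Q R (a ^ p * f + g) := (hf.mul_const (der_pow_p p a)).add hg

lemma M2 {P Q R f g π a : K[X]} (h : MinPair P Q R f g) (hπ : Irreducible π)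
    (ha : a.natDegree < π.natDegree) (ha0 : a ≠ 0) : ¬ π ^ p ∣ a ^ p * f + g := by
  rintro ⟨h1, hh⟩
  have hmin := h
  obtain ⟨hf, hg, hw, h4⟩ := h
  have hd := der_pow_p p π
  have hπ0 : π ^ p ≠ 0 := pow_ne_zero _ hπ.ne_zero
  have hsol : Sol P Q R (π ^ p * h1) := hh ▸ Sol_comb p a hf hg
  have hsol1 : Sol P Q R h1 := hsol.of_mul hd hπ0
  have hpp := hp.out.pos
  have hdeg1 : ∀ M : ℕ, f.natDegree ≤ M → g.natDegree ≤ M →
      (a ^ p * f + g).natDegree ≤ p * a.natDegree + M := by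
    intro M h5 h6
    refine (natDegree_add_le _ _).trans (max_le ?_ ?_)
    · refine natDegree_mul_le.trans ?_
      have := natDegree_pow_le (p := a) (n := p)
      omega
    · omega
  have hpa : p * a.natDegree + p ≤ p * π.natDegree := by
    have : p * (a.natDegree + 1) ≤ p * π.natDegree := Nat.mul_le_mul_left p ha
    rw [mul_add, mul_one] at this
    exact this
  rcases le_total f.natDegree g.natDegree with hle | hle
  · have hw1 : Wr f h1 ≠ 0 := by
      intro h0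
      apply hw
      rw [← Wr_comb_right p a f g, hh, Wr_mul_right hd, h0, mul_zero]
    have h5 := hdeg1 g.natDegree hle le_rfl
    rw [hh, natDegree_mul hπ0 (ne_zero_of_Wr_right hw1), natDegree_pow] at h5
    have h6 := h4 f h1 hf hsol1 hw1
    omega
  · have hw1 : Wr h1 g ≠ 0 := by
      intro h0
      have h7 : a ^ p * Wr f g = 0 := by
        rw [← Wr_comb_left p a f g, hh, Wr_mul_left hd, h0, mul_zero]
      rcases mul_eq_zero.1 h7 with h8 | h8
      · exact ha0 (pow_eq_zero_iff (hp.out.ne_zero) |>.1 h8)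
      · exact hw h8
    have h5 := hdeg1 f.natDegree le_rfl hle
    rw [hh, natDegree_mul hπ0 (ne_zero_of_Wr_left hw1), natDegree_pow] at h5
    have h6 := h4 h1 g hsol1 hg hw1
    omega

lemma val_cases {P Q R f π : K[X]} {t : ℕ} (hL : Loc P Q R π t) (ht : t < p)
    (hf : Sol P Q R f) (hf0 : f ≠ 0) (hπ : Irreducible π) (hnd : ¬ π ^ p ∣ f) :
    ¬ π ∣ f ∨ ∃ u, ¬ π ∣ u ∧ f = π ^ t * u := by
  obtain ⟨v, u, hu, hfu⟩ : ∃ (v : ℕ) (u : K[X]), ¬ π ∣ u ∧ f = π ^ v * u := by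
    have hfin : FiniteMultiplicity π f := FiniteMultiplicity.of_prime_left hπ.prime hf0
    obtain ⟨u, h1, h2⟩ := hfin.exists_eq_pow_mul_and_not_dvd
    exact ⟨_, u, h2, h1⟩
  have hv : v < p := by
    by_contra hc
    push Not at hc
    exact hnd (hfu ▸ (pow_dvd_pow π hc).mul_right u)
  rcases hL f u v hf hfu hu with h0 | h0
  · left
    have : v = 0 := by
      rw [CharP.cast_eq_zero_iff K p] at h0
      exact Nat.eq_zero_of_dvd_of_lt h0 hv
    rw [hfu, this, pow_zero, one_mul]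
    exact hu
  · right
    have : v = t := by
      rw [CharP.natCast_eq_natCast K p] at h0
      rwa [Nat.ModEq, Nat.mod_eq_of_lt hv, Nat.mod_eq_of_lt ht] at h0
    exact ⟨u, hu, this ▸ hfu⟩

lemma wr_val {f z π : K[X]} {t : ℕ} (ht1 : 1 ≤ t) (ht : t < p) (hπ : Irreducible π)
    (hπ' : ¬ π ∣ derivative π) (hf : ¬ π ∣ f) (hz : ¬ π ∣ z) : ¬ π ^ t ∣ Wr f (π ^ t * z) := by
  obtain ⟨s, rfl⟩ : ∃ s, t = s + 1 := ⟨t - 1, by omega⟩
  have hW : Wr f (π ^ (s + 1) * z) =
      π ^ s * (((s + 1 : ℕ) : K[X]) * (f * (derivative π * z)) +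
        π * (f * derivative z - derivative f * z)) := by
    unfold Wr
    rw [derivative_mul, derivative_pow_succ]
    simp only [Nat.cast_add, Nat.cast_one, map_add, map_natCast, map_one]
    ring
  rw [hW, pow_succ, mul_dvd_mul_iff_left (pow_ne_zero _ hπ.ne_zero)]
  intro hdvd
  rw [dvd_add_left (dvd_mul_right π _)] at hdvd
  have hpr := hπ.prime
  rcases hpr.dvd_or_dvd hdvd with h1 | h1
  · have h2 : ((s + 1 : ℕ) : K[X]) = C ((s + 1 : ℕ) : K) := by simp
    rw [h2] at h1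
    have h3 : ((s + 1 : ℕ) : K) ≠ 0 := by
      intro h4
      rw [CharP.cast_eq_zero_iff K p] at h4
      exact absurd (Nat.le_of_dvd (Nat.succ_pos s) h4) (not_le.2 ht)
    exact hπ.not_isUnit (isUnit_of_dvd_unit h1 (isUnit_C.2 (isUnit_iff_ne_zero.2 h3)))
  · rcases hpr.dvd_or_dvd h1 with h2 | h2
    · exact hf h2
    · rcases hpr.dvd_or_dvd h2 with h3 | h3
      · exact hπ' h3
      · exact hz h3

variable [Finite K]

lemma irr_not_dvd_der {π : K[X]} (hπ : Irreducible π) : ¬ π ∣ derivative π := by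
  intro h
  have h1 : π.Separable := PerfectField.separable_of_irreducible hπ
  have h2 : IsCoprime π (derivative π) := h1
  exact hπ.not_isUnit (h2.isUnit_of_dvd' dvd_rfl h)

lemma key1 {P Q R f g π : K[X]} {t : ℕ} (h : MinPair P Q R f g) (hL : Loc P Q R π t)
    (ht1 : 1 ≤ t) (ht : t < p) (hπ : Irreducible π) (hf : ¬ π ∣ f) : ¬ π ^ t ∣ Wr f g := by
  have hπ' := irr_not_dvd_der hπ
  rcases val_cases p hL ht h.2.1 (ne_zero_of_Wr_right h.2.2.1) hπ (M1 p h.symm hπ) with h1 | h1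
  · obtain ⟨a, ha1, ha2, ha3⟩ := exists_pow_congr p hπ hf h1
    have ha0 : a ≠ 0 := by rintro rfl; exact ha1 (dvd_zero _)
    have h2 := M2 p h hπ ha2 ha0
    have hsol := Sol_comb p a h.1 h.2.1
    have hW := Wr_comb_right p a f g
    have hne : a ^ p * f + g ≠ 0 := by
      apply ne_zero_of_Wr_right (f := f)
      rw [hW]; exact h.2.2.1
    rcases val_cases p hL ht hsol hne hπ h2 with h3 | ⟨u, hu, h3⟩
    · exact absurd ha3 h3
    · rw [← hW, h3]
      exact wr_val p ht1 ht hπ hπ' hf hu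
  · obtain ⟨u, hu, rfl⟩ := h1
    exact wr_val p ht1 ht hπ hπ' hf hu

lemma key2 {P Q R f g π : K[X]} {t : ℕ} (h : MinPair P Q R f g) (hL : Loc P Q R π t)
    (ht1 : 1 ≤ t) (ht : t < p) (hπ : Irreducible π) : ¬ π ^ t ∣ Wr f g := by
  by_cases hf : π ∣ f
  · by_cases hg : π ∣ g
    · exfalso
      rcases val_cases p hL ht h.1 (ne_zero_of_Wr_left h.2.2.1) hπ (M1 p h hπ) with h1 | h1
      · exact h1 hf
      rcases val_cases p hL ht h.2.1 (ne_zero_of_Wr_right h.2.2.1) hπ (M1 p h.symm hπ) with h2 | h2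
      · exact h2 hg
      obtain ⟨u, hu, hfu⟩ := h1
      obtain ⟨z, hz, hgz⟩ := h2
      obtain ⟨a, ha1, ha2, ha3⟩ := exists_pow_congr p hπ hu hz
      have ha0 : a ≠ 0 := by rintro rfl; exact ha1 (dvd_zero _)
      have h2 := M2 p h hπ ha2 ha0
      have hsol := Sol_comb p a h.1 h.2.1
      have hW := Wr_comb_right p a f g
      have hne : a ^ p * f + g ≠ 0 := by
        apply ne_zero_of_Wr_right (f := f)
        rw [hW]; exact h.2.2.1
      rcases val_cases p hL ht hsol hne hπ h2 with h3 | ⟨w, hw, h3⟩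
      · exact h3 (dvd_add (hf.mul_left _) hg)
      · have h4 : π ^ t * (a ^ p * u + z) = π ^ t * w := by
          rw [← h3, hfu, hgz]; ring
        have h5 := mul_left_cancel₀ (pow_ne_zero t hπ.ne_zero) h4
        exact hw (h5 ▸ ha3)
    · have := key1 p h.symm hL ht1 ht hπ hg
      rw [Wr_swap, dvd_neg] at this
      exact this
  · exact key1 p h hL ht1 ht hπ hf

end CharP

lemma dvd_of_local {W S : K[X]} (hW : W ≠ 0)
    (h : ∀ π : K[X], Irreducible π → ∃ t : ℕ, 1 ≤ t ∧ ¬ π ^ t ∣ W ∧ π ^ (t - 1) ∣ S) :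
    W ∣ S := by
  classical
  obtain ⟨W', hW'⟩ := EuclideanDomain.gcd_dvd_left W S
  obtain ⟨S', hS'⟩ := EuclideanDomain.gcd_dvd_right W S
  set G := EuclideanDomain.gcd W S with hG
  have hG0 : G ≠ 0 := by
    intro h0; rw [h0, zero_mul] at hW'; exact hW hW'
  have hcop : IsCoprime W' S' := by
    have h1 := EuclideanDomain.gcd_eq_gcd_ab W S
    refine ⟨EuclideanDomain.gcdA W S, EuclideanDomain.gcdB W S, ?_⟩
    apply mul_left_cancel₀ hG0
    rw [← hG] at h1
    calc G * (EuclideanDomain.gcdA W S * W' + EuclideanDomain.gcdB W S * S')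
        = (G * W') * EuclideanDomain.gcdA W S + (G * S') * EuclideanDomain.gcdB W S := by ring
      _ = G * 1 := by rw [← hW', ← hS', mul_one, ← h1]
  by_cases hu : IsUnit W'
  · rw [hW', hS']
    exact mul_dvd_mul_left G (hu.dvd)
  · exfalso
    have hW'0 : W' ≠ 0 := by
      intro h0; rw [h0, mul_zero] at hW'; exact hW hW'
    obtain ⟨π, hπ, hπW⟩ := WfDvdMonoid.exists_irreducible_factor hu hW'0
    obtain ⟨t, ht1, ht2, ht3⟩ := h π hπ
    have hnS : ¬ π ∣ S' := fun h1 => hπ.not_isUnit (hcop.isUnit_of_dvd' hπW h1)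
    have hfin : FiniteMultiplicity π G := FiniteMultiplicity.of_prime_left hπ.prime hG0
    obtain ⟨G', h1, h2⟩ := hfin.exists_eq_pow_mul_and_not_dvd
    set m := multiplicity π G
    have h3 : π ^ (m + 1) ∣ W := by
      rw [hW', h1, pow_succ]
      obtain ⟨w, hw⟩ := hπW
      rw [hw]
      exact ⟨G' * w, by ring⟩
    have h4 : m + 1 ≤ t - 1 := by
      by_contra hc
      have : t ≤ m + 1 := by omega
      exact ht2 ((pow_dvd_pow π this).trans h3)
    have h5 : π ^ (m + 1) ∣ S := (pow_dvd_pow π h4).trans ht3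
    rw [hS', h1, pow_succ, mul_assoc,
      mul_dvd_mul_iff_left (pow_ne_zero _ hπ.ne_zero)] at h5
    rcases hπ.prime.dvd_or_dvd h5 with h6 | h6
    · exact h2 h6
    · exact hnS h6

end H921PC
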