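import Pool.Agent.H921PC.Core

set_option autoImplicit false
set_option linter.unusedSectionVars false

namespace H921PC

open Polynomial

variable {K : Type*} [Field K]

lemma coeff_theta (f : K[X]) (n : ℕ) : (X * derivative f).coeff n = (n : K) * f.coeff n := by
  cases n with
  | zero => simp
  | succ n => rw [coeff_X_mul, coeff_derivative]; push_cast; ring

lemma natDegree_theta (f : K[X]) : (X * derivative f).natDegree ≤ f.natDegree := by
  rw [natDegree_le_iff_coeff_eq_zero]
  intro N hN
  rw [coeff_theta, coeff_eq_zero_of_natDegree_lt hN, mul_zero]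

lemma theta2_eq (f : K[X]) : X ^ 2 * derivative (derivative f) =
    X * derivative (X * derivative f) - X * derivative f := by
  rw [derivative_mul, derivative_X]; ring

lemma coeff_theta2 (f : K[X]) (n : ℕ) : (X ^ 2 * derivative (derivative f)).coeff n =
    (n : K) * ((n : K) - 1) * f.coeff n := by
  rw [theta2_eq, coeff_sub, coeff_theta, coeff_theta]; ring

lemma natDegree_theta2 (f : K[X]) : (X ^ 2 * derivative (derivative f)).natDegree ≤ f.natDegree := by
  rw [natDegree_le_iff_coeff_eq_zero]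
  intro N hN
  rw [coeff_theta2, coeff_eq_zero_of_natDegree_lt hN, mul_zero]

lemma Wr_natDegree {f g : K[X]} (hf : f ≠ 0) (hg : g ≠ 0)
    (hne : (f.natDegree : K) ≠ (g.natDegree : K)) :
    f.natDegree + g.natDegree ≤ (Wr f g).natDegree + 1 := by
  have h1 : X * Wr f g = f * (X * derivative g) - (X * derivative f) * g := by
    unfold Wr; ring
  have h2 : (X * Wr f g).coeff (f.natDegree + g.natDegree) =
      ((g.natDegree : K) - f.natDegree) * (f.leadingCoeff * g.leadingCoeff) := by
    rw [h1, coeff_sub, coeff_mul_add_eq_of_natDegree_le le_rfl (natDegree_theta g),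
      coeff_mul_add_eq_of_natDegree_le (natDegree_theta f) le_rfl, coeff_theta, coeff_theta]
    simp only [leadingCoeff]
    ring
  have h3 : (X * Wr f g).coeff (f.natDegree + g.natDegree) ≠ 0 := by
    rw [h2]
    refine mul_ne_zero (sub_ne_zero.2 (Ne.symm hne)) (mul_ne_zero ?_ ?_)
    · exact leadingCoeff_ne_zero.2 hf
    · exact leadingCoeff_ne_zero.2 hg
  have h4 := le_natDegree_of_ne_zero h3
  refine h4.trans ?_
  refine natDegree_mul_le.trans ?_
  rw [natDegree_X, add_comm]

lemma indicial {P Q R f : K[X]} {n : ℕ} (hn : 2 ≤ n) (hP : P.natDegree ≤ n)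
    (hQ : Q.natDegree ≤ n - 1) (hR : R.natDegree ≤ n - 2) (hf : Sol P Q R f) (hf0 : f ≠ 0) :
    P.coeff n * ((f.natDegree : K) * ((f.natDegree : K) - 1)) + Q.coeff (n - 1) * f.natDegree
      + R.coeff (n - 2) = 0 := by
  unfold Sol at hf
  have h1 : P * (X ^ 2 * derivative (derivative f)) + (X * Q) * (X * derivative f) +
      (X ^ 2 * R) * f = 0 := by
    linear_combination X ^ 2 * hf
  have h2 := congrArg (fun F => coeff F (n + f.natDegree)) h1
  simp only [coeff_add, coeff_zero] at h2
  have hXQ : (X * Q).natDegree ≤ n := by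
    refine natDegree_mul_le.trans ?_
    rw [natDegree_X]; omega
  have hXR : (X ^ 2 * R).natDegree ≤ n := by
    refine natDegree_mul_le.trans ?_
    rw [natDegree_X_pow]; omega
  rw [coeff_mul_add_eq_of_natDegree_le hP (natDegree_theta2 f),
    coeff_mul_add_eq_of_natDegree_le hXQ (natDegree_theta f),
    coeff_mul_add_eq_of_natDegree_le hXR le_rfl, coeff_theta2, coeff_theta] at h2
  have h3 : (X * Q).coeff n = Q.coeff (n - 1) := by
    obtain ⟨m, rfl⟩ : ∃ m, n = m + 1 := ⟨n - 1, by omega⟩
    rw [coeff_X_mul, Nat.add_sub_cancel]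
  have h4 : (X ^ 2 * R).coeff n = R.coeff (n - 2) := by
    obtain ⟨m, rfl⟩ : ∃ m, n = m + 2 := ⟨n - 2, by omega⟩
    rw [coeff_X_pow_mul, Nat.add_sub_cancel]
  rw [h3, h4] at h2
  have h5 : f.coeff f.natDegree ≠ 0 := leadingCoeff_ne_zero.2 hf0
  apply mul_right_cancel₀ h5
  rw [zero_mul, ← h2]
  ring

section CharP

variable (p : ℕ) [hp : Fact p.Prime] [CharP K p]

include hp in
lemma deg_ne_aux {P Q R f g : K[X]} (h : MinPair P Q R f g) (hle : f.natDegree ≤ g.natDegree) :
    (f.natDegree : K) ≠ (g.natDegree : K) := by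
  intro heq
  rw [CharP.natCast_eq_natCast K p] at heq
  obtain ⟨m, hm⟩ := (Nat.modEq_iff_dvd' hle).1 heq
  have hf0 := ne_zero_of_Wr_left h.2.2.1
  have hg0 := ne_zero_of_Wr_right h.2.2.1
  have hlf : f.leadingCoeff ≠ 0 := leadingCoeff_ne_zero.2 hf0
  have hlg : g.leadingCoeff ≠ 0 := leadingCoeff_ne_zero.2 hg0
  set c : K := g.leadingCoeff / f.leadingCoeff with hc
  have hc0 : c ≠ 0 := div_ne_zero hlg hlf
  set q : K[X] := C c * (X ^ m) ^ p with hq
  have hdq : derivative q = 0 := by
    rw [hq, derivative_mul, der_pow_p p, derivative_C]; simp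
  have hq' : q = C c * X ^ (m * p) := by rw [hq, pow_mul]
  have hqf_deg : (q * f).degree = g.degree := by
    rw [degree_mul, hq', degree_C_mul_X_pow _ hc0, degree_eq_natDegree hf0,
      degree_eq_natDegree hg0]
    norm_cast
    rw [mul_comm m p]; omega
  have hqf_lc : (q * f).leadingCoeff = g.leadingCoeff := by
    rw [leadingCoeff_mul, hq', leadingCoeff_C_mul_X_pow, hc]
    field_simp
  have hlt := degree_sub_lt hqf_deg.symm hg0 hqf_lc.symm
  have hW : Wr f (g - q * f) = Wr f g := by
    have : g - q * f = (-q) * f + g := by ring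
    rw [this, Wr_add_right, Wr_mul_right (by rw [derivative_neg, hdq, neg_zero]), Wr_self, mul_zero,
      zero_add]
  have hW0 : Wr f (g - q * f) ≠ 0 := by rw [hW]; exact h.2.2.1
  have hsol : Sol P Q R (g - q * f) := by
    have h5 : g - q * f = (-q) * f + g := by ring
    rw [h5]
    exact (h.1.mul_const (by rw [derivative_neg, hdq, neg_zero])).add h.2.1
  have h6 := natDegree_lt_natDegree (ne_zero_of_Wr_right hW0) hlt
  have h7 := h.2.2.2 f (g - q * f) h.1 hsol hW0
  omega

include hp in
lemma deg_ne {P Q R f g : K[X]} (h : MinPair P Q R f g) :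
    (f.natDegree : K) ≠ (g.natDegree : K) := by
  rcases le_total f.natDegree g.natDegree with hle | hle
  · exact deg_ne_aux p h hle
  · exact (deg_ne_aux p h.symm hle).symm

variable [Finite K]

/-- the degree inequality -/
theorem core {P Q R S f g : K[X]} {n : ℕ} (hn : 2 ≤ n) (hP : P.natDegree ≤ n)
    (hQ : Q.natDegree ≤ n - 1) (hR : R.natDegree ≤ n - 2) (hS : S ≠ 0)
    (hloc : ∀ π : K[X], Irreducible π → ∃ t : ℕ, 1 ≤ t ∧ t < p ∧ Loc P Q R π t ∧ π ^ (t - 1) ∣ S)
    (hf : Sol P Q R f) (hg : Sol P Q R g) (hw : Wr f g ≠ 0) :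
    ∃ d e : ℕ, (d : K) ≠ (e : K) ∧
      P.coeff n * ((d : K) * ((d : K) - 1)) + Q.coeff (n - 1) * d + R.coeff (n - 2) = 0 ∧
      P.coeff n * ((e : K) * ((e : K) - 1)) + Q.coeff (n - 1) * e + R.coeff (n - 2) = 0 ∧
      d + e ≤ S.natDegree + 1 := by
  obtain ⟨f', g', hm⟩ := exists_minPair hf hg hw
  have hf0 := ne_zero_of_Wr_left hm.2.2.1
  have hg0 := ne_zero_of_Wr_right hm.2.2.1
  refine ⟨f'.natDegree, g'.natDegree, deg_ne p hm, indicial hn hP hQ hR hm.1 hf0,
    indicial hn hP hQ hR hm.2.1 hg0, ?_⟩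
  have h1 := Wr_natDegree hf0 hg0 (deg_ne p hm)
  have h2 : Wr f' g' ∣ S := by
    apply dvd_of_local hm.2.2.1
    intro π hπ
    obtain ⟨t, ht1, ht2, ht3, ht4⟩ := hloc π hπ
    exact ⟨t, ht1, key2 p hm ht3 ht1 ht2 hπ, ht4⟩
  have h3 := natDegree_le_of_dvd h2 hS
  omega

end CharP

/-- local exponents at a place -/
lemma loc_of {P Q R π P1 : K[X]} {t : ℕ} (hπ : Irreducible π) (hπ' : ¬ π ∣ derivative π)
    (hP : P = π * P1) (hP1 : ¬ π ∣ P1)
    (hQ : π ∣ Q - C (1 - (t : K)) * (derivative π * P1)) : Loc P Q R π t := by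
  intro f u v hf hfu hu
  rcases Nat.eq_zero_or_pos v with hv | hv
  · left; rw [hv, Nat.cast_zero]
  obtain ⟨s, rfl⟩ : ∃ s, v = s + 1 := ⟨v - 1, by omega⟩
  set g1 : K[X] := C ((s + 1 : ℕ) : K) * (derivative π * u) + π * derivative u with hg1
  have hd1 : derivative f = π ^ s * g1 := by
    rw [hfu, derivative_mul, derivative_pow_succ, hg1]
    simp only [Nat.cast_add, Nat.cast_one, map_add, map_natCast, map_one]
    ring
  have hd2 : π * derivative (derivative f) =
      π ^ s * (C (s : K) * (derivative π * g1) + π * derivative g1) := by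
    rw [hd1, derivative_mul]
    rcases Nat.eq_zero_or_pos s with hs | hs
    · subst hs; simp
    · obtain ⟨r, rfl⟩ : ∃ r, s = r + 1 := ⟨s - 1, by omega⟩
      rw [derivative_pow_succ]
      simp only [Nat.cast_add, Nat.cast_one, map_add, map_natCast, map_one]
      ring
  unfold Sol at hf
  have h1 : π ^ s * (P1 * (C (s : K) * (derivative π * g1) + π * derivative g1) + Q * g1 +
      R * (π * u)) = 0 := by
    have h2 : P * derivative (derivative f) =
        P1 * (π ^ s * (C (s : K) * (derivative π * g1) + π * derivative g1)) := by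
      rw [← hd2, hP]; ring
    rw [h2, hd1, hfu] at hf
    linear_combination hf
  have h3 : P1 * (C (s : K) * (derivative π * g1) + π * derivative g1) + Q * g1 +
      R * (π * u) = 0 := by
    rcases mul_eq_zero.1 h1 with h4 | h4
    · exact absurd h4 (pow_ne_zero _ hπ.ne_zero)
    · exact h4
  obtain ⟨w, hw⟩ := hQ
  have h5 : π ∣ C (((s + 1 : ℕ) : K) * (((s + 1 : ℕ) : K) - (t : K))) *
      (derivative π * (derivative π * (P1 * u))) := by
    refine ⟨-(P1 * derivative g1 + R * u + w * g1) -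
      C ((((s + 1 : ℕ) : K) - (t : K))) * (derivative π * P1 * derivative u), ?_⟩
    have hQ' : Q = C (1 - (t : K)) * (derivative π * P1) + π * w := by
      linear_combination hw
    rw [hQ'] at h3
    have e1 : C ((s + 1 : ℕ) : K) = C (s : K) + 1 := by
      push_cast; simp
    simp only [map_mul, map_sub, map_one, e1] at *
    rw [hg1] at h3 ⊢
    linear_combination h3
  rcases hπ.prime.dvd_or_dvd h5 with h6 | h6
  · by_cases hz : ((s + 1 : ℕ) : K) * (((s + 1 : ℕ) : K) - (t : K)) = 0
    · rcases mul_eq_zero.1 hz with h7 | h7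
      · left; exact h7
      · right; exact sub_eq_zero.1 h7
    · exact absurd (isUnit_of_dvd_unit h6 (isUnit_C.2 (isUnit_iff_ne_zero.2 hz))) hπ.not_isUnit
  · exfalso
    rcases hπ.prime.dvd_or_dvd h6 with h7 | h7
    · exact hπ' h7
    · rcases hπ.prime.dvd_or_dvd h7 with h8 | h8
      · exact hπ' h8
      · rcases hπ.prime.dvd_or_dvd h8 with h9 | h9
        · exact hP1 h9
        · exact hu h9

end H921PC
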