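import Pool.Agent.H921PC.Main

set_option autoImplicit false
set_option linter.unusedSectionVars false

namespace H921PC

open Polynomial Finset

/-- the operator `D A ∂² + (∑ (D - rᵢ) qᵢ' ∏_{j ≠ i} qⱼ) ∂ + R`, where `A = ∏ qᵢ` -/
noncomputable def Lop {k : ℕ} (D : ℕ) (q : Fin k → ℤ[X]) (r : Fin k → ℤ) (R : ℤ[X]) :
    Fin 3 → ℤ[X] :=
  ![R, ∑ i, C ((D : ℤ) - r i) * derivative (q i) * ∏ j ∈ univ.erase i, q j, C (D : ℤ) * ∏ i, q i]

/-- arithmetic of the exponents modulo `p` at a finite singular point -/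
lemma exists_t {D p : ℕ} (hD : 0 < D) {r c : ℤ} (hp : |r| < p) (hpc : (D : ℤ) ∣ p * c - 1)
    (hr : (D : ℤ) ∣ r → 0 < r) :
    ∃ t : ℕ, 1 ≤ t ∧ t < p ∧ (D : ℤ) * t = r + p * ((-(c * r)) % D) := by
  have hD' : (0 : ℤ) < D := by exact_mod_cast hD
  set m := (-(c * r)) % (D : ℤ) with hm
  have hm0 : 0 ≤ m := Int.emod_nonneg _ hD'.ne'
  have hmD : m < D := Int.emod_lt_of_pos _ hD'
  have hdvd : (D : ℤ) ∣ r + p * m := by
    have h1 : (D : ℤ) ∣ m + c * r := by
      have := Int.emod_add_mul_ediv (-(c * r)) D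
      rw [← hm] at this
      exact ⟨-(-(c * r) / (D : ℤ)), by linear_combination this⟩
    obtain ⟨x, hx⟩ := h1
    obtain ⟨y, hy⟩ := hpc
    exact ⟨p * x - y * r, by linear_combination (p : ℤ) * hx - r * hy⟩
  obtain ⟨w, hw⟩ := hdvd
  have habs := abs_lt.1 hp
  have hpos : 0 < r + p * m := by
    rcases hm0.eq_or_lt with h0 | h0
    · rw [← h0, mul_zero, add_zero]
      apply hr
      rw [← h0, mul_zero, add_zero] at hw
      exact ⟨w, hw⟩
    · have : (p : ℤ) * 1 ≤ p * m := mul_le_mul_of_nonneg_left h0 (by positivity)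
      linarith [habs.1]
  have hlt : r + p * m < D * p := by
    have : (p : ℤ) * m ≤ p * (D - 1) := mul_le_mul_of_nonneg_left (by omega) (by positivity)
    linarith [habs.2, mul_comm (p : ℤ) D]
  have hw0 : 0 < w := by
    rw [hw] at hpos
    exact (mul_pos_iff_of_pos_left hD').1 hpos
  have hwp : w < p := by
    rw [hw] at hlt
    exact lt_of_mul_lt_mul_left hlt hD'.le
  refine ⟨w.toNat, by omega, by omega, ?_⟩
  rw [Int.toNat_of_nonneg hw0.le, hw]

/-- arithmetic of the exponents modulo `p` at infinity -/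
lemma lower {D p d : ℕ} (hD : 0 < D) {a c : ℤ} (hp : |a| < p) (hpc : (D : ℤ) ∣ p * c - 1)
    (h : (p : ℤ) ∣ D * d + a) : (p : ℤ) * ((c * a) % D) ≤ D * d + a := by
  have hD' : (0 : ℤ) < D := by exact_mod_cast hD
  obtain ⟨w, hw⟩ := h
  obtain ⟨y, hy⟩ := hpc
  have habs := abs_lt.1 hp
  have hp0 : (0 : ℤ) < p := lt_of_le_of_lt (abs_nonneg a) hp
  have hwn : 0 ≤ w := by
    by_contra hc
    push Not at hc
    have h1 : (p : ℤ) * w ≤ p * (-1) := mul_le_mul_of_nonneg_left (by omega) hp0.le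
    have h2 : (0 : ℤ) ≤ D * d := by positivity
    linarith [habs.1]
  have hmod : (c * a) % (D : ℤ) = w % D := by
    apply Int.ModEq.symm
    rw [Int.modEq_iff_dvd]
    exact ⟨-(c * d) + y * w, by linear_combination c * hw + w * hy⟩
  rw [hw, hmod]
  have h1 := Int.emod_add_mul_ediv w D
  have h2 : 0 ≤ (D : ℤ) * (w / D) := mul_nonneg hD'.le (Int.ediv_nonneg hwn hD'.le)
  exact mul_le_mul_of_nonneg_left (by linarith) hp0.le

theorem modP {k D : ℕ} (hD : 0 < D) (q : Fin k → ℤ[X]) (r : Fin k → ℤ) (a b c : ℤ) (R : ℤ[X])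
    (hsep : ((∏ i, q i).map (Int.castRingHom ℚ)).Separable)
    (hn : 2 ≤ (∏ i, q i).natDegree)
    (hr : ∀ i, (D : ℤ) ∣ r i → 0 < r i)
    (hab : a + b + ∑ i, r i * (q i).natDegree = D * ((∏ i, q i).natDegree - 1))
    (hR : R.natDegree ≤ (∏ i, q i).natDegree - 2)
    (hR' : (D : ℤ) * R.coeff ((∏ i, q i).natDegree - 2) = a * b * (∏ i, q i).leadingCoeff)
    (hlt : ∑ i, ((q i).natDegree : ℤ) * ((-(c * r i)) % D) < (c * a) % D + (c * b) % D) :
    ∃ N : ℕ, ∀ p : ℕ, N < p → ∀ hp : Fact p.Prime, (D : ℤ) ∣ p * c - 1 → ¬ FullModP (Lop D q r R) p := by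
  obtain ⟨U, V, N0, hN0, hUV⟩ := exists_bezout (∏ i, q i) hsep
  set A := ∏ i, q i with hA
  have hA0 : A ≠ 0 := by
    intro h; rw [h] at hn; simp at hn
  have hn1 : 1 ≤ A.natDegree := by omega
  set ℓ := A.leadingCoeff with hℓ
  have hℓ0 : ℓ ≠ 0 := leadingCoeff_ne_zero.2 hA0
  refine ⟨a.natAbs + b.natAbs + ∑ i, (r i).natAbs + N0.natAbs + D + ℓ.natAbs, ?_⟩
  intro p hpN hp hpc hfull
  have hnz : ∀ x : ℤ, x ≠ 0 → x.natAbs < p → (x : ZMod p) ≠ 0 := by
    intro x hx hlt h0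
    rw [ZMod.intCast_zmod_eq_zero_iff_dvd, Int.natCast_dvd] at h0
    exact absurd (Nat.le_of_dvd (Int.natAbs_pos.2 hx) h0) (by omega)
  have hDp : (D : ZMod p) ≠ 0 := by
    have := hnz D (by exact_mod_cast hD.ne') (by rw [Int.natAbs_natCast]; omega)
    exact_mod_cast this
  have hℓp : (ℓ : ZMod p) ≠ 0 := hnz ℓ hℓ0 (by omega)
  have hN0p : (N0 : ZMod p) ≠ 0 := hnz N0 hN0 (by omega)
  -- the reduced data
  set ψ := Int.castRingHom (ZMod p) with hψ
  set q' : Fin k → (ZMod p)[X] := fun i => (q i).map ψ with hq'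
  have hAmap : A.map ψ = ∏ i, q' i := by rw [hA, Polynomial.map_prod]
  have hsep' : (∏ i, q' i).Separable := by
    rw [← hAmap]
    have h1 := congrArg (Polynomial.map ψ) hUV
    rw [Polynomial.map_add, Polynomial.map_mul, Polynomial.map_mul, ← derivative_map,
      Polynomial.map_C] at h1
    have h2 : ψ N0 = (N0 : ZMod p) := rfl
    rw [h2] at h1
    refine ⟨C ((N0 : ZMod p)⁻¹) * U.map ψ, C ((N0 : ZMod p)⁻¹) * V.map ψ, ?_⟩
    have h3 : C ((N0 : ZMod p)⁻¹) * C (N0 : ZMod p) = 1 := by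
      rw [← C_mul, inv_mul_cancel₀ hN0p, C_1]
    linear_combination C ((N0 : ZMod p)⁻¹) * h1 + h3
  have hrabs : ∀ i, |r i| < (p : ℤ) := by
    intro i
    have h1 : (r i).natAbs ≤ ∑ i, (r i).natAbs :=
      Finset.single_le_sum (f := fun i => (r i).natAbs) (fun _ _ => Nat.zero_le _) (Finset.mem_univ i)
    rw [Int.abs_eq_natAbs]
    exact_mod_cast (by omega : (r i).natAbs < p)
  choose t ht1 htp ht using fun i => exists_t hD (hrabs i) hpc (hr i)
  have htmod : ∀ i, (D : ZMod p) * (t i : ZMod p) = ((r i : ℤ) : ZMod p) := by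
    intro i
    have h1 := congrArg (fun x : ℤ => (x : ZMod p)) (ht i)
    simp only [Int.cast_mul, Int.cast_natCast, Int.cast_add] at h1
    rw [h1, CharP.cast_eq_zero, zero_mul, add_zero]
  obtain ⟨f, g, hf, hg, hw⟩ := exists_sol hfull
  have hP : ((Lop D q r R) 2).map ψ = C (D : ZMod p) * ∏ i, q' i := by
    simp only [Lop]
    show (C (D : ℤ) * ∏ i, q i).map ψ = _
    rw [Polynomial.map_mul, ← hA, hAmap, Polynomial.map_C]
    simp
  have hQ : ((Lop D q r R) 1).map ψ =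
      ∑ i, C ((D : ZMod p) - ((r i : ℤ) : ZMod p)) * derivative (q' i) * ∏ j ∈ univ.erase i, q' j := by
    simp only [Lop]
    show (∑ i, C ((D : ℤ) - r i) * derivative (q i) * ∏ j ∈ univ.erase i, q j).map ψ = _
    rw [Polynomial.map_sum]
    apply Finset.sum_congr rfl
    intro i _
    rw [Polynomial.map_mul, Polynomial.map_mul, Polynomial.map_prod, Polynomial.map_C,
      ← derivative_map]
    have e1 : ψ ((D : ℤ) - r i) = (D : ZMod p) - ((r i : ℤ) : ZMod p) := by
      rw [hψ, map_sub]; simp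
    rw [e1]
  have hRR : ((Lop D q r R) 0).map ψ = R.map ψ := rfl
  have hQ2 : ((Lop D q r R) 1).map ψ = (Bc D q r).map ψ := rfl
  have hP2 : ((Lop D q r R) 2).map ψ = (C (D : ℤ) * A).map ψ := rfl
  set S := ∏ i, q' i ^ (t i - 1) with hS
  have hS0 : S ≠ 0 := by
    apply Finset.prod_ne_zero_iff.2
    intro i _
    apply pow_ne_zero
    intro h0
    apply hsep'.ne_zero
    exact Finset.prod_eq_zero (Finset.mem_univ i) h0
  have hloc := local_data (Q' := q') (r := fun i => ((r i : ℤ) : ZMod p)) (t := t)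
    (R := R.map ψ) hDp hsep' ht1 htp htmod
  rw [← hP, ← hQ, ← hRR] at hloc
  obtain ⟨d, e, hde, hd, he, hsum⟩ := core p (n := A.natDegree) hn
    (by
      rw [hP2]
      exact (natDegree_map_le).trans (natDegree_C_mul_le _ _))
    (by
      rw [hQ2]
      exact (natDegree_map_le).trans (Bc_natDegree D q r hA0 hn1))
    (by
      rw [hRR]
      exact (natDegree_map_le).trans hR) hS0 hloc hf hg hw
  -- indicial equation at infinity
  have hρ : ((Bc D q r).coeff (A.natDegree - 1) : ℤ) =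
      (a + b + D) * ℓ := by
    rw [Bc_coeff D q r hA0 hn1, ← hA, ← hℓ]
    congr 1
    linear_combination -hab
  have hind : ∀ x : ℕ, (((Lop D q r R) 2).map ψ).coeff A.natDegree *
        ((x : ZMod p) * ((x : ZMod p) - 1)) +
      (((Lop D q r R) 1).map ψ).coeff (A.natDegree - 1) * x +
      (((Lop D q r R) 0).map ψ).coeff (A.natDegree - 2) = 0 →
      (p : ℤ) ∣ D * x + a ∨ (p : ℤ) ∣ D * x + b := by
    intro x hx
    rw [hP2, hQ2, hRR, coeff_map, coeff_map, coeff_map, hρ, coeff_C_mul] at hx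
    have h1 : ψ ((D : ℤ) * R.coeff (A.natDegree - 2)) = ψ (a * b * ℓ) := by rw [hR']
    have h2 : A.coeff A.natDegree = ℓ := rfl
    rw [h2] at hx
    simp only [hψ, eq_intCast, Int.cast_mul, Int.cast_add, Int.cast_natCast] at hx h1
    have h3 : (ℓ : ZMod p) * ((((D * x + a : ℤ)) : ZMod p) * ((D * x + b : ℤ) : ZMod p)) = 0 := by
      push_cast
      linear_combination (D : ZMod p) * hx - h1
    rcases mul_eq_zero.1 h3 with h4 | h4
    · exact absurd h4 hℓp
    · rcases mul_eq_zero.1 h4 with h5 | h5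
      · left; exact (ZMod.intCast_zmod_eq_zero_iff_dvd _ _).1 h5
      · right; exact (ZMod.intCast_zmod_eq_zero_iff_dvd _ _).1 h5
  have hsame : ∀ y : ℤ, (p : ℤ) ∣ D * d + y → (p : ℤ) ∣ D * e + y → False := by
    intro y h1 h2
    apply hde
    have h3 := (ZMod.intCast_zmod_eq_zero_iff_dvd _ p).2 h1
    have h4 := (ZMod.intCast_zmod_eq_zero_iff_dvd _ p).2 h2
    push_cast at h3 h4
    apply mul_left_cancel₀ hDp
    linear_combination h3 - h4
  have haabs : |a| < (p : ℤ) := by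
    rw [Int.abs_eq_natAbs]
    exact_mod_cast (by omega : a.natAbs < p)
  have hbabs : |b| < (p : ℤ) := by
    rw [Int.abs_eq_natAbs]
    exact_mod_cast (by omega : b.natAbs < p)
  have hlow : (p : ℤ) * ((c * a) % D + (c * b) % D) ≤ D * (d + e) + a + b := by
    rcases hind d hd with h1 | h1 <;> rcases hind e he with h2 | h2
    · exact absurd (hsame a h1 h2) id
    · have h3 := lower hD haabs hpc h1
      have h4 := lower hD hbabs hpc h2
      linarith
    · have h3 := lower hD hbabs hpc h1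
      have h4 := lower hD haabs hpc h2
      linarith
    · exact absurd (hsame b h1 h2) id
  -- degree of S
  have hSdeg : S.natDegree ≤ ∑ i, (q i).natDegree * (t i - 1) := by
    rw [hS]
    refine (natDegree_prod_le _ _).trans (Finset.sum_le_sum fun i _ => ?_)
    refine natDegree_pow_le.trans ?_
    rw [mul_comm]
    exact Nat.mul_le_mul_right _ natDegree_map_le
  have hSdeg' : (D : ℤ) * S.natDegree ≤
      ∑ i, ((q i).natDegree : ℤ) * (r i + p * ((-(c * r i)) % D) - D) := by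
    have h1 : ((S.natDegree : ℕ) : ℤ) ≤ ∑ i, ((q i).natDegree : ℤ) * ((t i : ℤ) - 1) := by
      have h2 : ((S.natDegree : ℕ) : ℤ) ≤ ((∑ i, (q i).natDegree * (t i - 1) : ℕ) : ℤ) := by
        exact_mod_cast hSdeg
      refine h2.trans (le_of_eq ?_)
      push_cast
      apply Finset.sum_congr rfl
      intro i _
      rw [Nat.cast_sub (ht1 i)]
      simp
    have h2 := mul_le_mul_of_nonneg_left h1 (show (0 : ℤ) ≤ D by positivity)
    refine h2.trans (le_of_eq ?_)
    rw [Finset.mul_sum]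
    apply Finset.sum_congr rfl
    intro i _
    rw [← ht i]; ring
  have hsum' : ∑ i, ((q i).natDegree : ℤ) * (r i + p * ((-(c * r i)) % D) - D) =
      ∑ i, r i * (q i).natDegree + p * ∑ i, ((q i).natDegree : ℤ) * ((-(c * r i)) % D) -
        D * A.natDegree := by
    have h1 : (A.natDegree : ℤ) = ∑ i, ((q i).natDegree : ℤ) := by
      rw [hA, natDegree_A q hA0]; push_cast; rfl
    rw [h1, Finset.mul_sum, Finset.mul_sum, ← Finset.sum_add_distrib, ← Finset.sum_sub_distrib]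
    apply Finset.sum_congr rfl
    intro i _
    ring
  rw [hsum'] at hSdeg'
  have hp0 : (0 : ℤ) < p := by exact_mod_cast hp.out.pos
  have hfin : (p : ℤ) * ((c * a) % D + (c * b) % D) ≤
      p * ∑ i, ((q i).natDegree : ℤ) * ((-(c * r i)) % D) := by
    have h1 : ((d + e : ℕ) : ℤ) ≤ S.natDegree + 1 := by exact_mod_cast hsum
    have h2 := mul_le_mul_of_nonneg_left h1 (show (0 : ℤ) ≤ D by positivity)
    push_cast at h2
    linarith
  exact absurd (le_of_mul_le_mul_left hfin hp0) (not_le.2 hlt)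

theorem exists_primes {D : ℕ} (hD : 0 < D) {c : ℤ} (hc : IsCoprime c (D : ℤ)) (N : ℕ) :
    ∃ p : ℕ, N < p ∧ p.Prime ∧ (D : ℤ) ∣ p * c - 1 := by
  haveI : NeZero D := ⟨hD.ne'⟩
  obtain ⟨u, v, huv⟩ := hc
  have h1 : (u : ZMod D) * (c : ZMod D) = 1 := by
    have := congrArg (fun x : ℤ => (x : ZMod D)) huv
    push_cast at this
    simpa using this
  have hunit : IsUnit (u : ZMod D) := IsUnit.of_mul_eq_one _ h1
  obtain ⟨p, hpN, hp, hpu⟩ := Nat.forall_exists_prime_gt_and_eq_mod hunit N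
  refine ⟨p, hpN, hp, ?_⟩
  rw [← ZMod.intCast_zmod_eq_zero_iff_dvd]
  push_cast
  rw [hpu, h1, sub_self]

end H921PC
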