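import Pool.Agent.H921PC.Rat

set_option autoImplicit false
set_option linter.unusedSectionVars false

namespace H921PC

open Polynomial Finset

/-- first order coefficient of the operator -/
noncomputable def Bc {k : ℕ} (D : ℕ) (q : Fin k → ℤ[X]) (r : Fin k → ℤ) : ℤ[X] :=
  ∑ i, C ((D : ℤ) - r i) * derivative (q i) * ∏ j ∈ univ.erase i, q j

section Int

variable {k : ℕ} (D : ℕ) (q : Fin k → ℤ[X]) (r : Fin k → ℤ)

lemma q_ne (hA : (∏ i, q i) ≠ 0) (i : Fin k) : q i ≠ 0 := by
  intro h
  exact hA (Finset.prod_eq_zero (Finset.mem_univ i) h)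

lemma natDegree_A (hA : (∏ i, q i) ≠ 0) : (∏ i, q i).natDegree = ∑ i, (q i).natDegree :=
  natDegree_prod _ _ (fun i _ => q_ne q hA i)

lemma term_coeff (hA : (∏ i, q i) ≠ 0) (hn : 1 ≤ (∏ i, q i).natDegree) (i : Fin k) :
    (derivative (q i) * ∏ j ∈ univ.erase i, q j).coeff ((∏ i, q i).natDegree - 1) =
      (q i).natDegree * (∏ i, q i).leadingCoeff ∧
    (derivative (q i) * ∏ j ∈ univ.erase i, q j).natDegree ≤ (∏ i, q i).natDegree - 1 := by
  have hsplit : (∏ i, q i) = q i * ∏ j ∈ univ.erase i, q j :=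
    (Finset.mul_prod_erase _ _ (Finset.mem_univ i)).symm
  set G := ∏ j ∈ univ.erase i, q j with hG
  have hq := q_ne q hA i
  have hG0 : G ≠ 0 := by
    intro h; rw [h, mul_zero] at hsplit; exact hA hsplit
  have hdeg : (∏ i, q i).natDegree = (q i).natDegree + G.natDegree := by
    rw [hsplit, natDegree_mul hq hG0]
  rcases Nat.eq_zero_or_pos (q i).natDegree with h0 | h0
  · have h1 : derivative (q i) = 0 := by
      rw [natDegree_eq_zero] at h0
      obtain ⟨x, hx⟩ := h0
      rw [← hx, derivative_C]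
    rw [h1, h0]; simp
  · have h2 : (derivative (q i)).natDegree ≤ (q i).natDegree - 1 := natDegree_derivative_le _
    constructor
    · have h3 : (∏ i, q i).natDegree - 1 = ((q i).natDegree - 1) + G.natDegree := by omega
      rw [h3, coeff_mul_add_eq_of_natDegree_le h2 le_rfl, coeff_derivative, hsplit,
        leadingCoeff_mul]
      have h4 : (q i).natDegree - 1 + 1 = (q i).natDegree := by omega
      have h5 : (((q i).natDegree - 1 : ℕ) : ℤ) + 1 = (q i).natDegree := by
        rw [← h4]; push_cast; simp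
      rw [h4, h5]
      simp only [leadingCoeff]
      ring
    · refine natDegree_mul_le.trans ?_
      omega

lemma Bc_coeff (hA : (∏ i, q i) ≠ 0) (hn : 1 ≤ (∏ i, q i).natDegree) :
    (Bc D q r).coeff ((∏ i, q i).natDegree - 1) =
      (D * (∏ i, q i).natDegree - ∑ i, r i * (q i).natDegree) * (∏ i, q i).leadingCoeff := by
  unfold Bc
  rw [finset_sum_coeff]
  have h1 : ∀ i ∈ (univ : Finset (Fin k)),
      (C ((D : ℤ) - r i) * derivative (q i) * ∏ j ∈ univ.erase i, q j).coeff
        ((∏ i, q i).natDegree - 1) =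
      ((D : ℤ) - r i) * ((q i).natDegree * (∏ i, q i).leadingCoeff) := by
    intro i _
    rw [mul_assoc, coeff_C_mul, (term_coeff q hA hn i).1]
  rw [Finset.sum_congr rfl h1]
  have h2 : ((∏ i, q i).natDegree : ℤ) = ∑ i, ((q i).natDegree : ℤ) := by
    rw [natDegree_A q hA]; push_cast; rfl
  rw [h2, Finset.mul_sum, ← Finset.sum_sub_distrib, Finset.sum_mul]
  apply Finset.sum_congr rfl
  intro i _
  ring

lemma Bc_natDegree (hA : (∏ i, q i) ≠ 0) (hn : 1 ≤ (∏ i, q i).natDegree) :
    (Bc D q r).natDegree ≤ (∏ i, q i).natDegree - 1 := by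
  unfold Bc
  apply natDegree_sum_le_of_forall_le
  intro i _
  rw [mul_assoc]
  exact (natDegree_C_mul_le _ _).trans (term_coeff q hA hn i).2

/-- integral Bezout relation for a separable polynomial -/
lemma exists_bezout (A : ℤ[X]) (hsep : (A.map (Int.castRingHom ℚ)).Separable) :
    ∃ (U V : ℤ[X]) (N : ℤ), N ≠ 0 ∧ U * A + V * derivative A = C N := by
  obtain ⟨u, v, huv⟩ := hsep
  obtain ⟨⟨n1, hn1⟩, h1⟩ := IsLocalization.integerNormalization_map_to_map (nonZeroDivisors ℤ) u
  obtain ⟨⟨n2, hn2⟩, h2⟩ := IsLocalization.integerNormalization_map_to_map (nonZeroDivisors ℤ) v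
  set U := IsLocalization.integerNormalization (nonZeroDivisors ℤ) u
  set V := IsLocalization.integerNormalization (nonZeroDivisors ℤ) v
  have hn1' : n1 ≠ 0 := nonZeroDivisors.ne_zero hn1
  have hn2' : n2 ≠ 0 := nonZeroDivisors.ne_zero hn2
  refine ⟨C n2 * U, C n1 * V, n1 * n2, mul_ne_zero hn1' hn2', ?_⟩
  have hinj : Function.Injective (Polynomial.map (Int.castRingHom ℚ)) :=
    map_injective _ (RingHom.injective_int _)
  apply hinj
  have e1 : U.map (Int.castRingHom ℚ) = C (n1 : ℚ) * u := by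
    have : (algebraMap ℤ ℚ) = Int.castRingHom ℚ := rfl
    rw [this] at h1
    rw [h1]
    simp [smul_eq_C_mul, Algebra.smul_def]
  have e2 : V.map (Int.castRingHom ℚ) = C (n2 : ℚ) * v := by
    have : (algebraMap ℤ ℚ) = Int.castRingHom ℚ := rfl
    rw [this] at h2
    rw [h2]
    simp [smul_eq_C_mul, Algebra.smul_def]
  have hC : ∀ n : ℤ, (C n : ℤ[X]).map (Int.castRingHom ℚ) = C (n : ℚ) := fun n => by
    rw [Polynomial.map_C]; rfl
  rw [Polynomial.map_add, Polynomial.map_mul, Polynomial.map_mul, Polynomial.map_mul,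
    Polynomial.map_mul, e1, e2, ← derivative_map, hC, hC, hC, Int.cast_mul, C_mul]
  linear_combination (C (n1 : ℚ) * C (n2 : ℚ)) * huv

end Int

section ModP

variable {p : ℕ} [hp : Fact p.Prime]

/-- The local data at all places of `𝔽_p(x)`. -/
lemma local_data {k : ℕ} {D : ℕ} {Q' : Fin k → (ZMod p)[X]} {r : Fin k → ZMod p}
    {t : Fin k → ℕ} {R : (ZMod p)[X]}
    (hD : (D : ZMod p) ≠ 0) (hsep : (∏ i, Q' i).Separable)
    (ht1 : ∀ i, 1 ≤ t i) (htp : ∀ i, t i < p) (ht : ∀ i, (D : ZMod p) * t i = r i) :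
    ∀ π : (ZMod p)[X], Irreducible π → ∃ s : ℕ, 1 ≤ s ∧ s < p ∧
      Loc (C (D : ZMod p) * ∏ i, Q' i)
        (∑ i, C ((D : ZMod p) - r i) * derivative (Q' i) * ∏ j ∈ univ.erase i, Q' j) R π s ∧
      π ^ (s - 1) ∣ ∏ i, Q' i ^ (t i - 1) := by
  intro π hπ
  have hπ' := irr_not_dvd_der (K := ZMod p) hπ
  by_cases hdvd : π ∣ ∏ i, Q' i
  · obtain ⟨i, -, hi⟩ := (hπ.prime.dvd_finsetProd_iff _).1 hdvd
    refine ⟨t i, ht1 i, htp i, ?_, ?_⟩
    · obtain ⟨h, hh⟩ := hi
      set G := ∏ j ∈ univ.erase i, Q' j with hG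
      have hsplit : (∏ i, Q' i) = Q' i * G := (Finset.mul_prod_erase _ _ (Finset.mem_univ i)).symm
      have hsq := hsep.squarefree
      have hnd : ¬ π ∣ h * G := by
        intro hc
        obtain ⟨w, hw⟩ := hc
        have h1 : π * π ∣ ∏ i, Q' i := by
          rw [hsplit, hh]
          exact ⟨w, by linear_combination π * hw⟩
        exact hπ.not_isUnit (hsq π h1)
      refine loc_of (P1 := C (D : ZMod p) * (h * G)) hπ hπ' ?_ ?_ ?_
      · rw [hsplit, hh]; ring
      · intro hc
        rcases hπ.prime.dvd_or_dvd hc with h1 | h1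
        · exact hπ.not_isUnit (isUnit_of_dvd_unit h1 (isUnit_C.2 (isUnit_iff_ne_zero.2 hD)))
        · exact hnd h1
      · rw [← Finset.add_sum_erase _ _ (Finset.mem_univ i)]
        have h2 : π ∣ ∑ j ∈ univ.erase i,
            C ((D : ZMod p) - r j) * derivative (Q' j) * ∏ l ∈ univ.erase j, Q' l := by
          apply Finset.dvd_sum
          intro j hj
          apply Dvd.dvd.mul_left
          have h3 : Q' i ∣ ∏ l ∈ univ.erase j, Q' l :=
            Finset.dvd_prod_of_mem _ (Finset.mem_erase.2 ⟨(Finset.ne_of_mem_erase hj).symm,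
              Finset.mem_univ _⟩)
          exact (Dvd.intro h hh.symm).trans h3
        have h4 : derivative (Q' i) = derivative π * h + π * derivative h := by
          rw [hh, derivative_mul]
        have h5 : C (1 - (t i : ZMod p)) * (derivative π * (C (D : ZMod p) * (h * G))) =
            C ((D : ZMod p) - r i) * (derivative π * h * G) := by
          rw [← ht i]
          simp only [map_sub, map_mul, map_one]
          ring
        rw [h5, h4, add_sub_right_comm]
        apply dvd_add _ h2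
        exact ⟨C ((D : ZMod p) - r i) * derivative h * G, by ring⟩
    · exact (pow_dvd_pow_of_dvd hi _).trans (Finset.dvd_prod_of_mem (fun i => Q' i ^ (t i - 1))
        (Finset.mem_univ i))
  · refine ⟨1, le_rfl, hp.out.one_lt, ?_, by simp⟩
    set P := C (D : ZMod p) * ∏ i, Q' i with hP
    set Q := ∑ i, C ((D : ZMod p) - r i) * derivative (Q' i) * ∏ j ∈ univ.erase i, Q' j
    have hnd : ¬ π ∣ P := by
      intro hc
      rcases hπ.prime.dvd_or_dvd hc with h1 | h1
      · exact hπ.not_isUnit (isUnit_of_dvd_unit h1 (isUnit_C.2 (isUnit_iff_ne_zero.2 hD)))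
      · exact hdvd h1
    have hL : Loc (π * P) (π * Q) (π * R) π 1 := by
      refine loc_of (P1 := P) hπ hπ' rfl hnd ?_
      simp
    intro f u v hf
    apply hL f u v
    unfold Sol at hf ⊢
    linear_combination π * hf

end ModP

end H921PC
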