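import Pool.Agent.H921PC.Sys4

set_option autoImplicit false
set_option linter.unusedSectionVars false

namespace H921PC

open Polynomial Finset

lemma upper {D p δ : ℕ} (hD : 0 < D) {r c : ℤ} (hp : |r| < p) (hpc : (D : ℤ) ∣ p * c - 1)
    (hr : (D : ℤ) ∣ r → 0 ≤ r) (hδ : δ < p) (h : (p : ℤ) ∣ D * δ - r) :
    (D : ℤ) * δ ≤ r + p * ((-(c * r)) % D) := by
  have hD' : (0 : ℤ) < D := by exact_mod_cast hD
  obtain ⟨w, hw⟩ := h
  obtain ⟨y, hy⟩ := hpc
  have habs := abs_lt.1 hp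
  have hp0 : (0 : ℤ) < p := lt_of_le_of_lt (abs_nonneg r) hp
  have hw0 : 0 ≤ w := by
    by_contra hc
    push Not at hc
    have h1 : (p : ℤ) * w ≤ p * (-1) := mul_le_mul_of_nonneg_left (by omega) hp0.le
    have h2 : (0 : ℤ) ≤ D * δ := by positivity
    linarith [habs.2]
  have hcong : ∃ z, -(c * r) - w = D * z := by
    refine ⟨y * w - c * δ, ?_⟩
    linear_combination c * hw + w * hy
  have hwD : w < D := by
    by_contra hc
    push Not at hc
    have h1 : (p : ℤ) * D ≤ p * w := mul_le_mul_of_nonneg_left hc hp0.le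
    have h2 : (D : ℤ) * δ ≤ D * (p - 1) := by
      apply mul_le_mul_of_nonneg_left _ hD'.le
      have : (δ : ℤ) < p := by exact_mod_cast hδ
      omega
    have hrneg : r < 0 := by nlinarith
    have hwle : w ≤ D := by
      by_contra hc2
      push Not at hc2
      have h3 : (p : ℤ) * (D + 1) ≤ p * w := mul_le_mul_of_nonneg_left (by omega) hp0.le
      nlinarith [habs.1]
    have hwe : w = D := le_antisymm hwle hc
    obtain ⟨z, hz⟩ := hcong
    have hdvd : (D : ℤ) ∣ r := by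
      refine ⟨-(p : ℤ) * (z + 1) - y * r, ?_⟩
      rw [hwe] at hz
      linear_combination (-(p : ℤ)) * hz - r * hy
    exact absurd (hr hdvd) (by omega)
  have hmod : (-(c * r)) % (D : ℤ) = w := by
    obtain ⟨z, hz⟩ := hcong
    have h1 : -(c * r) = w + D * z := by linarith
    rw [h1, Int.add_mul_emod_self_left, Int.emod_eq_of_lt hw0 hwD]
  rw [hmod]
  linarith

lemma multiset_of_prod {K : Type*} [Field K] {r : ℕ} {a b : Fin r → K}
    (h : ∏ j, (X - C (a j)) = ∏ j, (X - C (b j))) (G : K → ℤ) : ∑ j, G (a j) = ∑ j, G (b j) := by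
  classical
  have key : ∀ a : Fin r → K, (∏ j, (X - C (a j))).roots = (univ.val.map a) := by
    intro a
    have h1 : ∏ j, (X - C (a j)) = ((univ.val.map a).map fun y => X - C y).prod := by
      rw [Multiset.map_map]; rfl
    rw [h1, roots_multiset_prod_X_sub_C]
  have h2 : (univ.val.map a) = (univ.val.map b) := by rw [← key, ← key, h]
  have h3 := congrArg (fun m => (Multiset.map G m).sum) h2
  simp only [Multiset.map_map] at h3
  exact h3

lemma trace_of_charpoly {r : ℕ} {A : Matrix (Fin r) (Fin r) ℤ} {a : Fin r → ℤ}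
    (h : A.charpoly = ∏ j, (X - C (a j))) : A.trace = ∑ j, a j := by
  rcases Nat.eq_zero_or_pos r with h0 | h0
  · subst h0; simp [Matrix.trace]
  · haveI : Nonempty (Fin r) := ⟨⟨0, h0⟩⟩
    rw [Matrix.trace_eq_neg_charpoly_nextCoeff, h, prod_X_sub_C_nextCoeff, neg_neg]

theorem sysModP {k r D : ℕ} (hD : 0 < D) (hk : 0 < k) (x : Fin k → ℤ) (hx : Function.Injective x)
    (B : Fin k → Matrix (Fin r) (Fin r) ℤ) (ρ : Fin k → Fin r → ℤ) (a : Fin r → ℤ) (c : ℤ)
    (hρ : ∀ m, (B m).charpoly = ∏ j, (X - C (ρ m j)))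
    (ha : (∑ m, B m).charpoly = ∏ j, (X - C (a j)))
    (hr : ∀ m j, (D : ℤ) ∣ ρ m j → 0 ≤ ρ m j)
    (hlt : ∑ m, ∑ j, (-(c * ρ m j)) % (D : ℤ) < ∑ j, (-(c * a j)) % (D : ℤ)) :
    ∃ N : ℕ, ∀ p : ℕ, N < p → ∀ _hp : Fact p.Prime, (D : ℤ) ∣ p * c - 1 → ¬ FundModP D x B p := by
  classical
  refine ⟨D + ∑ m, ∑ j, (ρ m j).natAbs + ∑ j, (a j).natAbs + ∑ m, ∑ n, (x m - x n).natAbs, ?_⟩
  intro p hpN hp hpc hfund
  have hnz : ∀ y : ℤ, y ≠ 0 → y.natAbs < p → (y : ZMod p) ≠ 0 := by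
    intro y hy hlt h0
    rw [ZMod.intCast_zmod_eq_zero_iff_dvd, Int.natCast_dvd] at h0
    exact absurd (Nat.le_of_dvd (Int.natAbs_pos.2 hy) h0) (by omega)
  have hDp : (D : ZMod p) ≠ 0 := by
    have := hnz D (by exact_mod_cast hD.ne') (by rw [Int.natAbs_natCast]; omega)
    exact_mod_cast this
  have hρabs : ∀ m j, |ρ m j| < (p : ℤ) := by
    intro m j
    have h1 : (ρ m j).natAbs ≤ ∑ j, (ρ m j).natAbs :=
      Finset.single_le_sum (f := fun j => (ρ m j).natAbs) (fun _ _ => Nat.zero_le _) (Finset.mem_univ j)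
    have h2 : ∑ j, (ρ m j).natAbs ≤ ∑ m, ∑ j, (ρ m j).natAbs :=
      Finset.single_le_sum (f := fun m => ∑ j, (ρ m j).natAbs) (fun _ _ => Nat.zero_le _)
        (Finset.mem_univ m)
    rw [Int.abs_eq_natAbs]
    exact_mod_cast (by omega : (ρ m j).natAbs < p)
  have haabs : ∀ j, |a j| < (p : ℤ) := by
    intro j
    have h1 : (a j).natAbs ≤ ∑ j, (a j).natAbs :=
      Finset.single_le_sum (f := fun j => (a j).natAbs) (fun _ _ => Nat.zero_le _) (Finset.mem_univ j)
    rw [Int.abs_eq_natAbs]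
    exact_mod_cast (by omega : (a j).natAbs < p)
  have hxinj : Function.Injective (fun m => ((x m : ℤ) : ZMod p)) := by
    intro m n hmn
    by_contra hne
    have h1 : (x m - x n).natAbs ≤ ∑ n, (x m - x n).natAbs :=
      Finset.single_le_sum (f := fun n => (x m - x n).natAbs) (fun _ _ => Nat.zero_le _)
        (Finset.mem_univ n)
    have h2 : ∑ n, (x m - x n).natAbs ≤ ∑ m, ∑ n, (x m - x n).natAbs :=
      Finset.single_le_sum (f := fun m => ∑ n, (x m - x n).natAbs) (fun _ _ => Nat.zero_le _)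
        (Finset.mem_univ m)
    have h3 := hnz (x m - x n) (sub_ne_zero.2 (fun h => hne (hx h))) (by omega)
    apply h3
    push_cast
    exact sub_eq_zero.2 hmn
  obtain ⟨M, hM1, hM2⟩ := exists_vsol hDp hfund
  set ψ := Int.castRingHom (ZMod p) with hψ
  have hBeval : ∀ m i l, (D : ZMod p) * (Bp D x B p i l).eval ((x m : ℤ) : ZMod p) =
      (∏ n ∈ univ.erase m, (((x m : ℤ) : ZMod p) - ((x n : ℤ) : ZMod p))) * ((B m).map ψ) i l := by
    intro m i l
    rw [Bp, Matrix.of_apply, eval_finset_sum, Finset.sum_eq_single m]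
    · rw [eval_mul, eval_C, eval_prod]
      simp only [eval_sub, eval_X, eval_C, Matrix.map_apply, hψ, eq_intCast]
      rw [← mul_assoc, ← mul_assoc, mul_inv_cancel₀ hDp, one_mul, mul_comm]
    · intro n _ hn
      rw [eval_mul, eval_prod]
      rw [Finset.prod_eq_zero (Finset.mem_erase.2 ⟨Ne.symm hn, Finset.mem_univ m⟩), mul_zero]
      simp
    · intro h; exact absurd (Finset.mem_univ _) h
  have hmon : ∀ m : Fin k, (∏ n ∈ univ.erase m, (X - C ((x n : ℤ) : ZMod p))).Monic :=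
    fun m => monic_prod_of_monic _ _ (fun i _ => monic_X_sub_C _)
  have hmdeg : ∀ m : Fin k, (∏ n ∈ univ.erase m, (X - C ((x n : ℤ) : ZMod p))).natDegree = k - 1 := by
    intro m
    rw [natDegree_prod_of_monic _ _ (fun i _ => monic_X_sub_C _),
      Finset.sum_congr rfl (fun i _ => natDegree_X_sub_C _), Finset.sum_const,
      Finset.card_erase_of_mem (Finset.mem_univ m), Finset.card_univ, Fintype.card_fin,
      smul_eq_mul, mul_one]
  have hBdeg : ∀ i l, (Bp D x B p i l).natDegree ≤ k - 1 := by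
    intro i l
    rw [Bp, Matrix.of_apply]
    apply natDegree_sum_le_of_forall_le
    intro m _
    exact (natDegree_C_mul_le _ _).trans (hmdeg m).le
  have hBinf : ∀ i l, (D : ZMod p) * (Bp D x B p i l).coeff (k - 1) =
      ((∑ m, B m).map ψ) i l := by
    intro i l
    have h1 : ∀ m : Fin k, (∏ n ∈ univ.erase m, (X - C ((x n : ℤ) : ZMod p))).coeff (k - 1) = 1 := by
      intro m
      have := (hmon m).coeff_natDegree
      rwa [hmdeg m] at this
    rw [Bp, Matrix.of_apply, finset_sum_coeff, Finset.mul_sum, Matrix.map_apply, Matrix.sum_apply,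
      map_sum]
    apply Finset.sum_congr rfl
    intro m _
    rw [coeff_C_mul, h1, mul_one, ← mul_assoc, mul_inv_cancel₀ hDp, one_mul]
    rfl
  obtain ⟨d, v, hv, hdinf, hvm, hle⟩ := sys_core (k := k) hk hxinj hM1 hM2 hBdeg
    (fun m => (B m).map ψ) ((∑ m, B m).map ψ) hBeval hBinf
  -- comparison of the eigenvalues
  set G : ZMod p → ℤ := fun y => (((D : ZMod p)⁻¹ * y).val : ℤ) with hG
  have hmapprod : ∀ b : Fin r → ℤ, (∏ j, (X - C (b j))).map ψ =
      ∏ j, (X - C ((b j : ℤ) : ZMod p)) := by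
    intro b
    rw [Polynomial.map_prod]
    apply Finset.prod_congr rfl
    intro j _
    rw [Polynomial.map_sub, Polynomial.map_X, Polynomial.map_C]; rfl
  have hGv : ∀ m, ∑ j, (v m j : ℤ) = ∑ j, G ((ρ m j : ℤ) : ZMod p) := by
    intro m
    have h1 : ∏ j, (X - C ((D : ZMod p) * ((v m j : ℕ) : ZMod p))) =
        ∏ j, (X - C ((ρ m j : ℤ) : ZMod p)) := by
      rw [← hvm m, Matrix.charpoly_map, hρ, hmapprod]
    rw [← multiset_of_prod h1 G]
    apply Finset.sum_congr rfl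
    intro j _
    rw [hG]
    simp only
    rw [← mul_assoc, inv_mul_cancel₀ hDp, one_mul, ZMod.val_natCast_of_lt (hv m j)]
  have hGd : ∑ j, G ((a j : ℤ) : ZMod p) ≤ ∑ j, (d j : ℤ) := by
    have h1 : ∏ j, (X - C ((D : ZMod p) * ((d j : ℕ) : ZMod p))) =
        ∏ j, (X - C ((a j : ℤ) : ZMod p)) := by
      rw [← hdinf, Matrix.charpoly_map, ha, hmapprod]
    rw [← multiset_of_prod h1 G]
    apply Finset.sum_le_sum
    intro j _
    rw [hG]
    simp only
    rw [← mul_assoc, inv_mul_cancel₀ hDp, one_mul, ZMod.val_natCast]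
    exact_mod_cast Nat.mod_le _ _
  have hGdvd : ∀ y : ℤ, (p : ℤ) ∣ D * ((((D : ZMod p)⁻¹ * (y : ZMod p)).val : ℕ) : ℤ) - y := by
    intro y
    rw [← ZMod.intCast_zmod_eq_zero_iff_dvd]
    push_cast
    rw [ZMod.natCast_zmod_val, ← mul_assoc, mul_inv_cancel₀ hDp, one_mul, sub_self]
  have hup : ∀ m j, (D : ℤ) * G ((ρ m j : ℤ) : ZMod p) ≤
      ρ m j + p * ((-(c * ρ m j)) % D) := by
    intro m j
    exact upper hD (hρabs m j) hpc (hr m j) (ZMod.val_lt _) (hGdvd _)
  have hlo : ∀ j, a j + p * ((-(c * a j)) % D) ≤ (D : ℤ) * G ((a j : ℤ) : ZMod p) := by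
    intro j
    have h1 := lower (D := D) (p := p) (d := ((D : ZMod p)⁻¹ * ((a j : ℤ) : ZMod p)).val) hD
      (a := -(a j)) (c := c) (by rw [abs_neg]; exact haabs j) hpc (by
        have := hGdvd (a j)
        rwa [sub_eq_add_neg] at this)
    rw [mul_neg] at h1
    have h2 : (D : ℤ) * G ((a j : ℤ) : ZMod p) =
        D * ((((D : ZMod p)⁻¹ * ((a j : ℤ) : ZMod p)).val : ℕ) : ℤ) := rfl
    rw [h2]
    linarith
  have htr : ∑ j, a j = ∑ m, ∑ j, ρ m j := by
    rw [← trace_of_charpoly ha, Matrix.trace_sum]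
    exact Finset.sum_congr rfl fun m _ => trace_of_charpoly (hρ m)
  have hD0 : (0 : ℤ) ≤ D := by positivity
  have c1 : ∑ j, (a j + p * ((-(c * a j)) % (D : ℤ))) ≤ D * ∑ j, (d j : ℤ) := by
    calc ∑ j, (a j + p * ((-(c * a j)) % (D : ℤ))) ≤ ∑ j, (D : ℤ) * G ((a j : ℤ) : ZMod p) :=
          Finset.sum_le_sum fun j _ => hlo j
      _ = D * ∑ j, G ((a j : ℤ) : ZMod p) := by rw [Finset.mul_sum]
      _ ≤ D * ∑ j, (d j : ℤ) := mul_le_mul_of_nonneg_left hGd hD0
  have c2 : (D : ℤ) * ∑ j, (d j : ℤ) ≤ ∑ m, ∑ j, (ρ m j + p * ((-(c * ρ m j)) % (D : ℤ))) := by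
    have h1 : ∑ j, (d j : ℤ) ≤ ∑ m, ∑ j, (v m j : ℤ) := by exact_mod_cast hle
    refine (mul_le_mul_of_nonneg_left h1 hD0).trans ?_
    rw [Finset.mul_sum]
    apply Finset.sum_le_sum
    intro m _
    rw [hGv m, Finset.mul_sum]
    exact Finset.sum_le_sum fun j _ => hup m j
  simp only [Finset.sum_add_distrib, ← Finset.mul_sum] at c1 c2
  have hp0 : (0 : ℤ) < p := by exact_mod_cast hp.out.pos
  have hfin : (p : ℤ) * ∑ j, (-(c * a j)) % (D : ℤ) ≤
      p * ∑ m, ∑ j, (-(c * ρ m j)) % (D : ℤ) := by linarith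
  exact absurd (le_of_mul_le_mul_left hfin hp0) (not_le.2 hlt)

end H921PC
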