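import Pool.Agent.H921PC.SysF
import Pool.Agent.H921PC.Sys5

set_option autoImplicit false
set_option linter.unusedSectionVars false

/-!
From vanishing `p`-curvature to a polynomial fundamental matrix (system on the thrice-punctured
line).
-/

namespace H921PC

open Polynomial Finset

section

variable {K : Type*} [Field K] {r : ℕ} (p : ℕ) [hp : Fact p.Prime] [CharP K p]

/-- `(c₀ - X)^k / k!` -/
noncomputable def Tk (c0 : K) (k : ℕ) : K[X] := C (((k.factorial : ℕ) : K)⁻¹) * (C c0 - X) ^ k

include hp in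
lemma Tk_der (c0 : K) {m : ℕ} (hm : m + 1 < p) :
    derivative (Tk c0 (m + 1)) = - Tk c0 m := by
  have hfac : (((m + 1).factorial : ℕ) : K) ≠ 0 := by
    rw [Ne, CharP.cast_eq_zero_iff K p, hp.out.dvd_factorial]
    omega
  have h1 : ((m + 1 : ℕ) : K) ≠ 0 := by
    intro h0; apply hfac; rw [Nat.factorial_succ, Nat.cast_mul, h0, zero_mul]
  have h2 : (((m + 1).factorial : ℕ) : K)⁻¹ * ((m + 1 : ℕ) : K) = ((m.factorial : ℕ) : K)⁻¹ := by
    rw [Nat.factorial_succ, Nat.cast_mul, mul_inv, mul_comm ((m + 1 : ℕ) : K)⁻¹, mul_assoc,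
      inv_mul_cancel₀ h1, mul_one]
  unfold Tk
  rw [derivative_mul, derivative_C, zero_mul, zero_add, derivative_pow, Nat.add_sub_cancel,
    derivative_sub, derivative_C, derivative_X, ← h2, C_mul]
  ring

include hp in
lemma cast_sub_p {m : ℕ} (hm : m ≤ p) : ((p - m : ℕ) : K[X]) = - (m : K[X]) := by
  haveI : CharP K[X] p := inferInstance
  rw [Nat.cast_sub hm, CharP.cast_eq_zero, zero_sub]

include hp in
lemma sum_rec {WW : K[X]} {B1 : Matrix (Fin r) (Fin r) K[X]} {q : ℕ → Fin r → K[X]} (c0 : K)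
    (hq : ∀ k i, q (k + 1) i = WW * derivative (q k i) - (k : K[X]) * derivative WW * q k i
      - ∑ l, B1 i l * q k l) :
    ∀ m, m < p → ∀ i, WW * derivative (∑ k ∈ range (m + 1), Tk c0 k * WW ^ (p - k) * q k i) =
      ∑ l, B1 i l * (∑ k ∈ range (m + 1), Tk c0 k * WW ^ (p - k) * q k l) +
        Tk c0 m * WW ^ (p - m) * q (m + 1) i := by
  intro m
  induction m with
  | zero =>
    intro _ i
    have hT : Tk c0 0 = 1 := by simp [Tk]
    have hsum : ∀ l, ∑ k ∈ range (0 + 1), Tk c0 k * WW ^ (p - k) * q k l = WW ^ p * q 0 l := by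
      intro l
      rw [zero_add, Finset.sum_range_one, hT, one_mul, Nat.sub_zero]
    simp only [hsum, hT, one_mul, Nat.sub_zero, zero_add]
    rw [derivative_mul, der_pow_p p, zero_mul, zero_add]
    have h1 := hq 0 i
    rw [zero_add, Nat.cast_zero, zero_mul, zero_mul, sub_zero] at h1
    have h2 : ∑ l, B1 i l * (WW ^ p * q 0 l) = WW ^ p * ∑ l, B1 i l * q 0 l := by
      rw [Finset.mul_sum]; exact Finset.sum_congr rfl fun l _ => by ring
    rw [h2, h1]
    ring
  | succ m ih =>
    intro hm i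
    have hih := ih (by omega) i
    have e1 : ∀ l, ∑ k ∈ range (m + 1 + 1), Tk c0 k * WW ^ (p - k) * q k l =
        (∑ k ∈ range (m + 1), Tk c0 k * WW ^ (p - k) * q k l) +
          Tk c0 (m + 1) * WW ^ (p - (m + 1)) * q (m + 1) l := fun l => Finset.sum_range_succ _ _
    simp only [e1]
    have e2 : ∑ l, B1 i l * ((∑ k ∈ range (m + 1), Tk c0 k * WW ^ (p - k) * q k l) +
          Tk c0 (m + 1) * WW ^ (p - (m + 1)) * q (m + 1) l) =
        ∑ l, B1 i l * (∑ k ∈ range (m + 1), Tk c0 k * WW ^ (p - k) * q k l) +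
          Tk c0 (m + 1) * WW ^ (p - (m + 1)) * ∑ l, B1 i l * q (m + 1) l := by
      rw [Finset.mul_sum, ← Finset.sum_add_distrib]
      exact Finset.sum_congr rfl fun l _ => by ring
    rw [e2, derivative_add, mul_add, hih]
    have e3 : WW * derivative (WW ^ (p - (m + 1))) =
        -((m + 1 : ℕ) : K[X]) * WW ^ (p - (m + 1)) * derivative WW := by
      rw [← cast_sub_p p hm.le, derivative_pow]
      obtain ⟨w, hw⟩ : ∃ w, p - (m + 1) = w + 1 := ⟨p - (m + 1) - 1, by omega⟩
      rw [hw, Nat.add_sub_cancel, pow_succ, C_eq_natCast]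
      ring
    have e4 : WW ^ (p - m) = WW * WW ^ (p - (m + 1)) := by
      rw [← pow_succ']
      congr 1
      omega
    have h1 := hq (m + 1) i
    rw [derivative_mul, derivative_mul, Tk_der p c0 hm, e4, h1]
    linear_combination (Tk c0 (m + 1) * q (m + 1) i) * e3

include hp in
lemma fund_of_pcurv {ν : K} (hν : ν ≠ 0) (hp2 : 2 < p) (b c : Matrix (Fin r) (Fin r) K)
    {Q : ℕ → Matrix (Fin r) (Fin r) K[X]} (hQ0 : Q 0 = 1)
    (hQ : ∀ k, Q (k + 1) = (C ν * (X * (X - 1))) • (Q k).map (fun f => derivative f)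
      - ((k : K[X]) * C ν * (2 * X - 1)) • Q k
      - ((X - 1 : K[X]) • b.map (fun x => C x) + (X : K[X]) • c.map (fun x => C x)) * Q k)
    (hQp : Q p = 0) :
    ∃ M : Matrix (Fin r) (Fin r) K[X],
      (∀ j, VSol (X * (X - 1)) (Matrix.of fun i l => C ν⁻¹ * ((X - 1) * C (b i l) + X * C (c i l)))
        (M j)) ∧ M.det ≠ 0 := by
  classical
  set WW : K[X] := C ν * (X * (X - 1)) with hWW
  set B1 : Matrix (Fin r) (Fin r) K[X] :=
    Matrix.of fun i l => (X - 1) * C (b i l) + X * C (c i l) with hB1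
  have hWWd : derivative WW = C ν * (2 * X - 1) := by
    rw [hWW]
    simp only [derivative_mul, derivative_C, derivative_X, derivative_sub, derivative_one]
    ring
  have hrec : ∀ j k i, Q (k + 1) i j = WW * derivative (Q k i j)
      - (k : K[X]) * derivative WW * Q k i j - ∑ l, B1 i l * Q k l j := by
    intro j k i
    rw [hQ k, hWWd]
    simp only [Matrix.sub_apply, Matrix.smul_apply, Matrix.map_apply, Matrix.mul_apply,
      Matrix.add_apply, smul_eq_mul, hB1, Matrix.of_apply]
    ring
  set c0 : K := 2 with hc0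
  set M : Matrix (Fin r) (Fin r) K[X] := Matrix.of fun j i =>
    ∑ k ∈ range p, Tk c0 k * WW ^ (p - k) * Q k i j with hM
  refine ⟨M, ?_, ?_⟩
  · intro j i
    have hpp := hp.out.pos
    have h1 := sum_rec p (WW := WW) (B1 := B1) (q := fun k i => Q k i j) c0 (hrec j) (p - 1)
      (by omega) i
    have h2 : p - 1 + 1 = p := by omega
    rw [h2] at h1
    simp only [hQp, Matrix.zero_apply, mul_zero, add_zero] at h1
    have hMi : ∀ l, M j l = ∑ k ∈ range p, Tk c0 k * WW ^ (p - k) * Q k l j := fun l => rfl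
    rw [hMi]
    have h3 : X * (X - 1) = C ν⁻¹ * WW := by
      rw [hWW, ← mul_assoc, ← C_mul, inv_mul_cancel₀ hν, C_1, one_mul]
    rw [h3, mul_assoc, h1, Finset.mul_sum]
    apply Finset.sum_congr rfl
    intro l _
    rw [hMi, hB1]
    simp only [Matrix.of_apply]
    ring
  · intro h0
    have h2ne : (2 : K) ≠ 0 := by
      have h1 : ((2 : ℕ) : K) ≠ 0 := by
        rw [Ne, CharP.cast_eq_zero_iff K p]
        intro h
        exact absurd (Nat.le_of_dvd (by norm_num) h) (by omega)
      exact_mod_cast h1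
    have hev : (Polynomial.evalRingHom c0).mapMatrix M = ((ν * 2) ^ p) • (1 : Matrix (Fin r) (Fin r) K) := by
      ext1 j i
      have h1 : ((Polynomial.evalRingHom c0).mapMatrix M) j i =
          (∑ k ∈ range p, Tk c0 k * WW ^ (p - k) * Q k i j).eval c0 := rfl
      rw [h1, eval_finset_sum, Finset.sum_eq_single 0]
      · rw [eval_mul, eval_mul, hQ0, Nat.sub_zero, eval_pow, hWW]
        have hT : Tk c0 0 = 1 := by simp [Tk]
        rw [hT, eval_one, one_mul, Matrix.smul_apply, smul_eq_mul]
        have h3 : (C ν * (X * (X - 1)) : K[X]).eval c0 = ν * 2 := by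
          rw [hc0]
          simp only [eval_mul, eval_C, eval_X, eval_sub, eval_one]
          ring
        rw [h3]
        congr 1
        rw [Matrix.one_apply, Matrix.one_apply]
        by_cases hij : i = j
        · rw [if_pos hij, if_pos hij.symm, eval_one]
        · rw [if_neg hij, if_neg (fun h => hij h.symm), eval_zero]
      · intro k _ hk
        rw [eval_mul, eval_mul]
        have : (Tk c0 k).eval c0 = 0 := by
          simp [Tk, hk]
        rw [this, zero_mul, zero_mul]
      · intro h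
        exact absurd (Finset.mem_range.2 hp.out.pos) h
    have h4 := congrArg Matrix.det hev
    rw [← RingHom.map_det, h0, map_zero, Matrix.det_smul, Matrix.det_one, mul_one] at h4
    exact pow_ne_zero _ (pow_ne_zero _ (mul_ne_zero hν h2ne)) h4.symm

end

end H921PC
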