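import Pool.Agent.H921PC.PCurv

set_option autoImplicit false
set_option linter.unusedSectionVars false

namespace H921PC

open Polynomial Finset

section

variable {K : Type*} [Field K] [Finite K] {r : ℕ} (p : ℕ) [hp : Fact p.Prime] [CharP K p]

include hp in
lemma nat_eq_of_cast {ν : K} (hν : ν ≠ 0) {m v : ℕ} (hm : m ≤ v) (hv : v < p)
    (h : ν * (m : K) = ν * (v : K)) : m = v := by
  have h1 : (m : K) = (v : K) := mul_left_cancel₀ hν h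
  have h2 : ((v - m : ℕ) : K) = 0 := by
    rw [Nat.cast_sub hm, h1, sub_self]
  rw [CharP.cast_eq_zero_iff K p] at h2
  by_contra hne
  exact absurd (Nat.le_of_dvd (by omega) h2) (by omega)

/-- least natural number `m` with `ν m = y` -/
noncomputable def Gf (ν y : K) : ℤ := ((sInf {m : ℕ | ν * (m : K) = y} : ℕ) : ℤ)

include hp in
lemma Gf_eq {ν : K} (hν : ν ≠ 0) {v : ℕ} (hv : v < p) : Gf ν (ν * (v : K)) = v := by
  have hmem : v ∈ {m : ℕ | ν * (m : K) = ν * (v : K)} := rfl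
  have h1 : sInf {m : ℕ | ν * (m : K) = ν * (v : K)} ≤ v := Nat.sInf_le hmem
  have h2 : ν * ((sInf {m : ℕ | ν * (m : K) = ν * (v : K)} : ℕ) : K) = ν * (v : K) :=
    Nat.sInf_mem ⟨v, hmem⟩
  unfold Gf
  exact_mod_cast nat_eq_of_cast p hν h1 hv h2

lemma Gf_le {ν : K} (v : ℕ) : Gf ν (ν * (v : K)) ≤ v := by
  have hmem : v ∈ {m : ℕ | ν * (m : K) = ν * (v : K)} := rfl
  have h1 : sInf {m : ℕ | ν * (m : K) = ν * (v : K)} ≤ v := Nat.sInf_le hmem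
  unfold Gf
  exact_mod_cast h1

include hp in
lemma Gf_int {n : ℕ} {ℓ : ℤ} (hpl : (n : ℤ) ∣ p * ℓ - 1) (ρ : ℤ) :
    ∃ m : ℕ, Gf (n : K) (ρ : K) = m ∧ m < p ∧ (p : ℤ) ∣ n * m - ρ := by
  obtain ⟨y, hy⟩ := hpl
  have hpp := hp.out.pos
  have hp0 : (p : ℤ) ≠ 0 := by exact_mod_cast hpp.ne'
  set m0 : ℕ := ((-y * ρ) % (p : ℤ)).toNat with hm0
  have hm0z : (m0 : ℤ) = (-y * ρ) % (p : ℤ) := by
    rw [hm0, Int.toNat_of_nonneg (Int.emod_nonneg _ hp0)]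
  have hm0lt : m0 < p := by
    have := Int.emod_lt_of_pos (-y * ρ) (by exact_mod_cast hpp : (0 : ℤ) < p)
    rw [← hm0z] at this
    exact_mod_cast this
  have hdvd : (p : ℤ) ∣ n * m0 - ρ := by
    have h1 := Int.emod_add_mul_ediv (-y * ρ) p
    rw [← hm0z] at h1
    refine ⟨-ℓ * ρ - n * ((-y * ρ) / (p : ℤ)), ?_⟩
    linear_combination (n : ℤ) * h1 + ρ * hy
  have hcast : ∀ m : ℕ, (n : K) * (m : K) = (ρ : K) ↔ (p : ℤ) ∣ n * m - ρ := by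
    intro m
    rw [← CharP.intCast_eq_zero_iff K p]
    push_cast
    exact sub_eq_zero.symm
  have hmem : m0 ∈ {m : ℕ | (n : K) * (m : K) = (ρ : K)} := (hcast m0).2 hdvd
  refine ⟨sInf {m : ℕ | (n : K) * (m : K) = (ρ : K)}, rfl, ?_, ?_⟩
  · exact lt_of_le_of_lt (Nat.sInf_le hmem) hm0lt
  · exact (hcast _).1 (Nat.sInf_mem ⟨m0, hmem⟩)

include hp in
theorem pcurv_modP {n : ℕ} (hn : 0 < n) (b c : Matrix (Fin r) (Fin r) K) (β γ δ : Fin r → ℤ)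
    (ℓ : ℤ) (hb : b.charpoly = ∏ j, (X - C ((β j : ℤ) : K)))
    (hc : c.charpoly = ∏ j, (X - C ((γ j : ℤ) : K)))
    (hd : (b + c).charpoly = ∏ j, (X - C ((δ j : ℤ) : K)))
    (htr : ∑ j, δ j = ∑ j, β j + ∑ j, γ j)
    (hbn : ∀ j, (n : ℤ) ∣ β j → 0 ≤ β j) (hcn : ∀ j, (n : ℤ) ∣ γ j → 0 ≤ γ j)
    (hlt : ∑ j, (-(ℓ * β j)) % (n : ℤ) + ∑ j, (-(ℓ * γ j)) % (n : ℤ) <
      ∑ j, (-(ℓ * δ j)) % (n : ℤ))
    (hnp : n < p) (hp2 : 2 < p) (hpl : (n : ℤ) ∣ p * ℓ - 1)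
    (hβ : ∀ j, |β j| < (p : ℤ)) (hγ : ∀ j, |γ j| < (p : ℤ)) (hδ : ∀ j, |δ j| < (p : ℤ))
    {Q : ℕ → Matrix (Fin r) (Fin r) K[X]} (hQ0 : Q 0 = 1)
    (hQ : ∀ k, Q (k + 1) = (C (n : K) * (X * (X - 1))) • (Q k).map (fun f => derivative f)
      - ((k : K[X]) * C (n : K) * (2 * X - 1)) • Q k
      - ((X - 1 : K[X]) • b.map (fun x => C x) + (X : K[X]) • c.map (fun x => C x)) * Q k) :
    Q p ≠ 0 := by
  classical
  intro hQp
  have hν : (n : K) ≠ 0 := by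
    rw [Ne, CharP.cast_eq_zero_iff K p]
    intro h
    exact absurd (Nat.le_of_dvd hn h) (by omega)
  obtain ⟨M, hM1, hM2⟩ := fund_of_pcurv p hν hp2 b c hQ0 hQ hQp
  set B : Matrix (Fin r) (Fin r) K[X] :=
    Matrix.of fun i l => C (n : K)⁻¹ * ((X - 1) * C (b i l) + X * C (c i l)) with hB
  have hprod : ∏ i : Fin 2, (X - C ((![0, 1] : Fin 2 → K) i)) = (X * (X - 1) : K[X]) := by
    rw [Fin.prod_univ_two]; simp
  have hinj : Function.Injective (![0, 1] : Fin 2 → K) := by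
    intro i j hij
    fin_cases i <;> fin_cases j <;> simp_all
  have hBdeg : ∀ i l, (B i l).natDegree ≤ 2 - 1 := by
    intro i l
    rw [hB, Matrix.of_apply]
    refine (natDegree_C_mul_le _ _).trans ?_
    refine (natDegree_add_le _ _).trans ?_
    refine max_le ?_ ?_
    · refine (natDegree_mul_le).trans ?_
      rw [natDegree_C, add_zero]
      have := natDegree_X_sub_C (1 : K)
      rw [C_1] at this
      rw [this]
    · refine (natDegree_mul_le).trans ?_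
      rw [natDegree_C, add_zero, natDegree_X]
  have hA : ∀ (m : Fin 2) i l, (n : K) * (B i l).eval ((![0, 1] : Fin 2 → K) m) =
      (∏ q ∈ univ.erase m, ((![0, 1] : Fin 2 → K) m - (![0, 1] : Fin 2 → K) q)) *
        ((![b, c] : Fin 2 → Matrix (Fin r) (Fin r) K) m) i l := by
    intro m i l
    have hinv : (n : K) * (n : K)⁻¹ = 1 := mul_inv_cancel₀ hν
    have e0 : (univ : Finset (Fin 2)).erase 0 = {1} := by decide
    have e1 : (univ : Finset (Fin 2)).erase 1 = {0} := by decide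
    rw [hB, Matrix.of_apply, eval_mul, eval_C, ← mul_assoc, hinv, one_mul]
    fin_cases m
    · simp [e0]
    · simp [e1]
  have hAinf : ∀ i l, (n : K) * (B i l).coeff (2 - 1) = (b + c) i l := by
    intro i l
    have hinv : (n : K) * (n : K)⁻¹ = 1 := mul_inv_cancel₀ hν
    rw [hB, Matrix.of_apply, coeff_C_mul, ← mul_assoc, hinv, one_mul]
    have h1 : (X - 1) * C (b i l) + X * C (c i l) = C (b i l + c i l) * X - C (b i l) := by
      rw [C_add]; ring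
    rw [h1]
    simp [coeff_C]
  obtain ⟨d, v, hv, hdinf, hvm, hle⟩ := sys_coreF p (k := 2) (by norm_num) hinj
    (by rw [hprod]; exact hM1) hM2 hBdeg (![b, c]) (b + c) hA hAinf
  rw [Fin.sum_univ_two] at hle
  have hv0 : b.charpoly = ∏ j, (X - C ((n : K) * ((v 0 j : ℕ) : K))) := hvm 0
  have hv1 : c.charpoly = ∏ j, (X - C ((n : K) * ((v 1 j : ℕ) : K))) := hvm 1
  have hG0 : ∑ j, (v 0 j : ℤ) = ∑ j, Gf (n : K) ((β j : ℤ) : K) := by
    have h1 : ∏ j, (X - C ((n : K) * ((v 0 j : ℕ) : K))) = ∏ j, (X - C ((β j : ℤ) : K)) := by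
      rw [← hv0, hb]
    rw [← multiset_of_prod h1 (Gf (n : K))]
    exact Finset.sum_congr rfl fun j _ => (Gf_eq p hν (hv 0 j)).symm
  have hG1 : ∑ j, (v 1 j : ℤ) = ∑ j, Gf (n : K) ((γ j : ℤ) : K) := by
    have h1 : ∏ j, (X - C ((n : K) * ((v 1 j : ℕ) : K))) = ∏ j, (X - C ((γ j : ℤ) : K)) := by
      rw [← hv1, hc]
    rw [← multiset_of_prod h1 (Gf (n : K))]
    exact Finset.sum_congr rfl fun j _ => (Gf_eq p hν (hv 1 j)).symm
  have hGd : ∑ j, Gf (n : K) ((δ j : ℤ) : K) ≤ ∑ j, (d j : ℤ) := by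
    have h1 : ∏ j, (X - C ((n : K) * ((d j : ℕ) : K))) = ∏ j, (X - C ((δ j : ℤ) : K)) := by
      rw [← hdinf, hd]
    rw [← multiset_of_prod h1 (Gf (n : K))]
    exact Finset.sum_le_sum fun j _ => Gf_le _
  have hup : ∀ ρ : ℤ, |ρ| < (p : ℤ) → ((n : ℤ) ∣ ρ → 0 ≤ ρ) →
      (n : ℤ) * Gf (n : K) ((ρ : ℤ) : K) ≤ ρ + p * ((-(ℓ * ρ)) % n) := by
    intro ρ h1 h2
    obtain ⟨m, hm, hmp, hmd⟩ := Gf_int (K := K) p hpl ρ
    rw [hm]
    exact upper hn h1 hpl h2 hmp hmd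
  have hlo : ∀ ρ : ℤ, |ρ| < (p : ℤ) →
      ρ + p * ((-(ℓ * ρ)) % n) ≤ (n : ℤ) * Gf (n : K) ((ρ : ℤ) : K) := by
    intro ρ h1
    obtain ⟨m, hm, hmp, hmd⟩ := Gf_int (K := K) p hpl ρ
    rw [hm]
    have h3 := lower (D := n) (p := p) (d := m) hn (a := -ρ) (c := ℓ) (by rwa [abs_neg]) hpl
      (by rwa [sub_eq_add_neg] at hmd)
    rw [mul_neg] at h3
    linarith
  have hn0 : (0 : ℤ) ≤ n := by positivity
  have c1 : ∑ j, (δ j + p * ((-(ℓ * δ j)) % (n : ℤ))) ≤ n * ∑ j, (d j : ℤ) := by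
    calc ∑ j, (δ j + p * ((-(ℓ * δ j)) % (n : ℤ))) ≤ ∑ j, (n : ℤ) * Gf (n : K) ((δ j : ℤ) : K) :=
          Finset.sum_le_sum fun j _ => hlo _ (hδ j)
      _ = n * ∑ j, Gf (n : K) ((δ j : ℤ) : K) := by rw [Finset.mul_sum]
      _ ≤ n * ∑ j, (d j : ℤ) := mul_le_mul_of_nonneg_left hGd hn0
  have c2 : (n : ℤ) * ∑ j, (d j : ℤ) ≤ ∑ j, (β j + p * ((-(ℓ * β j)) % (n : ℤ))) +
      ∑ j, (γ j + p * ((-(ℓ * γ j)) % (n : ℤ))) := by
    have h1 : ∑ j, (d j : ℤ) ≤ ∑ j, (v 0 j : ℤ) + ∑ j, (v 1 j : ℤ) := by exact_mod_cast hle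
    refine (mul_le_mul_of_nonneg_left h1 hn0).trans ?_
    rw [mul_add, hG0, hG1, Finset.mul_sum, Finset.mul_sum]
    exact add_le_add (Finset.sum_le_sum fun j _ => hup _ (hβ j) (hbn j))
      (Finset.sum_le_sum fun j _ => hup _ (hγ j) (hcn j))
  simp only [Finset.sum_add_distrib, ← Finset.mul_sum] at c1 c2
  have hp0 : (0 : ℤ) < p := by exact_mod_cast hp.out.pos
  have hfin : (p : ℤ) * ∑ j, (-(ℓ * δ j)) % (n : ℤ) ≤
      p * (∑ j, (-(ℓ * β j)) % (n : ℤ) + ∑ j, (-(ℓ * γ j)) % (n : ℤ)) := by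
    rw [mul_add]; linarith
  exact absurd (le_of_mul_le_mul_left hfin hp0) (not_le.2 hlt)

end

end H921PC
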