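import Pool.Agent.H921PC.PCurv2

set_option autoImplicit false
set_option linter.unusedSectionVars false

namespace H921PC

open Polynomial Finset NumberField

/-- The `p`-curvature of the system `ν f' = (b/t + c/(t-1)) f` over the field `k` vanishes: the
matrix `Q m` is `(ν t (t-1))^m` times the `m`-th power of the connection `d/dt - A`, and
`Q p = 0` for the characteristic `p` of `k`. For `k` the residue field of a maximal ideal of a ring
of integers this is the condition of frozen statement `S00203`. -/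
def PCurvZero {k : Type} [CommRing k] {r : ℕ} (ν : k) (b c : Matrix (Fin r) (Fin r) k) : Prop :=
  ∀ Q : ℕ → Matrix (Fin r) (Fin r) k[X], Q 0 = 1 →
    (∀ m : ℕ, Q (m + 1) = (C ν * (X * (X - 1))) • (Q m).map (fun f => derivative f)
      - ((m : k[X]) * C ν * (2 * X - 1)) • Q m
      - ((X - 1 : k[X]) • b.map (fun x => C x) + (X : k[X]) • c.map (fun x => C x)) * Q m) →
    Q (ringChar k) = 0

/-- the eigenvalues of the matrix `M` are the integers `a j` (with multiplicities) -/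
def IntEigenvalues {R : Type} [CommRing R] {r : ℕ} (M : Matrix (Fin r) (Fin r) R)
    (a : Fin r → ℤ) : Prop := M.charpoly = ∏ j, (X - C ((a j : ℤ) : R))

section

variable {K : Type} [Field K] [NumberField K] {r : ℕ}

lemma charpoly_red {b : Matrix (Fin r) (Fin r) (𝓞 K)} {β : Fin r → ℤ}
    (hb : IntEigenvalues b β) {F : Type*} [CommRing F]
    (φ : 𝓞 K →+* F) : (b.map φ).charpoly = ∏ j, (X - C ((β j : ℤ) : F)) := by
  rw [IntEigenvalues] at hb
  rw [Matrix.charpoly_map, hb, Polynomial.map_prod]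
  apply Finset.prod_congr rfl
  intro j _
  rw [Polynomial.map_sub, Polynomial.map_X, Polynomial.map_C, map_intCast]

lemma trace_of_charpoly' {A : Matrix (Fin r) (Fin r) (𝓞 K)} {a : Fin r → ℤ}
    (h : IntEigenvalues A a) : A.trace = ((∑ j, a j : ℤ) : 𝓞 K) := by
  rw [IntEigenvalues] at h
  rcases Nat.eq_zero_or_pos r with h0 | h0
  · subst h0; simp [Matrix.trace]
  · haveI : Nonempty (Fin r) := ⟨⟨0, h0⟩⟩
    rw [Matrix.trace_eq_neg_charpoly_nextCoeff, h, prod_X_sub_C_nextCoeff, neg_neg]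
    push_cast
    rfl

theorem pcurv_ne {n : ℕ} (hn : 0 < n) {b c : Matrix (Fin r) (Fin r) (𝓞 K)} {β γ δ : Fin r → ℤ}
    {ℓ : ℤ} (hb : IntEigenvalues b β)
    (hc : IntEigenvalues c γ)
    (hd : IntEigenvalues (b + c) δ)
    (hbn : ∀ j, (n : ℤ) ∣ β j → 0 ≤ β j) (hcn : ∀ j, (n : ℤ) ∣ γ j → 0 ≤ γ j)
    (hlt : ∑ j, (-(ℓ * β j)) % (n : ℤ) + ∑ j, (-(ℓ * γ j)) % (n : ℤ) <
      ∑ j, (-(ℓ * δ j)) % (n : ℤ))
    (P : Ideal (𝓞 K)) (hP : P.IsMaximal)
    (hpN : n + 2 + ∑ j, (β j).natAbs + ∑ j, (γ j).natAbs + ∑ j, (δ j).natAbs <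
      ringChar (𝓞 K ⧸ P))
    (hpl : (n : ℤ) ∣ (ringChar (𝓞 K ⧸ P) : ℤ) * ℓ - 1) :
    ¬ PCurvZero (n : 𝓞 K ⧸ P) (b.map (Ideal.Quotient.mk P)) (c.map (Ideal.Quotient.mk P)) := by
  classical
  intro h
  haveI := hP
  letI : Field (𝓞 K ⧸ P) := Ideal.Quotient.field P
  set p := ringChar (𝓞 K ⧸ P) with hpdef
  haveI hchar : CharP (𝓞 K ⧸ P) p := ringChar.charP _
  haveI hprime : Fact p.Prime := ⟨CharP.char_is_prime (𝓞 K ⧸ P) p⟩
  have hQ := h (fun k => Nat.rec 1 (fun m Qm =>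
      (C (n : 𝓞 K ⧸ P) * (X * (X - 1))) • (Qm).map (fun f => derivative f)
      - ((m : (𝓞 K ⧸ P)[X]) * C (n : 𝓞 K ⧸ P) * (2 * X - 1)) • Qm
      - ((X - 1 : (𝓞 K ⧸ P)[X]) • (b.map (Ideal.Quotient.mk P)).map (fun x => C x) +
        (X : (𝓞 K ⧸ P)[X]) • (c.map (Ideal.Quotient.mk P)).map (fun x => C x)) * Qm) k)
      rfl (fun k => rfl)
  have htr : ∑ j, δ j = ∑ j, β j + ∑ j, γ j := by
    have h1 := trace_of_charpoly' hd
    rw [Matrix.trace_add, trace_of_charpoly' hb, trace_of_charpoly' hc] at h1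
    have h2 : ((∑ j, δ j : ℤ) : 𝓞 K) = ((∑ j, β j + ∑ j, γ j : ℤ) : 𝓞 K) := by
      rw [Int.cast_add]; exact h1.symm
    exact_mod_cast h2
  have habs : ∀ (a : Fin r → ℤ), ∑ j, (a j).natAbs < p → ∀ j, |a j| < (p : ℤ) := by
    intro a ha j
    have h1 : (a j).natAbs ≤ ∑ j, (a j).natAbs :=
      Finset.single_le_sum (f := fun j => (a j).natAbs) (fun _ _ => Nat.zero_le _)
        (Finset.mem_univ j)
    rw [Int.abs_eq_natAbs]
    exact_mod_cast (by omega : (a j).natAbs < p)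
  refine pcurv_modP p hn (b.map (Ideal.Quotient.mk P)) (c.map (Ideal.Quotient.mk P)) β γ δ ℓ
    (charpoly_red hb _) (charpoly_red hc _) ?_ htr hbn hcn hlt (by omega) (by omega) hpl
    (habs β (by omega)) (habs γ (by omega)) (habs δ (by omega)) ?_ ?_ hQ
  · have h1 : b.map (Ideal.Quotient.mk P) + c.map (Ideal.Quotient.mk P) =
        (b + c).map (Ideal.Quotient.mk P) := by
      ext1 i j
      simp [Matrix.add_apply, Matrix.map_apply]
    rw [h1]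
    exact charpoly_red hd _
  · rfl
  · intro k
    rfl

theorem pcurv_infinite {n : ℕ} (hn : 0 < n) {b c : Matrix (Fin r) (Fin r) (𝓞 K)}
    {β γ δ : Fin r → ℤ}
    {ℓ : ℤ} (hb : IntEigenvalues b β)
    (hc : IntEigenvalues c γ)
    (hd : IntEigenvalues (b + c) δ)
    (hbn : ∀ j, (n : ℤ) ∣ β j → 0 ≤ β j) (hcn : ∀ j, (n : ℤ) ∣ γ j → 0 ≤ γ j)
    (hℓ : IsCoprime ℓ (n : ℤ))
    (hlt : ∑ j, (-(ℓ * β j)) % (n : ℤ) + ∑ j, (-(ℓ * γ j)) % (n : ℤ) <
      ∑ j, (-(ℓ * δ j)) % (n : ℤ)) :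
    {P : Ideal (𝓞 K) | P.IsMaximal ∧ ¬ PCurvZero (n : 𝓞 K ⧸ P)
      (b.map (Ideal.Quotient.mk P)) (c.map (Ideal.Quotient.mk P))}.Infinite := by
  intro hfin
  obtain ⟨N0, hN0⟩ := (hfin.image (fun P : Ideal (𝓞 K) => ringChar (𝓞 K ⧸ P))).bddAbove
  obtain ⟨p, hpN, hp, hpl⟩ := exists_primes hn hℓ
    (N0 + (n + 2 + ∑ j, (β j).natAbs + ∑ j, (γ j).natAbs + ∑ j, (δ j).natAbs))
  haveI : Fact p.Prime := ⟨hp⟩
  haveI hmax : (Ideal.span {(p : ℤ)}).IsMaximal := Int.ideal_span_isMaximal_of_prime p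
  obtain ⟨P, hPm, hPo⟩ :=
    Ideal.exists_maximal_ideal_liesOver_of_isIntegral (S := 𝓞 K) (Ideal.span {(p : ℤ)})
  have hpP : ((p : ℕ) : 𝓞 K ⧸ P) = 0 := by
    have h1 : (p : ℤ) ∈ Ideal.span {(p : ℤ)} := Ideal.mem_span_singleton_self _
    rw [Ideal.mem_of_liesOver P (Ideal.span {(p : ℤ)})] at h1
    have h2 := Ideal.Quotient.eq_zero_iff_mem.2 h1
    simpa using h2
  haveI : Nontrivial (𝓞 K ⧸ P) := Ideal.Quotient.nontrivial_iff.2 hPm.ne_top
  have hring : ringChar (𝓞 K ⧸ P) = p := CharP.ringChar_of_prime_eq_zero hp hpP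
  have hmem : P ∈ {P : Ideal (𝓞 K) | P.IsMaximal ∧ ¬ PCurvZero (n : 𝓞 K ⧸ P)
      (b.map (Ideal.Quotient.mk P)) (c.map (Ideal.Quotient.mk P))} := by
    refine ⟨hPm, pcurv_ne hn hb hc hd hbn hcn hlt P hPm ?_ ?_⟩
    · rw [hring]; omega
    · rw [hring]; exact hpl
  have h3 := hN0 (Set.mem_image_of_mem _ hmem)
  simp only [hring] at h3
  omega

end

end H921PC
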