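import Mathlib

set_option autoImplicit false

/-!
Second order linear differential equations over a finite field: polynomial solutions of minimal
degree and their Wronskian.
-/

namespace H921PC

open Polynomial

variable {K : Type*} [Field K]

/-- `f` is a polynomial solution of `P y'' + Q y' + R y = 0`. -/
def Sol (P Q R f : K[X]) : Prop :=
  P * derivative (derivative f) + Q * derivative f + R * f = 0

/-- the Wronskian -/
noncomputable def Wr (f g : K[X]) : K[X] := f * derivative g - derivative f * g

lemma Sol.mul_const {P Q R f a : K[X]} (h : Sol P Q R f) (ha : derivative a = 0) :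
    Sol P Q R (a * f) := by
  unfold Sol at *
  simp only [derivative_mul, ha, zero_mul, zero_add, derivative_zero]
  linear_combination a * h

lemma Sol.add {P Q R f g : K[X]} (h : Sol P Q R f) (h' : Sol P Q R g) : Sol P Q R (f + g) := by
  unfold Sol at *
  simp only [derivative_add]
  linear_combination h + h'

lemma Sol.of_mul {P Q R f a : K[X]} (h : Sol P Q R (a * f)) (ha : derivative a = 0)
    (h0 : a ≠ 0) : Sol P Q R f := by
  unfold Sol at *
  simp only [derivative_mul, ha, zero_mul, zero_add, derivative_zero] at h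
  have : a * (P * derivative (derivative f) + Q * derivative f + R * f) = 0 := by
    linear_combination h
  rcases mul_eq_zero.1 this with h1 | h1
  · exact absurd h1 h0
  · exact h1

lemma Wr_mul_right {f g a : K[X]} (ha : derivative a = 0) : Wr f (a * g) = a * Wr f g := by
  unfold Wr
  simp only [derivative_mul, ha, zero_mul, zero_add]
  ring

lemma Wr_mul_left {f g a : K[X]} (ha : derivative a = 0) : Wr (a * f) g = a * Wr f g := by
  unfold Wr
  simp only [derivative_mul, ha, zero_mul, zero_add]
  ring

lemma Wr_swap (f g : K[X]) : Wr g f = - Wr f g := by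
  unfold Wr; ring

lemma Wr_add_right (f g h : K[X]) : Wr f (g + h) = Wr f g + Wr f h := by
  unfold Wr; simp only [derivative_add]; ring

lemma Wr_add_left (f g h : K[X]) : Wr (f + h) g = Wr f g + Wr h g := by
  unfold Wr; simp only [derivative_add]; ring

lemma Wr_self (f : K[X]) : Wr f f = 0 := by
  unfold Wr; ring

lemma ne_zero_of_Wr_left {f g : K[X]} (h : Wr f g ≠ 0) : f ≠ 0 := by
  rintro rfl; apply h; unfold Wr; simp

lemma ne_zero_of_Wr_right {f g : K[X]} (h : Wr f g ≠ 0) : g ≠ 0 := by
  rintro rfl; apply h; unfold Wr; simp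

section CharP

variable (p : ℕ) [hp : Fact p.Prime] [CharP K p]

lemma der_pow_p (a : K[X]) : derivative (a ^ p) = 0 := by
  rw [derivative_pow]
  have : ((p : K[X])) = 0 := by
    have := CharP.cast_eq_zero K[X] p
    exact this
  simp [this]

/-- Every residue class modulo an irreducible polynomial is a `p`-th power. -/
lemma exists_pow_congr [Finite K] {π u z : K[X]} (hπ : Irreducible π) (hu : ¬ π ∣ u)
    (hz : ¬ π ∣ z) :
    ∃ a : K[X], ¬ π ∣ a ∧ a.natDegree < π.natDegree ∧ π ∣ a ^ p * u + z := by
  haveI : Fact (Irreducible π) := ⟨hπ⟩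
  haveI : Module.Finite K (AdjoinRoot π) := (AdjoinRoot.powerBasis hπ.ne_zero).finite
  haveI : Finite (AdjoinRoot π) := Module.finite_of_finite K
  haveI : CharP (AdjoinRoot π) p := charP_of_injective_algebraMap
    (algebraMap K (AdjoinRoot π)).injective p
  have hmk : ∀ f : K[X], AdjoinRoot.mk π f = 0 ↔ π ∣ f := fun f => AdjoinRoot.mk_eq_zero
  have hsurj : Function.Surjective (fun x : AdjoinRoot π => x ^ p) := by
    apply Finite.surjective_of_injective
    intro x y hxy
    have h1 : (x - y) ^ p = 0 := by
      rw [sub_pow_char]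
      simpa [sub_eq_zero] using hxy
    have h2 := pow_eq_zero_iff (hp.out.ne_zero) |>.1 h1
    exact sub_eq_zero.1 h2
  obtain ⟨α, hα⟩ := hsurj (-(AdjoinRoot.mk π z) / AdjoinRoot.mk π u)
  obtain ⟨a, rfl⟩ := AdjoinRoot.mk_surjective α
  have hu' : AdjoinRoot.mk π u ≠ 0 := fun h => hu ((hmk u).1 h)
  have hz' : AdjoinRoot.mk π z ≠ 0 := fun h => hz ((hmk z).1 h)
  have hmod : AdjoinRoot.mk π (a % π) = AdjoinRoot.mk π a := by
    have h1 : a % π = a - π * (a / π) := by
      have := EuclideanDomain.div_add_mod a π
      linear_combination this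
    rw [h1, map_sub, map_mul, AdjoinRoot.mk_self, zero_mul, sub_zero]
  refine ⟨a % π, ?_, ?_, ?_⟩
  · intro h
    have h1 := (hmk _).2 h
    rw [hmod] at h1
    simp only [h1] at hα
    rw [zero_pow hp.out.ne_zero] at hα
    have : -(AdjoinRoot.mk π z) / AdjoinRoot.mk π u ≠ 0 := div_ne_zero (neg_ne_zero.2 hz') hu'
    exact this hα.symm
  · exact natDegree_mod_lt a (fun h => hπ.not_isUnit (by
      rw [natDegree_eq_zero] at h
      obtain ⟨c, rfl⟩ := h
      exact (isUnit_C.2 (isUnit_iff_ne_zero.2 (fun hc => hπ.ne_zero (by rw [hc, C_0]))))))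
  · rw [← hmk, map_add, map_mul, map_pow, hmod]
    simp only at hα
    rw [hα]
    field_simp
    ring

end CharP

end H921PC
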