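import Pool.Agent.H921PC.Deg

set_option autoImplicit false
set_option linter.unusedSectionVars false

namespace H921PC

open Polynomial

/-- The reduction modulo the prime `p` of the operator `b₂ ∂² + b₁ ∂ + b₀` (with integer
polynomial coefficients) has a full basis of rational solutions: two solutions in `𝔽_p(x)` that
are linearly independent over the field of constants of the derivation `d/dx`. -/
def FullModP (b : Fin 3 → ℤ[X]) (p : ℕ) [Fact p.Prime] : Prop :=
  ∃ D : Derivation ℤ (RatFunc (ZMod p)) (RatFunc (ZMod p)),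
    D (RatFunc.X : RatFunc (ZMod p)) = 1 ∧
    ∃ y : Fin 2 → RatFunc (ZMod p),
      (∀ j : Fin 2, ∑ i : Fin 3,
        Polynomial.aeval (RatFunc.X : RatFunc (ZMod p)) (b i) * (⇑D)^[(i : ℕ)] (y j) = 0) ∧
      ∀ c : Fin 2 → RatFunc (ZMod p), (∀ j, D (c j) = 0) →
        ∑ j : Fin 2, c j * y j = 0 → ∀ j, c j = 0

/-- The operator `b₂ ∂² + b₁ ∂ + b₀` has a full basis of algebraic solutions: two solutions in an
algebraic closure of `ℚ(x)` that are linearly independent over the field of constants. -/
def FullAlgebraic (b : Fin 3 → ℤ[X]) : Prop :=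
  ∃ D : Derivation ℤ (AlgebraicClosure (RatFunc ℚ)) (AlgebraicClosure (RatFunc ℚ)),
    D (algebraMap (RatFunc ℚ) (AlgebraicClosure (RatFunc ℚ)) RatFunc.X) = 1 ∧
    ∃ y : Fin 2 → AlgebraicClosure (RatFunc ℚ),
      (∀ j : Fin 2, ∑ i : Fin 3,
        Polynomial.aeval (algebraMap (RatFunc ℚ) (AlgebraicClosure (RatFunc ℚ)) RatFunc.X) (b i)
          * (⇑D)^[(i : ℕ)] (y j) = 0) ∧
      ∀ c : Fin 2 → AlgebraicClosure (RatFunc ℚ), (∀ j, D (c j) = 0) →
        ∑ j : Fin 2, c j * y j = 0 → ∀ j, c j = 0

section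

variable {p : ℕ} [hp : Fact p.Prime]

lemma D_poly (D : Derivation ℤ (RatFunc (ZMod p)) (RatFunc (ZMod p)))
    (hD : D (RatFunc.X : RatFunc (ZMod p)) = 1) (f : (ZMod p)[X]) :
    D ((algebraMap (Polynomial (ZMod p)) (RatFunc (ZMod p))) f) = (algebraMap (Polynomial (ZMod p)) (RatFunc (ZMod p))) (derivative f) := by
  induction f using Polynomial.induction_on' with
  | add f g hf hg => rw [map_add, map_add, derivative_add, map_add, hf, hg]
  | monomial n a =>
    rw [← C_mul_X_pow_eq_monomial, map_mul, map_pow, RatFunc.algebraMap_X, derivative_mul,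
      derivative_C, zero_mul, zero_add, derivative_X_pow, Derivation.leibniz,
      Derivation.leibniz_pow, hD]
    have h1 : (algebraMap (Polynomial (ZMod p)) (RatFunc (ZMod p))) (C a) = ((ZMod.val a : ℕ) : RatFunc (ZMod p)) := by
      have h2 : (C a : (ZMod p)[X]) = ((ZMod.val a : ℕ) : (ZMod p)[X]) := by
        conv_lhs => rw [← ZMod.natCast_zmod_val a]
        exact Polynomial.C_eq_natCast _
      rw [h2, map_natCast]
    rw [h1, Derivation.map_natCast, ← h1]
    simp [RatFunc.algebraMap_X]

lemma aeval_eq (b : ℤ[X]) : Polynomial.aeval (RatFunc.X : RatFunc (ZMod p)) b =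
    (algebraMap (Polynomial (ZMod p)) (RatFunc (ZMod p))) (b.map (Int.castRingHom (ZMod p))) := by
  rw [aeval_def, ← RatFunc.algebraMap_X, Polynomial.map, hom_eval₂]
  congr 1

theorem exists_sol {b : Fin 3 → ℤ[X]} (h : FullModP b p) :
    ∃ f g : (ZMod p)[X],
      Sol ((b 2).map (Int.castRingHom (ZMod p))) ((b 1).map (Int.castRingHom (ZMod p)))
        ((b 0).map (Int.castRingHom (ZMod p))) f ∧
      Sol ((b 2).map (Int.castRingHom (ZMod p))) ((b 1).map (Int.castRingHom (ZMod p)))
        ((b 0).map (Int.castRingHom (ZMod p))) g ∧ Wr f g ≠ 0 := by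
  obtain ⟨D, hD, y, hy, hind⟩ := h
  have hder := D_poly D hD
  have hinj : Function.Injective (algebraMap (Polynomial (ZMod p)) (RatFunc (ZMod p))) := RatFunc.algebraMap_injective (ZMod p)
  have key : ∀ j : Fin 2, ∃ (f : (ZMod p)[X]) (e : RatFunc (ZMod p)), e ≠ 0 ∧ D e = 0 ∧
      (algebraMap (Polynomial (ZMod p)) (RatFunc (ZMod p))) f = e * y j ∧
      Sol ((b 2).map (Int.castRingHom (ZMod p))) ((b 1).map (Int.castRingHom (ZMod p)))
        ((b 0).map (Int.castRingHom (ZMod p))) f := by
    intro j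
    set d := (y j).denom with hd
    set n := (y j).num with hn
    have hd0 : d ≠ 0 := RatFunc.denom_ne_zero _
    have hfd_ : (algebraMap (Polynomial (ZMod p)) (RatFunc (ZMod p))) d ≠ 0 := fun h0 => hd0 (hinj (by rw [h0, map_zero]))
    have hyj : y j = (algebraMap (Polynomial (ZMod p)) (RatFunc (ZMod p))) n / (algebraMap (Polynomial (ZMod p)) (RatFunc (ZMod p))) d := (RatFunc.num_div_denom (y j)).symm
    have he : D ((algebraMap (Polynomial (ZMod p)) (RatFunc (ZMod p))) (d ^ p)) = 0 := by
      rw [hder, der_pow_p p, map_zero]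
    have hf : (algebraMap (Polynomial (ZMod p)) (RatFunc (ZMod p))) (d ^ (p - 1) * n) = (algebraMap (Polynomial (ZMod p)) (RatFunc (ZMod p))) (d ^ p) * y j := by
      have hp1 : (algebraMap (Polynomial (ZMod p)) (RatFunc (ZMod p))) d ^ p = (algebraMap (Polynomial (ZMod p)) (RatFunc (ZMod p))) d ^ (p - 1) * (algebraMap (Polynomial (ZMod p)) (RatFunc (ZMod p))) d := by
        rw [← pow_succ, Nat.sub_add_cancel hp.out.pos]
      rw [map_mul, map_pow, map_pow, hp1, hyj]
      field_simp
    have he0 : (algebraMap (Polynomial (ZMod p)) (RatFunc (ZMod p))) (d ^ p) ≠ 0 := by rw [map_pow]; exact pow_ne_zero _ hfd_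
    generalize d ^ (p - 1) * n = F at hf
    generalize (algebraMap (Polynomial (ZMod p)) (RatFunc (ZMod p))) (d ^ p) = e at he hf he0
    refine ⟨F, e, he0, he, hf, ?_⟩
    · unfold Sol
      apply hinj
      have h1 := hy j
      rw [Fin.sum_univ_three] at h1
      simp only [Fin.val_zero, Fin.val_one, Fin.val_two, Function.iterate_zero, id_eq,
        Function.iterate_one, aeval_eq] at h1
      have h2 : (⇑D)^[2] (y j) = D (D (y j)) := rfl
      rw [h2] at h1
      rw [map_add, map_add, map_mul, map_mul, map_mul, map_zero, ← hder, ← hder, hf,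
        Derivation.leibniz, he, smul_zero, add_zero, smul_eq_mul, Derivation.leibniz, he,
        smul_zero, add_zero, smul_eq_mul]
      linear_combination e * h1
  obtain ⟨f, e, he0, heD, hf, hSf⟩ := key 0
  obtain ⟨g, e', he0', heD', hg, hSg⟩ := key 1
  refine ⟨f, g, hSf, hSg, ?_⟩
  intro hW
  have hy0 : y 0 ≠ 0 := by
    intro h0
    have := hind ![1, 0] (by intro j; fin_cases j <;> simp) (by simp [h0]) 0
    simp at this
  have hf0 : (algebraMap (Polynomial (ZMod p)) (RatFunc (ZMod p))) f ≠ 0 := by rw [hf]; exact mul_ne_zero he0 hy0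
  set κ := (algebraMap (Polynomial (ZMod p)) (RatFunc (ZMod p))) g / (algebraMap (Polynomial (ZMod p)) (RatFunc (ZMod p))) f with hκ
  have hκf : κ * (algebraMap (Polynomial (ZMod p)) (RatFunc (ZMod p))) f = (algebraMap (Polynomial (ZMod p)) (RatFunc (ZMod p))) g := div_mul_cancel₀ _ hf0
  have hW' : (algebraMap (Polynomial (ZMod p)) (RatFunc (ZMod p))) f * (algebraMap (Polynomial (ZMod p)) (RatFunc (ZMod p))) (derivative g) - (algebraMap (Polynomial (ZMod p)) (RatFunc (ZMod p))) (derivative f) * (algebraMap (Polynomial (ZMod p)) (RatFunc (ZMod p))) g = 0 := by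
    rw [← map_mul, ← map_mul, ← map_sub]
    have : f * derivative g - derivative f * g = 0 := hW
    rw [this, map_zero]
  have hDκ : D κ = 0 := by
    have h1 : D (κ * (algebraMap (Polynomial (ZMod p)) (RatFunc (ZMod p))) f) = (algebraMap (Polynomial (ZMod p)) (RatFunc (ZMod p))) (derivative g) := by rw [hκf, hder]
    rw [Derivation.leibniz, hder, smul_eq_mul, smul_eq_mul] at h1
    have h2 : ((algebraMap (Polynomial (ZMod p)) (RatFunc (ZMod p))) f * (algebraMap (Polynomial (ZMod p)) (RatFunc (ZMod p))) f) * D κ = 0 := by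
      have h3 : (algebraMap (Polynomial (ZMod p)) (RatFunc (ZMod p))) (derivative f) * (κ * (algebraMap (Polynomial (ZMod p)) (RatFunc (ZMod p))) f) = (algebraMap (Polynomial (ZMod p)) (RatFunc (ZMod p))) (derivative f) * (algebraMap (Polynomial (ZMod p)) (RatFunc (ZMod p))) g := by rw [hκf]
      linear_combination ((algebraMap (Polynomial (ZMod p)) (RatFunc (ZMod p))) f) * h1 + hW' - h3
    rcases mul_eq_zero.1 h2 with h3 | h3
    · rcases mul_eq_zero.1 h3 with h4 | h4 <;> exact absurd h4 hf0
    · exact h3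
  have hrel : (-(κ * e)) * y 0 + e' * y 1 = 0 := by
    have : κ * (e * y 0) = e' * y 1 := by rw [← hf, ← hg, hκf]
    linear_combination -this
  have := hind ![-(κ * e), e'] (by
    intro j
    fin_cases j
    · simp [Derivation.leibniz, hDκ, heD]
    · simpa using heD') (by rw [Fin.sum_univ_two]; simpa using hrel) 1
  exact he0' (by simpa using this)

end

end H921PC
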