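import Pool.Agent.H921PC.Deg

set_option autoImplicit false
set_option linter.unusedSectionVars false

/-!
Linear differential systems `P Y' = B Y` over a finite prime field: polynomial fundamental
matrices of minimal degree. Rows of the matrices are solutions.
-/

namespace H921PC

open Polynomial Finset

variable {K : Type*} [Field K] {r : ℕ}

/-- `h` is a polynomial vector solution of `P h' = B h` -/
def VSol (P : K[X]) (B : Matrix (Fin r) (Fin r) K[X]) (h : Fin r → K[X]) : Prop :=
  ∀ i, P * derivative (h i) = ∑ l, B i l * h l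

/-- degree of a vector -/
noncomputable def vdeg (h : Fin r → K[X]) : ℕ := univ.sup fun i => (h i).natDegree

lemma le_vdeg (h : Fin r → K[X]) (i : Fin r) : (h i).natDegree ≤ vdeg h :=
  Finset.le_sup (f := fun i => (h i).natDegree) (Finset.mem_univ i)

lemma vdeg_le {h : Fin r → K[X]} {n : ℕ} (hn : ∀ i, (h i).natDegree ≤ n) : vdeg h ≤ n :=
  Finset.sup_le fun i _ => hn i

lemma VSol.smul_const {P : K[X]} {B : Matrix (Fin r) (Fin r) K[X]} {h : Fin r → K[X]} {a : K[X]}
    (hh : VSol P B h) (ha : derivative a = 0) : VSol P B (a • h) := by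
  intro i
  simp only [Pi.smul_apply, smul_eq_mul, derivative_mul, ha, zero_mul, zero_add]
  have h1 := hh i
  calc P * (a * derivative (h i)) = a * (P * derivative (h i)) := by ring
    _ = a * ∑ l, B i l * h l := by rw [h1]
    _ = ∑ l, B i l * (a * h l) := by
      rw [Finset.mul_sum]; exact Finset.sum_congr rfl fun l _ => by ring

lemma VSol.of_smul {P : K[X]} {B : Matrix (Fin r) (Fin r) K[X]} {h : Fin r → K[X]} {a : K[X]}
    (hh : VSol P B (a • h)) (ha : derivative a = 0) (ha0 : a ≠ 0) : VSol P B h := by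
  intro i
  have h1 := hh i
  simp only [Pi.smul_apply, smul_eq_mul, derivative_mul, ha, zero_mul, zero_add] at h1
  apply mul_left_cancel₀ ha0
  calc a * (P * derivative (h i)) = P * (a * derivative (h i)) := by ring
    _ = ∑ l, B i l * (a * h l) := h1
    _ = a * ∑ l, B i l * h l := by
      rw [Finset.mul_sum]; exact Finset.sum_congr rfl fun l _ => by ring

lemma VSol.add {P : K[X]} {B : Matrix (Fin r) (Fin r) K[X]} {h g : Fin r → K[X]}
    (hh : VSol P B h) (hg : VSol P B g) : VSol P B (h + g) := by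
  intro i
  simp only [Pi.add_apply, derivative_add, mul_add, Finset.sum_add_distrib]
  rw [hh i, hg i]

lemma VSol.zero (P : K[X]) (B : Matrix (Fin r) (Fin r) K[X]) : VSol P B 0 := by
  intro i; simp

lemma VSol.sum {P : K[X]} {B : Matrix (Fin r) (Fin r) K[X]} {M : Fin r → Fin r → K[X]}
    {a : Fin r → K[X]} (hM : ∀ j, VSol P B (M j)) (ha : ∀ j, derivative (a j) = 0) :
    VSol P B (∑ j, a j • M j) := by
  classical
  have : ∀ s : Finset (Fin r), VSol P B (∑ j ∈ s, a j • M j) := by
    intro s
    induction s using Finset.induction_on with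
    | empty => simpa using VSol.zero P B
    | insert j s hj ih =>
      rw [Finset.sum_insert hj]
      exact ((hM j).smul_const (ha j)).add ih
  exact this univ

/-- fundamental matrix of minimal total degree -/
def MinM (P : K[X]) (B M : Matrix (Fin r) (Fin r) K[X]) : Prop :=
  (∀ j, VSol P B (M j)) ∧ M.det ≠ 0 ∧
    ∀ M' : Matrix (Fin r) (Fin r) K[X], (∀ j, VSol P B (M' j)) → M'.det ≠ 0 →
      ∑ j, vdeg (M j) ≤ ∑ j, vdeg (M' j)

lemma exists_minM {P : K[X]} {B M : Matrix (Fin r) (Fin r) K[X]} (h1 : ∀ j, VSol P B (M j))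
    (h2 : M.det ≠ 0) : ∃ M', MinM P B M' := by
  classical
  have hex : ∃ n : ℕ, ∃ M' : Matrix (Fin r) (Fin r) K[X], (∀ j, VSol P B (M' j)) ∧ M'.det ≠ 0 ∧
      ∑ j, vdeg (M' j) = n := ⟨_, M, h1, h2, rfl⟩
  obtain ⟨M', h3, h4, h5⟩ := Nat.find_spec hex
  refine ⟨M', h3, h4, ?_⟩
  intro M'' h6 h7
  rw [h5]
  exact Nat.find_min' hex ⟨M'', h6, h7, rfl⟩

lemma MinM.le {P : K[X]} {B M : Matrix (Fin r) (Fin r) K[X]} (hM : MinM P B M)
    {g : Fin r → K[X]} {c : K[X]} {a : Fin r → K[X]} (hc : derivative c = 0) (hc0 : c ≠ 0)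
    (ha : ∀ j, derivative (a j) = 0) (heq : c • g = ∑ j, a j • M j) {j0 : Fin r}
    (hj0 : a j0 ≠ 0) : vdeg (M j0) ≤ vdeg g ∧ g ≠ 0 := by
  classical
  obtain ⟨h1, h2, h3⟩ := hM
  have hg : VSol P B g := by
    apply VSol.of_smul _ hc hc0
    rw [heq]
    exact VSol.sum h1 ha
  set M' := M.updateRow j0 g with hM'
  have hdet : c * M'.det = a j0 * M.det := by
    rw [hM', ← Matrix.det_updateRow_smul, heq, Matrix.det_updateRow_sum, smul_eq_mul]
  have hdet0 : M'.det ≠ 0 := by
    intro h0
    rw [h0, mul_zero] at hdet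
    rcases mul_eq_zero.1 hdet.symm with h | h
    · exact hj0 h
    · exact h2 h
  have hrow0 : M' j0 = g := by rw [hM']; exact Matrix.updateRow_self
  have hrow : ∀ j, j ≠ j0 → M' j = M j := fun j hj => by
    rw [hM']; exact Matrix.updateRow_ne hj
  have hsol : ∀ j, VSol P B (M' j) := by
    intro j
    by_cases hj : j = j0
    · rw [hj, hrow0]; exact hg
    · rw [hrow j hj]; exact h1 j
  have h4 := h3 M' hsol hdet0
  rw [← Finset.add_sum_erase _ _ (Finset.mem_univ j0),
    ← Finset.add_sum_erase (a := j0) univ (fun j => vdeg (M' j)) (Finset.mem_univ j0), hrow0] at h4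
  have h5 : ∑ j ∈ univ.erase j0, vdeg (M' j) = ∑ j ∈ univ.erase j0, vdeg (M j) := by
    apply Finset.sum_congr rfl
    intro j hj
    rw [hrow j (Finset.ne_of_mem_erase hj)]
  rw [h5] at h4
  refine ⟨by omega, ?_⟩
  intro hg0
  apply hdet0
  exact Matrix.det_eq_zero_of_row_eq_zero j0 (fun i => by rw [hrow0, hg0]; rfl)

section CharP

variable (p : ℕ) [hp : Fact p.Prime] [CharP K p]

lemma MinM.nodep {P π : K[X]} {B M : Matrix (Fin r) (Fin r) K[X]} (hM : MinM P B M)
    (hπ : Irreducible π) {α : Fin r → K[X]} (hdeg : ∀ j, (α j).natDegree < π.natDegree)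
    {j1 : Fin r} (hj1 : α j1 ≠ 0) {g : Fin r → K[X]}
    (heq : π ^ p • g = ∑ j, (α j) ^ p • M j) : False := by
  classical
  obtain ⟨j0, hj0, hmax⟩ := Finset.exists_max_image (univ.filter fun j => α j ≠ 0)
    (fun j => vdeg (M j)) ⟨j1, by simp [hj1]⟩
  simp only [Finset.mem_filter, Finset.mem_univ, true_and] at hj0 hmax
  have hπ0 : π ^ p ≠ 0 := pow_ne_zero _ hπ.ne_zero
  obtain ⟨h1, h2⟩ := hM.le (der_pow_p p π) hπ0 (fun j => der_pow_p p (α j)) heq
    (j0 := j0) (pow_ne_zero _ hj0)
  set V := vdeg (M j0) with hV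
  have hpp := hp.out.pos
  have hππ := hπ.natDegree_pos
  have hentry : ∀ i, (π ^ p * g i).natDegree ≤ p * (π.natDegree - 1) + V := by
    intro i
    have h3 : π ^ p * g i = ∑ j, (α j) ^ p * M j i := by
      have := congrFun heq i
      simpa [Finset.sum_apply] using this
    rw [h3]
    apply natDegree_sum_le_of_forall_le
    intro j _
    by_cases hj : α j = 0
    · rw [hj, zero_pow hp.out.ne_zero, zero_mul]; simp
    · refine natDegree_mul_le.trans (Nat.add_le_add ?_ ?_)
      · refine natDegree_pow_le.trans (Nat.mul_le_mul_left p ?_)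
        have := hdeg j
        omega
      · exact (le_vdeg (M j) i).trans (hmax j hj)
  have hmul : p * (π.natDegree - 1) + p = p * π.natDegree := by
    conv_rhs => rw [← Nat.sub_add_cancel hππ]
    rw [mul_add]; simp
  have hgi : ∀ i, g i ≠ 0 → (g i).natDegree + p ≤ V := by
    intro i hi
    have h3 := hentry i
    rw [natDegree_mul hπ0 hi, natDegree_pow] at h3
    omega
  obtain ⟨i0, hi0⟩ := Function.ne_iff.1 h2
  have hi1 := hgi i0 hi0
  have h4 : vdeg g ≤ V - p := by
    apply vdeg_le
    intro i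
    by_cases hi : g i = 0
    · rw [hi]; simp
    · have := hgi i hi; omega
  omega

lemma ordv {P π : K[X]} {B : Matrix (Fin r) (Fin r) K[X]} {h : Fin r → K[X]} (hh : VSol P B h)
    (hπ : Irreducible π) (hπ' : ¬ π ∣ derivative π) (hP : ¬ π ∣ P) (hdvd : ∀ i, π ∣ h i) :
    ∀ i, π ^ p ∣ h i := by
  have key : ∀ m : ℕ, 1 ≤ m → m ≤ p → ∀ i, π ^ m ∣ h i := by
    intro m
    induction m with
    | zero => intro h0; omega
    | succ m ih =>
      intro _ hm i
      rcases Nat.eq_zero_or_pos m with h0 | h0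
      · subst h0; simpa using hdvd i
      have ih' := ih h0 (by omega)
      choose g hg using ih'
      obtain ⟨s, rfl⟩ : ∃ s, m = s + 1 := ⟨m - 1, by omega⟩
      have h1 := hh i
      have h2 : π ^ s * (P * (C ((s + 1 : ℕ) : K) * (derivative π * g i))) =
          π ^ s * (π * ((∑ l, B i l * g l) - P * derivative (g i))) := by
        have h3 : derivative (h i) = C ((s + 1 : ℕ) : K) * (π ^ s * (derivative π * g i)) +
            π ^ (s + 1) * derivative (g i) := by
          rw [hg i, derivative_mul, derivative_pow_succ]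
          simp only [Nat.cast_add, Nat.cast_one, map_add, map_natCast, map_one]
          ring
        have h4 : ∑ l, B i l * h l = π ^ (s + 1) * ∑ l, B i l * g l := by
          rw [Finset.mul_sum]
          exact Finset.sum_congr rfl fun l _ => by rw [hg l]; ring
        rw [h3, h4] at h1
        linear_combination h1
      have h5 := mul_left_cancel₀ (pow_ne_zero s hπ.ne_zero) h2
      have h6 : π ∣ P * (C ((s + 1 : ℕ) : K) * (derivative π * g i)) := ⟨_, h5⟩
      have hc : ((s + 1 : ℕ) : K) ≠ 0 := by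
        intro h7
        rw [CharP.cast_eq_zero_iff K p] at h7
        exact absurd (Nat.le_of_dvd (Nat.succ_pos s) h7) (by omega)
      rcases hπ.prime.dvd_or_dvd h6 with h7 | h7
      · exact absurd h7 hP
      rcases hπ.prime.dvd_or_dvd h7 with h8 | h8
      · exact absurd (isUnit_of_dvd_unit h8 (isUnit_C.2 (isUnit_iff_ne_zero.2 hc))) hπ.not_isUnit
      rcases hπ.prime.dvd_or_dvd h8 with h9 | h9
      · exact absurd h9 hπ'
      · rw [hg i, pow_succ π (s + 1)]
        exact mul_dvd_mul_left _ h9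
  exact key p hp.out.one_lt.le le_rfl

variable [Finite K]

include hp in
lemma MinM.ord {P π : K[X]} {B M : Matrix (Fin r) (Fin r) K[X]} (hM : MinM P B M)
    (hπ : Irreducible π) (hP : ¬ π ∣ P) : ¬ π ∣ M.det := by
  classical
  intro hdvd
  have hπ' := irr_not_dvd_der hπ
  haveI : Fact (Irreducible π) := ⟨hπ⟩
  haveI : Module.Finite K (AdjoinRoot π) := (AdjoinRoot.powerBasis hπ.ne_zero).finite
  haveI : Finite (AdjoinRoot π) := Module.finite_of_finite K
  haveI : CharP (AdjoinRoot π) p := charP_of_injective_algebraMap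
    (algebraMap K (AdjoinRoot π)).injective p
  have hsurj : Function.Surjective (fun x : AdjoinRoot π => x ^ p) := by
    apply Finite.surjective_of_injective
    intro x y hxy
    have h1 : (x - y) ^ p = 0 := by
      rw [sub_pow_char]
      simpa [sub_eq_zero] using hxy
    exact sub_eq_zero.1 ((pow_eq_zero_iff (hp.out.ne_zero)).1 h1)
  set ρ := AdjoinRoot.mk π with hρ
  have hdet0 : (ρ.mapMatrix M).det = 0 := by
    rw [← RingHom.map_det]
    exact AdjoinRoot.mk_eq_zero.2 hdvd
  obtain ⟨v, hv0, hv⟩ := Matrix.exists_vecMul_eq_zero_iff.2 hdet0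
  choose β hβ using fun j => hsurj (v j)
  choose γ hγ using fun j => AdjoinRoot.mk_surjective (g := π) (β j)
  set α : Fin r → K[X] := fun j => γ j % π with hα
  have hmod : ∀ j, ρ (α j) = β j := by
    intro j
    have h1 : γ j % π = γ j - π * (γ j / π) := by
      have := EuclideanDomain.div_add_mod (γ j) π
      linear_combination this
    rw [hα]
    simp only
    rw [h1, map_sub, map_mul, hρ, AdjoinRoot.mk_self, zero_mul, sub_zero]
    exact hγ j
  obtain ⟨j1, hj1⟩ := Function.ne_iff.1 hv0
  have hα1 : α j1 ≠ 0 := by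
    intro h0
    have h1 := hmod j1
    rw [h0, map_zero] at h1
    have h2 := hβ j1
    rw [← h1] at h2
    simp only at h2
    rw [zero_pow hp.out.ne_zero] at h2
    exact hj1 h2.symm
  have hπdeg : π.natDegree ≠ 0 := hπ.natDegree_pos.ne'
  have hdeg : ∀ j, (α j).natDegree < π.natDegree := fun j => natDegree_mod_lt _ hπdeg
  have hsol : VSol P B (∑ j, (α j) ^ p • M j) := VSol.sum hM.1 (fun j => der_pow_p p (α j))
  have hd1 : ∀ i, π ∣ (∑ j, (α j) ^ p • M j) i := by
    intro i
    rw [← AdjoinRoot.mk_eq_zero, ← hρ]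
    simp only [Finset.sum_apply, Pi.smul_apply, smul_eq_mul, map_sum, map_mul, map_pow, hmod]
    have h1 := congrFun hv i
    simp only [Matrix.vecMul, dotProduct, RingHom.mapMatrix_apply, Matrix.map_apply,
      Pi.zero_apply] at h1
    rw [← h1]
    apply Finset.sum_congr rfl
    intro j _
    rw [← hβ j]
  have hd2 := ordv p hsol hπ hπ' hP hd1
  choose g hg using hd2
  apply hM.nodep p hπ hdeg hα1 (g := g)
  funext i
  rw [hg i]
  rfl

end CharP

end H921PC
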