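import Pool.Agent.H921PC.Sys1

set_option autoImplicit false
set_option linter.unusedSectionVars false

namespace H921PC

open Polynomial Finset

section LinAlg

variable {K : Type*} [Field K] {r : ℕ}

/-- linearly dependent eigenvectors are dependent inside one eigenspace -/
lemma supp {A U : Matrix (Fin r) (Fin r) K} {lam : Fin r → K}
    (heig : ∀ j, A.mulVec (U j) = lam j • U j) (hdet : U.det = 0) :
    ∃ (c : Fin r → K) (j0 : Fin r), c j0 ≠ 0 ∧ (∀ j, c j ≠ 0 → lam j = lam j0) ∧
      ∀ i, ∑ j, c j * U j i = 0 := by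
  classical
  obtain ⟨v, hv0, hv⟩ := Matrix.exists_vecMul_eq_zero_iff.2 hdet
  have hv' : ∀ i, ∑ j, v j * U j i = 0 := by
    intro i
    have := congrFun hv i
    simpa [Matrix.vecMul, dotProduct] using this
  have hex : ∃ n : ℕ, ∃ c : Fin r → K, c ≠ 0 ∧ (∀ i, ∑ j, c j * U j i = 0) ∧
      (univ.filter fun j => c j ≠ 0).card = n := ⟨_, v, hv0, hv', rfl⟩
  obtain ⟨c, hc0, hc, hcard⟩ := Nat.find_spec hex
  obtain ⟨j0, hj0⟩ := Function.ne_iff.1 hc0
  refine ⟨c, j0, hj0, ?_, hc⟩
  intro j hj
  by_contra hne
  set c' : Fin r → K := fun j => c j * (lam j - lam j0) with hc'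
  have h1 : ∀ i, ∑ j, c' j * U j i = 0 := by
    intro i
    have h2 : ∑ j, c j * (lam j * U j i) = 0 := by
      have h3 : ∀ j, lam j * U j i = ∑ l, A i l * U j l := by
        intro j
        have := congrFun (heig j) i
        simp only [Matrix.mulVec, dotProduct, Pi.smul_apply, smul_eq_mul] at this
        exact this.symm
      calc ∑ j, c j * (lam j * U j i) = ∑ j, ∑ l, A i l * (c j * U j l) := by
            apply Finset.sum_congr rfl; intro j _
            rw [h3, Finset.mul_sum]
            exact Finset.sum_congr rfl fun l _ => by ring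
        _ = ∑ l, A i l * ∑ j, c j * U j l := by
            rw [Finset.sum_comm]
            exact Finset.sum_congr rfl fun l _ => by rw [Finset.mul_sum]
        _ = 0 := by simp [hc]
    calc ∑ j, c' j * U j i = ∑ j, c j * (lam j * U j i) - lam j0 * ∑ j, c j * U j i := by
          rw [Finset.mul_sum, ← Finset.sum_sub_distrib]
          exact Finset.sum_congr rfl fun j _ => by rw [hc']; ring
      _ = 0 := by rw [h2, hc i]; ring
  have h2 : c' ≠ 0 := by
    intro h0
    have h3 := congrFun h0 j
    rw [hc'] at h3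
    rcases mul_eq_zero.1 h3 with h4 | h4
    · exact hj h4
    · exact hne (sub_eq_zero.1 h4)
  have h3 : (univ.filter fun j => c' j ≠ 0).card < (univ.filter fun j => c j ≠ 0).card := by
    apply Finset.card_lt_card
    rw [Finset.ssubset_iff_of_subset]
    · refine ⟨j0, by simpa using hj0, ?_⟩
      simp [hc']
    · intro l hl
      simp only [Finset.mem_filter, Finset.mem_univ, true_and] at hl ⊢
      exact left_ne_zero_of_mul hl
  rw [hcard] at h3
  exact Nat.find_min hex h3 ⟨c', h2, h1, rfl⟩

lemma charpoly_of_eig {A U : Matrix (Fin r) (Fin r) K} {lam : Fin r → K}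
    (heig : ∀ j, A.mulVec (U j) = lam j • U j) (hdet : U.det ≠ 0) :
    A.charpoly = ∏ j, (X - C (lam j)) := by
  classical
  have h1 : A * U.transpose = U.transpose * Matrix.diagonal lam := by
    ext i j
    rw [Matrix.mul_diagonal, Matrix.mul_apply]
    have := congrFun (heig j) i
    simp only [Matrix.mulVec, dotProduct, Pi.smul_apply, smul_eq_mul] at this
    simp only [Matrix.transpose_apply]
    rw [this]; ring
  have hu : IsUnit U.transpose := by
    rw [Matrix.isUnit_iff_isUnit_det, Matrix.det_transpose]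
    exact isUnit_iff_ne_zero.2 hdet
  obtain ⟨W, hW⟩ := hu
  have h2 : A = W.val * Matrix.diagonal lam * W⁻¹.val := by
    rw [hW, ← h1, mul_assoc, ← hW]
    simp
  rw [h2, Matrix.coe_units_inv, Matrix.charpoly_units_conj, Matrix.charpoly_diagonal]

lemma coeff_prod' {ι : Type*} (s : Finset ι) (f : ι → K[X]) (n : ι → ℕ)
    (h : ∀ i ∈ s, (f i).natDegree ≤ n i) :
    (∏ i ∈ s, f i).coeff (∑ i ∈ s, n i) = ∏ i ∈ s, (f i).coeff (n i) := by
  classical
  induction s using Finset.induction_on with
  | empty => simp
  | insert j s hj ih =>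
    rw [Finset.prod_insert hj, Finset.sum_insert hj, Finset.prod_insert hj,
      coeff_mul_add_eq_of_natDegree_le (h j (Finset.mem_insert_self _ _)), ih]
    · intro i hi; exact h i (Finset.mem_insert_of_mem hi)
    · refine (natDegree_prod_le _ _).trans (Finset.sum_le_sum ?_)
      intro i hi; exact h i (Finset.mem_insert_of_mem hi)

lemma coeff_det {M : Matrix (Fin r) (Fin r) K[X]} {n : Fin r → ℕ}
    (h : ∀ j i, (M j i).natDegree ≤ n j) :
    M.det.coeff (∑ j, n j) = (Matrix.of fun j i => (M j i).coeff (n j)).det := by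
  classical
  rw [Matrix.det_apply', Matrix.det_apply', finset_sum_coeff]
  apply Finset.sum_congr rfl
  intro σ _
  have h1 : ∑ j, n j = ∑ i, n (σ i) := (Equiv.sum_comp σ n).symm
  have h2 : (((Equiv.Perm.sign σ : ℤ) : K[X])) = C (((Equiv.Perm.sign σ : ℤ) : K)) := by simp
  rw [h2, coeff_C_mul, h1, coeff_prod' univ (fun i => M (σ i) i) (fun i => n (σ i))
    (fun i _ => h _ _)]
  rfl

end LinAlg

section

variable {r : ℕ} {p : ℕ} [hp : Fact p.Prime]

/-- leading behaviour at infinity -/
lemma MinM.inf {P : (ZMod p)[X]} {B M : Matrix (Fin r) (Fin r) (ZMod p)[X]} (hM : MinM P B M)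
    {k : ℕ} (hk : 1 ≤ k) (hP : P.natDegree ≤ k) (hPk : P.coeff k = 1)
    (hB : ∀ i l, (B i l).natDegree ≤ k - 1) {s : ZMod p} (A : Matrix (Fin r) (Fin r) (ZMod p))
    (hA : ∀ i l, s * (B i l).coeff (k - 1) = A i l) :
    A.charpoly = ∏ j, (X - C (s * ((vdeg (M j) : ℕ) : ZMod p))) ∧
      ∑ j, vdeg (M j) ≤ M.det.natDegree := by
  classical
  set d : Fin r → ℕ := fun j => vdeg (M j) with hd
  set U : Matrix (Fin r) (Fin r) (ZMod p) := Matrix.of fun j i => (M j i).coeff (d j) with hU
  have heig0 : ∀ j i, ∑ l, (B i l).coeff (k - 1) * U j l = ((d j : ℕ) : ZMod p) * U j i := by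
    intro j i
    have h1 := hM.1 j i
    have h2 : P * (X * derivative (M j i)) = ∑ l, (X * B i l) * M j l := by
      calc P * (X * derivative (M j i)) = X * (P * derivative (M j i)) := by ring
        _ = X * ∑ l, B i l * M j l := by rw [h1]
        _ = ∑ l, (X * B i l) * M j l := by
          rw [Finset.mul_sum]; exact Finset.sum_congr rfl fun l _ => by ring
    have h3 := congrArg (fun F => coeff F (k + d j)) h2
    simp only [finset_sum_coeff] at h3
    rw [coeff_mul_add_eq_of_natDegree_le hP ((natDegree_theta _).trans (le_vdeg (M j) i)),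
      coeff_theta, hPk, one_mul] at h3
    have h4 : ∀ l, ((X * B i l) * M j l).coeff (k + d j) =
        (B i l).coeff (k - 1) * (M j l).coeff (d j) := by
      intro l
      have h5 : (X * B i l).natDegree ≤ k := by
        refine natDegree_mul_le.trans ?_
        have := hB i l
        rw [natDegree_X]; omega
      rw [coeff_mul_add_eq_of_natDegree_le h5 (le_vdeg (M j) l)]
      congr 1
      obtain ⟨m, rfl⟩ : ∃ m, k = m + 1 := ⟨k - 1, by omega⟩
      rw [coeff_X_mul, Nat.add_sub_cancel]
    rw [Finset.sum_congr rfl (fun l _ => h4 l)] at h3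
    exact h3.symm
  have heig : ∀ j, (Matrix.of fun i l => (B i l).coeff (k - 1)).mulVec (U j) =
      ((d j : ℕ) : ZMod p) • U j := by
    intro j; funext i
    simpa [Matrix.mulVec, dotProduct] using heig0 j i
  have heig' : ∀ j, A.mulVec (U j) = (s * ((d j : ℕ) : ZMod p)) • U j := by
    intro j; funext i
    simp only [Matrix.mulVec, dotProduct, Pi.smul_apply, smul_eq_mul]
    calc ∑ l, A i l * U j l = s * ∑ l, (B i l).coeff (k - 1) * U j l := by
          rw [Finset.mul_sum]; exact Finset.sum_congr rfl fun l _ => by rw [← hA]; ring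
      _ = s * ((d j : ℕ) : ZMod p) * U j i := by rw [heig0]; ring
  have hdet : U.det ≠ 0 := by
    intro h0
    obtain ⟨c, j0, hc0, hcl, hc⟩ := supp heig h0
    obtain ⟨j1, hj1, hmax⟩ := Finset.exists_max_image (univ.filter fun j => c j ≠ 0)
      d ⟨j0, by simp [hc0]⟩
    simp only [Finset.mem_filter, Finset.mem_univ, true_and] at hj1 hmax
    have hm : ∀ j, ∃ m : ℕ, c j ≠ 0 → d j1 = m * p + d j := by
      intro j
      by_cases hj : c j = 0
      · exact ⟨0, fun h => absurd hj h⟩
      · have h1 : ((d j : ℕ) : ZMod p) = ((d j1 : ℕ) : ZMod p) := by rw [hcl j hj, hcl j1 hj1]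
        rw [CharP.natCast_eq_natCast (ZMod p) p] at h1
        obtain ⟨m, hm⟩ := (Nat.modEq_iff_dvd' (hmax j hj)).1 h1
        refine ⟨m, fun _ => ?_⟩
        have := hmax j hj
        rw [mul_comm m p, ← hm]; omega
    choose m hm using hm
    set a : Fin r → (ZMod p)[X] := fun j => C (c j) * (X ^ m j) ^ p with ha
    have hda : ∀ j, derivative (a j) = 0 := by
      intro j
      rw [ha]
      simp only
      rw [derivative_mul, der_pow_p p, derivative_C]; simp
    set g : Fin r → (ZMod p)[X] := ∑ j, a j • M j with hg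
    obtain ⟨h1, h2⟩ := hM.le (c := 1) (g := g) derivative_one one_ne_zero hda (one_smul _ _)
      (j0 := j1) (by
        rw [ha]
        exact mul_ne_zero (by rwa [Ne, C_eq_zero]) (pow_ne_zero _ (pow_ne_zero _ X_ne_zero)))
    have hgi : ∀ i, (g i).natDegree ≤ d j1 ∧ (g i).coeff (d j1) = 0 := by
      intro i
      have h3 : g i = ∑ j, a j * M j i := by rw [hg]; simp [Finset.sum_apply]
      constructor
      · rw [h3]
        apply natDegree_sum_le_of_forall_le
        intro j _
        by_cases hj : c j = 0
        · rw [ha]; simp [hj]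
        · refine natDegree_mul_le.trans ?_
          have h4 : (a j).natDegree ≤ m j * p := by
            rw [ha]
            simp only
            rw [← pow_mul]
            exact natDegree_C_mul_X_pow_le _ _
          have h5 := hm j hj
          have h6 := le_vdeg (M j) i
          have h7 : vdeg (M j) = d j := rfl
          omega
      · rw [h3, finset_sum_coeff, ← hc i]
        apply Finset.sum_congr rfl
        intro j _
        by_cases hj : c j = 0
        · rw [ha]; simp [hj]
        · rw [ha]
          simp only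
          rw [← pow_mul, mul_assoc, coeff_C_mul, hm j hj, add_comm, coeff_X_pow_mul]
          rfl
    obtain ⟨i0, hi0⟩ := Function.ne_iff.1 h2
    have hlt : ∀ i, g i ≠ 0 → (g i).natDegree < d j1 := by
      intro i hi
      refine lt_of_le_of_ne (hgi i).1 ?_
      intro he
      have := (hgi i).2
      rw [← he] at this
      exact hi (leadingCoeff_eq_zero.1 this)
    have hpos := hlt i0 hi0
    have h5 : vdeg g ≤ d j1 - 1 := by
      apply vdeg_le
      intro i
      by_cases hi : g i = 0
      · rw [hi]; simp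
      · have := hlt i hi; omega
    have h6 : vdeg (M j1) = d j1 := rfl
    omega
  refine ⟨charpoly_of_eig heig' hdet, ?_⟩
  apply le_natDegree_of_ne_zero
  rw [coeff_det (fun j i => le_vdeg (M j) i)]
  exact hdet

end

end H921PC
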