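import Pool.Agent.H921PC.Sys2

set_option autoImplicit false
set_option linter.unusedSectionVars false

namespace H921PC

open Polynomial Finset

section

variable {r : ℕ} {p : ℕ} [hp : Fact p.Prime]

/-- a factorisation of an invertible constant combination of the rows of `M` at `x0` -/
def Adapt (M : Matrix (Fin r) (Fin r) (ZMod p)[X]) (x0 : ZMod p)
    (E : Matrix (Fin r) (Fin r) (ZMod p)) (v : Fin r → ℕ)
    (u : Matrix (Fin r) (Fin r) (ZMod p)[X]) : Prop :=
  E.det ≠ 0 ∧ ∀ j i, (X - C x0) ^ v j * u j i = ∑ l, C (E j l) * M l i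

lemma Adapt.lt {P : (ZMod p)[X]} {B M : Matrix (Fin r) (Fin r) (ZMod p)[X]} (hM : MinM P B M)
    {x0 : ZMod p} {E : Matrix (Fin r) (Fin r) (ZMod p)} {v : Fin r → ℕ}
    {u : Matrix (Fin r) (Fin r) (ZMod p)[X]} (h : Adapt M x0 E v u) (j : Fin r) : v j < p := by
  classical
  by_contra hc
  push Not at hc
  have hrow : ∃ l, E j l ≠ 0 := by
    by_contra h0
    push Not at h0
    exact h.1 (Matrix.det_eq_zero_of_row_eq_zero j h0)
  obtain ⟨l1, hl1⟩ := hrow
  have hirr : Irreducible (X - C x0) := irreducible_X_sub_C x0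
  refine hM.nodep p hirr (α := fun l => C (E j l)) ?_ (j1 := l1) ?_
    (g := fun i => (X - C x0) ^ (v j - p) * u j i) ?_
  · intro l
    rw [natDegree_C, natDegree_X_sub_C]; exact one_pos
  · simpa using hl1
  · funext i
    have h1 := h.2 j i
    simp only [Pi.smul_apply, smul_eq_mul, Finset.sum_apply]
    rw [← mul_assoc, ← pow_add, Nat.add_sub_cancel' hc, h1]
    apply Finset.sum_congr rfl
    intro l _
    rw [← C_pow, ZMod.pow_card]

/-- the local structure at a singular point -/
lemma MinM.sing {P P1 : (ZMod p)[X]} {B M : Matrix (Fin r) (Fin r) (ZMod p)[X]}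
    (hM : MinM P B M) {x0 : ZMod p} (hP : P = (X - C x0) * P1) (hP1 : P1.eval x0 ≠ 0)
    {s : ZMod p} (A : Matrix (Fin r) (Fin r) (ZMod p))
    (hA : ∀ i l, s * (B i l).eval x0 = P1.eval x0 * A i l) :
    ∃ v : Fin r → ℕ, (∀ j, v j < p) ∧
      A.charpoly = ∏ j, (X - C (s * ((v j : ℕ) : ZMod p))) ∧
      ¬ (X - C x0) ^ (∑ j, v j + 1) ∣ M.det := by
  classical
  set π : (ZMod p)[X] := X - C x0 with hπ
  have hirr : Irreducible π := irreducible_X_sub_C x0
  -- maximal adapted data
  have hex : ∃ m : ℕ, ∃ (E : Matrix (Fin r) (Fin r) (ZMod p)) (v : Fin r → ℕ)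
      (u : Matrix (Fin r) (Fin r) (ZMod p)[X]), Adapt M x0 E v u ∧ ∑ j, v j + m = r * p := by
    refine ⟨r * p, 1, fun _ => 0, M, ⟨by simp, ?_⟩, by simp⟩
    intro j i
    rw [pow_zero, one_mul, Finset.sum_eq_single j]
    · simp
    · intro l _ hl
      rw [Matrix.one_apply_ne (Ne.symm hl), C_0, zero_mul]
    · intro h; exact absurd (Finset.mem_univ _) h
  obtain ⟨E, v, u, hEu, hsum⟩ := Nat.find_spec hex
  have hvp := fun j => hEu.lt hM j
  -- eigenvector property
  have heig0 : ∀ j i, s * ((v j : ℕ) : ZMod p) * (u j i).eval x0 =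
      ∑ l, A i l * (u j l).eval x0 := by
    intro j i
    have hsol : VSol P B (fun i => π ^ v j * u j i) := by
      have h1 : (fun i => π ^ v j * u j i) = ∑ l, (fun l => C (E j l)) l • M l := by
        funext i
        rw [hEu.2 j i]
        simp [Finset.sum_apply]
      rw [h1]
      exact VSol.sum hM.1 (fun l => derivative_C)
    have h1 := hsol i
    simp only at h1
    have hdπ : derivative π = 1 := by rw [hπ]; simp
    have h2 : π ^ v j * (P1 * (C ((v j : ℕ) : ZMod p) * u j i + π * derivative (u j i))) =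
        π ^ v j * ∑ l, B i l * u j l := by
      have h3 : ∑ l, B i l * (π ^ v j * u j l) = π ^ v j * ∑ l, B i l * u j l := by
        rw [Finset.mul_sum]; exact Finset.sum_congr rfl fun l _ => by ring
      rw [← h3, ← h1, hP, derivative_mul]
      rcases Nat.eq_zero_or_pos (v j) with h0 | h0
      · rw [h0]; simp; ring
      · obtain ⟨n, hn⟩ : ∃ n, v j = n + 1 := ⟨v j - 1, by omega⟩
        rw [hn, derivative_pow_succ, hdπ]
        simp only [Nat.cast_add, Nat.cast_one, map_add, map_natCast, map_one]
        ring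
    have h3 := mul_left_cancel₀ (pow_ne_zero _ hirr.ne_zero) h2
    have h4 := congrArg (eval x0) h3
    have hπ0 : eval x0 π = 0 := by rw [hπ]; simp
    simp only [eval_mul, eval_add, eval_C, hπ0, zero_mul, add_zero, eval_finset_sum] at h4
    apply mul_left_cancel₀ hP1
    calc eval x0 P1 * (s * ((v j : ℕ) : ZMod p) * eval x0 (u j i))
        = s * (eval x0 P1 * (((v j : ℕ) : ZMod p) * eval x0 (u j i))) := by ring
      _ = s * ∑ l, eval x0 (B i l) * eval x0 (u j l) := by rw [h4]
      _ = eval x0 P1 * ∑ l, A i l * eval x0 (u j l) := by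
        rw [Finset.mul_sum, Finset.mul_sum]
        exact Finset.sum_congr rfl fun l _ => by rw [← mul_assoc, hA]; ring
  set U : Matrix (Fin r) (Fin r) (ZMod p) := Matrix.of fun j i => (u j i).eval x0 with hU
  have heig : ∀ j, A.mulVec (U j) = (s * ((v j : ℕ) : ZMod p)) • U j := by
    intro j; funext i
    simp only [Matrix.mulVec, dotProduct, Pi.smul_apply, smul_eq_mul, hU, Matrix.of_apply]
    exact (heig0 j i).symm
  -- eigenvector property without the factor s: needed to separate the valuations
  have heigv : ∀ j, (Matrix.of fun i l => (P1.eval x0)⁻¹ * (B i l).eval x0).mulVec (U j) =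
      ((v j : ℕ) : ZMod p) • U j := by
    intro j; funext i
    have hsol : VSol P B (fun i => π ^ v j * u j i) := by
      have h1 : (fun i => π ^ v j * u j i) = ∑ l, (fun l => C (E j l)) l • M l := by
        funext i
        rw [hEu.2 j i]
        simp [Finset.sum_apply]
      rw [h1]
      exact VSol.sum hM.1 (fun l => derivative_C)
    have h1 := hsol i
    simp only at h1
    have hdπ : derivative π = 1 := by rw [hπ]; simp
    have h2 : π ^ v j * (P1 * (C ((v j : ℕ) : ZMod p) * u j i + π * derivative (u j i))) =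
        π ^ v j * ∑ l, B i l * u j l := by
      have h3 : ∑ l, B i l * (π ^ v j * u j l) = π ^ v j * ∑ l, B i l * u j l := by
        rw [Finset.mul_sum]; exact Finset.sum_congr rfl fun l _ => by ring
      rw [← h3, ← h1, hP, derivative_mul]
      rcases Nat.eq_zero_or_pos (v j) with h0 | h0
      · rw [h0]; simp; ring
      · obtain ⟨n, hn⟩ : ∃ n, v j = n + 1 := ⟨v j - 1, by omega⟩
        rw [hn, derivative_pow_succ, hdπ]
        simp only [Nat.cast_add, Nat.cast_one, map_add, map_natCast, map_one]
        ring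
    have h3 := mul_left_cancel₀ (pow_ne_zero _ hirr.ne_zero) h2
    have h4 := congrArg (eval x0) h3
    have hπ0 : eval x0 π = 0 := by rw [hπ]; simp
    simp only [eval_mul, eval_add, eval_C, hπ0, zero_mul, add_zero, eval_finset_sum] at h4
    simp only [Matrix.mulVec, dotProduct, Pi.smul_apply, smul_eq_mul, hU, Matrix.of_apply]
    calc ∑ l, (P1.eval x0)⁻¹ * (B i l).eval x0 * (u j l).eval x0
        = (P1.eval x0)⁻¹ * ∑ l, (B i l).eval x0 * (u j l).eval x0 := by
          rw [Finset.mul_sum]; exact Finset.sum_congr rfl fun l _ => by ring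
      _ = (P1.eval x0)⁻¹ * (eval x0 P1 * (((v j : ℕ) : ZMod p) * eval x0 (u j i))) := by rw [h4]
      _ = ((v j : ℕ) : ZMod p) * eval x0 (u j i) := by field_simp
  have hdet : U.det ≠ 0 := by
    intro h0
    obtain ⟨c, j0, hc0, hcl, hc⟩ := supp heigv h0
    have hveq : ∀ j, c j ≠ 0 → v j = v j0 := by
      intro j hj
      have h1 := hcl j hj
      rw [CharP.natCast_eq_natCast (ZMod p) p] at h1
      rwa [Nat.ModEq, Nat.mod_eq_of_lt (hvp j), Nat.mod_eq_of_lt (hvp j0)] at h1
    have hdvd : ∀ i, π ∣ ∑ j, C (c j) * u j i := by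
      intro i
      rw [hπ, dvd_iff_isRoot, IsRoot.def, eval_finset_sum, ← hc i]
      apply Finset.sum_congr rfl
      intro j _
      simp [hU]
    choose w hw using hdvd
    set E' := E.updateRow j0 (∑ j, c j • E j) with hE'
    set v' := Function.update v j0 (v j0 + 1) with hv'
    set u' := u.updateRow j0 w with hu'
    have hAd : Adapt M x0 E' v' u' := by
      constructor
      · rw [hE', Matrix.det_updateRow_sum, smul_eq_mul]
        exact mul_ne_zero hc0 hEu.1
      · intro j i
        by_cases hj : j = j0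
        · subst hj
          rw [hv', Function.update_self, hu', hE', Matrix.updateRow_self]
          have h1 : ∀ l, (E.updateRow j (∑ j, c j • E j)) j l = ∑ m, c m * E m l := by
            intro l
            rw [Matrix.updateRow_self]; simp [Finset.sum_apply]
          simp only [h1, map_sum, map_mul, Finset.sum_mul]
          rw [Finset.sum_comm, ← hπ, pow_succ, mul_assoc, ← hw i, Finset.mul_sum]
          apply Finset.sum_congr rfl
          intro m _
          by_cases hm : c m = 0
          · simp [hm]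
          · rw [← hveq m hm]
            have h2 := hEu.2 m i
            rw [← hπ] at h2
            calc π ^ v m * (C (c m) * u m i) = C (c m) * (π ^ v m * u m i) := by ring
              _ = C (c m) * ∑ l, C (E m l) * M l i := by rw [h2]
              _ = ∑ l, C (c m) * C (E m l) * M l i := by
                rw [Finset.mul_sum]; exact Finset.sum_congr rfl fun l _ => by ring
        · rw [hv', Function.update_of_ne hj, hu', hE', Matrix.updateRow_ne hj]
          have h1 : ∀ l, (E.updateRow j0 (∑ j, c j • E j)) j l = E j l := by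
            intro l; rw [Matrix.updateRow_ne hj]
          simp only [h1]
          exact hEu.2 j i
    have hsum' : ∑ j, v' j = ∑ j, v j + 1 := by
      rw [← Finset.add_sum_erase _ v (Finset.mem_univ j0),
        ← Finset.add_sum_erase _ v' (Finset.mem_univ j0), hv', Function.update_self]
      have : ∑ x ∈ univ.erase j0, Function.update v j0 (v j0 + 1) x = ∑ x ∈ univ.erase j0, v x := by
        apply Finset.sum_congr rfl
        intro x hx
        rw [Function.update_of_ne (Finset.ne_of_mem_erase hx)]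
      rw [this]; omega
    have hbound : ∑ j, v' j ≤ r * p := by
      have h1 : ∑ j, v' j ≤ ∑ _j : Fin r, p := Finset.sum_le_sum fun j _ => (hAd.lt hM j).le
      simpa using h1
    have hpos : 0 < Nat.find hex := by omega
    exact Nat.find_min hex (m := Nat.find hex - 1) (by omega) ⟨E', v', u', hAd, by omega⟩
  refine ⟨v, hvp, charpoly_of_eig heig hdet, ?_⟩
  -- valuation of the determinant
  have hmat : (E.map C) * M = Matrix.diagonal (fun j => π ^ v j) * u := by
    ext1 j i
    rw [Matrix.diagonal_mul, Matrix.mul_apply]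
    have := hEu.2 j i
    rw [← hπ] at this
    rw [this]
    rfl
  have hdetE : (E.map C).det = C E.det := by
    rw [← RingHom.mapMatrix_apply, ← RingHom.map_det]
  have hdets := congrArg Matrix.det hmat
  rw [Matrix.det_mul, Matrix.det_mul, Matrix.det_diagonal, hdetE, Finset.prod_pow_eq_pow_sum]
    at hdets
  rintro ⟨w, hw⟩
  rw [hw, pow_succ] at hdets
  have h1 : π ^ (∑ j, v j) * (π * (C E.det * w)) = π ^ (∑ j, v j) * u.det := by
    rw [← hdets]; ring
  have h2 := mul_left_cancel₀ (pow_ne_zero _ hirr.ne_zero) h1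
  apply hdet
  have h3 : U.det = eval x0 u.det := by
    have : U = (evalRingHom x0).mapMatrix u := by
      ext j i; rfl
    rw [this, ← RingHom.map_det]; rfl
  rw [h3, ← h2, eval_mul, hπ]
  simp

/-- The inequality between the exponents of a system with a polynomial fundamental matrix. -/
theorem sys_core {k : ℕ} (hk : 1 ≤ k) {x : Fin k → ZMod p} (hx : Function.Injective x)
    {B M : Matrix (Fin r) (Fin r) (ZMod p)[X]} (hsol : ∀ j, VSol (∏ i, (X - C (x i))) B (M j))
    (hdet : M.det ≠ 0) (hB : ∀ i l, (B i l).natDegree ≤ k - 1) {s : ZMod p}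
    (A : Fin k → Matrix (Fin r) (Fin r) (ZMod p)) (Ainf : Matrix (Fin r) (Fin r) (ZMod p))
    (hA : ∀ m i l, s * (B i l).eval (x m) = (∏ n ∈ univ.erase m, (x m - x n)) * A m i l)
    (hAinf : ∀ i l, s * (B i l).coeff (k - 1) = Ainf i l) :
    ∃ (d : Fin r → ℕ) (v : Fin k → Fin r → ℕ), (∀ m j, v m j < p) ∧
      Ainf.charpoly = ∏ j, (X - C (s * ((d j : ℕ) : ZMod p))) ∧
      (∀ m, (A m).charpoly = ∏ j, (X - C (s * ((v m j : ℕ) : ZMod p)))) ∧
      ∑ j, d j ≤ ∑ m, ∑ j, v m j := by
  classical
  obtain ⟨M', hM⟩ := exists_minM hsol hdet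
  set P : (ZMod p)[X] := ∏ i, (X - C (x i)) with hP
  have hPdeg : P.natDegree = k := by
    rw [hP, natDegree_prod_of_monic _ _ (fun i _ => monic_X_sub_C _)]; simp
  have hPm : P.Monic := monic_prod_of_monic _ _ (fun i _ => monic_X_sub_C _)
  have hPk : P.coeff k = 1 := by
    have := hPm.coeff_natDegree
    rwa [hPdeg] at this
  obtain ⟨h1, h2⟩ := hM.inf hk hPdeg.le hPk hB Ainf hAinf
  have hsing : ∀ m, ∃ v : Fin r → ℕ, (∀ j, v j < p) ∧
      (A m).charpoly = ∏ j, (X - C (s * ((v j : ℕ) : ZMod p))) ∧
      ¬ (X - C (x m)) ^ (∑ j, v j + 1) ∣ M'.det := by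
    intro m
    have e1 : (∏ n ∈ univ.erase m, (X - C (x n))).eval (x m) =
        ∏ n ∈ univ.erase m, (x m - x n) := by
      rw [eval_prod]; simp
    refine hM.sing (P1 := ∏ n ∈ univ.erase m, (X - C (x n))) ?_ ?_ (A m) ?_
    · exact hP.trans (Finset.mul_prod_erase univ (fun n => X - C (x n)) (Finset.mem_univ m)).symm
    · rw [e1]
      apply Finset.prod_ne_zero_iff.2
      intro n hn
      exact sub_ne_zero.2 (fun h => Finset.ne_of_mem_erase hn (hx h).symm)
    · intro i l
      rw [e1]; exact hA m i l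
  choose v hv1 hv2 hv3 using hsing
  refine ⟨fun j => vdeg (M' j), v, hv1, h1, hv2, h2.trans ?_⟩
  have hdvd : M'.det ∣ ∏ m, (X - C (x m)) ^ (∑ j, v m j) := by
    apply dvd_of_local hM.2.1
    intro π hπ
    by_cases hπP : π ∣ P
    · obtain ⟨m, -, hm⟩ := (hπ.prime.dvd_finsetProd_iff _).1 hπP
      have hassoc : Associated π (X - C (x m)) :=
        hπ.associated_of_dvd (irreducible_X_sub_C _) hm
      refine ⟨∑ j, v m j + 1, by omega, ?_, ?_⟩
      · intro h3
        exact hv3 m ((hassoc.pow_pow.symm.dvd).trans h3)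
      · rw [Nat.add_sub_cancel]
        exact (pow_dvd_pow_of_dvd hm _).trans (Finset.dvd_prod_of_mem
          (fun m => (X - C (x m)) ^ (∑ j, v m j)) (Finset.mem_univ m))
    · exact ⟨1, le_rfl, by rw [pow_one]; exact hM.ord p hπ hπP, by simp⟩
  have h3 := natDegree_le_of_dvd hdvd (Finset.prod_ne_zero_iff.2 fun m _ =>
    pow_ne_zero _ (X_sub_C_ne_zero _))
  refine h3.trans ((natDegree_prod_le _ _).trans (Finset.sum_le_sum fun m _ => ?_))
  refine natDegree_pow_le.trans ?_
  rw [natDegree_X_sub_C, mul_one]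

end

end H921PC
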