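import Pool.Agent.H921PC.Sys3
import Pool.Agent.H921PC.Rat
import Pool.Agent.H921PC.Final

set_option autoImplicit false
set_option linter.unusedSectionVars false

namespace H921PC

open Polynomial Finset

/-- The reduction modulo the prime `p` of the Fuchsian system
`D Y' = (∑ₘ Bₘ / (x - xₘ)) Y` (integer matrices `Bₘ`, integer points `xₘ`) has a full set of
solutions: there is an invertible matrix `F` over `𝔽_p(x)` with `D F' = (∑ₘ Bₘ / (x - xₘ)) F`,
the derivation being `d/dx`. -/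
def FundModP {k r : ℕ} (D : ℕ) (x : Fin k → ℤ) (B : Fin k → Matrix (Fin r) (Fin r) ℤ) (p : ℕ)
    [Fact p.Prime] : Prop :=
  ∃ δ : Derivation ℤ (RatFunc (ZMod p)) (RatFunc (ZMod p)),
    δ (RatFunc.X : RatFunc (ZMod p)) = 1 ∧
    ∃ F : Matrix (Fin r) (Fin r) (RatFunc (ZMod p)), F.det ≠ 0 ∧
      ∀ i j, (D : RatFunc (ZMod p)) * δ (F i j) =
        ∑ m, ∑ l, ((B m i l : ℤ) : RatFunc (ZMod p)) / (RatFunc.X - ((x m : ℤ) : RatFunc (ZMod p)))
          * F l j

section

variable {p : ℕ} [hp : Fact p.Prime]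

/-- polynomial form of the matrix of the system -/
noncomputable def Bp {k r : ℕ} (D : ℕ) (x : Fin k → ℤ) (B : Fin k → Matrix (Fin r) (Fin r) ℤ)
    (p : ℕ) : Matrix (Fin r) (Fin r) (ZMod p)[X] :=
  Matrix.of fun i l => ∑ m, C ((D : ZMod p)⁻¹ * ((B m i l : ℤ) : ZMod p)) *
    ∏ n ∈ univ.erase m, (X - C ((x n : ℤ) : ZMod p))

theorem exists_vsol {k r : ℕ} {D : ℕ} {x : Fin k → ℤ} {B : Fin k → Matrix (Fin r) (Fin r) ℤ}
    (hD : (D : ZMod p) ≠ 0) (h : FundModP D x B p) :
    ∃ M : Matrix (Fin r) (Fin r) (ZMod p)[X],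
      (∀ j, VSol (∏ m, (X - C ((x m : ℤ) : ZMod p))) (Bp D x B p) (M j)) ∧ M.det ≠ 0 := by
  classical
  obtain ⟨δ, hδ, F, hF, hsys⟩ := h
  have hder := D_poly δ hδ
  have hinj : Function.Injective (algebraMap (Polynomial (ZMod p)) (RatFunc (ZMod p))) :=
    RatFunc.algebraMap_injective (ZMod p)
  obtain ⟨⟨b, hb⟩, hbF⟩ := IsLocalization.exist_integer_multiples (nonZeroDivisors (ZMod p)[X])
    (univ : Finset (Fin r × Fin r)) (fun ij => F ij.1 ij.2)
  have hb0 : b ≠ 0 := nonZeroDivisors.ne_zero hb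
  have hbF' : ∀ i j, ∃ m : (ZMod p)[X],
      (algebraMap (Polynomial (ZMod p)) (RatFunc (ZMod p))) m =
      (algebraMap (Polynomial (ZMod p)) (RatFunc (ZMod p))) b * F i j := by
    intro i j
    obtain ⟨m, hm⟩ := hbF (i, j) (Finset.mem_univ _)
    refine ⟨m, hm.trans ?_⟩
    simp [Algebra.smul_def]
  choose m hm using hbF'
  set e : RatFunc (ZMod p) := (algebraMap (Polynomial (ZMod p)) (RatFunc (ZMod p))) (b ^ p) with he
  have he0 : e ≠ 0 := by
    rw [he]; intro h0
    exact pow_ne_zero p hb0 (hinj (by rw [h0, map_zero]))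
  have hde : δ e = 0 := by rw [he, hder, der_pow_p p, map_zero]
  set M : Matrix (Fin r) (Fin r) (ZMod p)[X] := Matrix.of fun j i => b ^ (p - 1) * m i j with hM
  have hMF : ∀ j i, (algebraMap (Polynomial (ZMod p)) (RatFunc (ZMod p))) (M j i) = e * F i j := by
    intro j i
    rw [hM, Matrix.of_apply, map_mul, hm, ← mul_assoc, ← map_mul, ← pow_succ,
      Nat.sub_add_cancel hp.out.pos]
  refine ⟨M, ?_, ?_⟩
  · intro j i
    apply hinj
    rw [map_mul, ← hder, hMF, Derivation.leibniz, hde, smul_zero, add_zero, smul_eq_mul, map_sum]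
    have hs := hsys i j
    have hx : ∀ n, (algebraMap (Polynomial (ZMod p)) (RatFunc (ZMod p)))
        (X - C ((x n : ℤ) : ZMod p)) = RatFunc.X - ((x n : ℤ) : RatFunc (ZMod p)) := by
      intro n
      rw [map_sub, RatFunc.algebraMap_X]
      congr 1
      have h2 : (C ((x n : ℤ) : ZMod p) : (ZMod p)[X]) = ((x n : ℤ) : (ZMod p)[X]) :=
        (Polynomial.C_eq_intCast _)
      rw [h2, map_intCast]
    have hx0 : ∀ n, RatFunc.X - ((x n : ℤ) : RatFunc (ZMod p)) ≠ 0 := by
      intro n h0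
      rw [← hx, ← map_zero (algebraMap (Polynomial (ZMod p)) (RatFunc (ZMod p)))] at h0
      exact X_sub_C_ne_zero _ (hinj h0)
    have hDr : (D : RatFunc (ZMod p)) ≠ 0 := by
      intro h0
      have h1 : (algebraMap (Polynomial (ZMod p)) (RatFunc (ZMod p))) (C (D : ZMod p)) = 0 := by
        rw [← h0]; simp
      rw [← map_zero (algebraMap (Polynomial (ZMod p)) (RatFunc (ZMod p)))] at h1
      exact hD (C_eq_zero.1 (hinj h1))
    have hP : (algebraMap (Polynomial (ZMod p)) (RatFunc (ZMod p)))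
        (∏ m, (X - C ((x m : ℤ) : ZMod p))) =
        ∏ m, (RatFunc.X - ((x m : ℤ) : RatFunc (ZMod p))) := by
      rw [map_prod]; exact Finset.prod_congr rfl fun n _ => hx n
    have hBp : ∀ l, (algebraMap (Polynomial (ZMod p)) (RatFunc (ZMod p))) (Bp D x B p i l) =
        ∑ m, ((D : RatFunc (ZMod p))⁻¹ * ((B m i l : ℤ) : RatFunc (ZMod p))) *
          ∏ n ∈ univ.erase m, (RatFunc.X - ((x n : ℤ) : RatFunc (ZMod p))) := by
      intro l
      rw [Bp, Matrix.of_apply, map_sum]
      apply Finset.sum_congr rfl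
      intro n _
      rw [map_mul, map_prod]
      congr 1
      · rw [C_mul, map_mul]
        congr 1
        · apply eq_inv_of_mul_eq_one_left
          have h1 : (D : RatFunc (ZMod p)) =
              (algebraMap (Polynomial (ZMod p)) (RatFunc (ZMod p))) (C (D : ZMod p)) := by simp
          rw [h1, ← map_mul, ← C_mul, inv_mul_cancel₀ hD, C_1, map_one]
        · have h2 : (C ((B n i l : ℤ) : ZMod p) : (ZMod p)[X]) = ((B n i l : ℤ) : (ZMod p)[X]) :=
            (Polynomial.C_eq_intCast _)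
          rw [h2, map_intCast]
      · exact Finset.prod_congr rfl fun n _ => hx n
    rw [hP]
    have hprod : ∀ m, (∏ n, (RatFunc.X - ((x n : ℤ) : RatFunc (ZMod p)))) *
        (RatFunc.X - ((x m : ℤ) : RatFunc (ZMod p)))⁻¹ =
        ∏ n ∈ univ.erase m, (RatFunc.X - ((x n : ℤ) : RatFunc (ZMod p))) := by
      intro m
      rw [← Finset.mul_prod_erase univ (fun n => RatFunc.X - ((x n : ℤ) : RatFunc (ZMod p)))
        (Finset.mem_univ m)]
      have := hx0 m
      field_simp
    have hs' : δ (F i j) = (D : RatFunc (ZMod p))⁻¹ * ∑ m, ∑ l, ((B m i l : ℤ) : RatFunc (ZMod p)) /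
        (RatFunc.X - ((x m : ℤ) : RatFunc (ZMod p))) * F l j := by
      rw [← hs, ← mul_assoc, inv_mul_cancel₀ hDr, one_mul]
    rw [hs']
    have hR : ∀ l, (algebraMap (Polynomial (ZMod p)) (RatFunc (ZMod p))) (Bp D x B p i l * M j l) =
        ∑ m, ((D : RatFunc (ZMod p))⁻¹ * ((B m i l : ℤ) : RatFunc (ZMod p))) *
          ((∏ n, (RatFunc.X - ((x n : ℤ) : RatFunc (ZMod p)))) *
        (RatFunc.X - ((x m : ℤ) : RatFunc (ZMod p)))⁻¹) * (e * F l j) := by
      intro l
      rw [map_mul, hMF, hBp, Finset.sum_mul]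
      exact Finset.sum_congr rfl fun m _ => by rw [hprod]
    rw [Finset.sum_congr rfl (fun l _ => hR l), Finset.sum_comm, Finset.mul_sum, Finset.mul_sum,
      Finset.mul_sum]
    apply Finset.sum_congr rfl
    intro m _
    rw [Finset.mul_sum, Finset.mul_sum, Finset.mul_sum]
    apply Finset.sum_congr rfl
    intro l _
    rw [div_eq_mul_inv]
    ring
  · intro h0
    apply hF
    have h1 : (algebraMap (Polynomial (ZMod p)) (RatFunc (ZMod p))).mapMatrix M =
        (e • F).transpose := by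
      ext1 j i
      exact hMF j i
    have h2 := congrArg Matrix.det h1
    rw [← RingHom.map_det, h0, map_zero, Matrix.det_transpose, Matrix.det_smul] at h2
    rcases mul_eq_zero.1 h2.symm with h3 | h3
    · exact absurd h3 (pow_ne_zero _ he0)
    · exact h3

end

end H921PC
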