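import Pool.Agent.H921PC.Sys2

set_option autoImplicit false
set_option linter.unusedSectionVars false

/-!
The results of `Sys2` and `Sys3` over an arbitrary finite field.
-/

namespace H921PC

open Polynomial Finset

section

variable {K : Type*} [Field K] [Finite K] {r : ℕ} (p : ℕ) [hp : Fact p.Prime] [CharP K p]

include hp in
lemma frob_surj (y : K) : ∃ z : K, z ^ p = y := by
  have hsurj : Function.Surjective (fun x : K => x ^ p) := by
    apply Finite.surjective_of_injective
    intro x y hxy
    have h1 : (x - y) ^ p = 0 := by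
      rw [sub_pow_char]
      simpa [sub_eq_zero] using hxy
    exact sub_eq_zero.1 ((pow_eq_zero_iff (hp.out.ne_zero)).1 h1)
  exact hsurj y

include hp in
/-- leading behaviour at infinity -/
lemma MinM.infF {P : K[X]} {B M : Matrix (Fin r) (Fin r) K[X]} (hM : MinM P B M)
    {k : ℕ} (hk : 1 ≤ k) (hP : P.natDegree ≤ k) (hPk : P.coeff k = 1)
    (hB : ∀ i l, (B i l).natDegree ≤ k - 1) {s : K} (A : Matrix (Fin r) (Fin r) (K))
    (hA : ∀ i l, s * (B i l).coeff (k - 1) = A i l) :
    A.charpoly = ∏ j, (X - C (s * ((vdeg (M j) : ℕ) : K))) ∧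
      ∑ j, vdeg (M j) ≤ M.det.natDegree := by
  classical
  set d : Fin r → ℕ := fun j => vdeg (M j) with hd
  set U : Matrix (Fin r) (Fin r) (K) := Matrix.of fun j i => (M j i).coeff (d j) with hU
  have heig0 : ∀ j i, ∑ l, (B i l).coeff (k - 1) * U j l = ((d j : ℕ) : K) * U j i := by
    intro j i
    have h1 := hM.1 j i
    have h2 : P * (X * derivative (M j i)) = ∑ l, (X * B i l) * M j l := by
      calc P * (X * derivative (M j i)) = X * (P * derivative (M j i)) := by ring
        _ = X * ∑ l, B i l * M j l := by rw [h1]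
        _ = ∑ l, (X * B i l) * M j l := by
          rw [Finset.mul_sum]; exact Finset.sum_congr rfl fun l _ => by ring
    have h3 := congrArg (fun F => coeff F (k + d j)) h2
    simp only [finset_sum_coeff] at h3
    rw [coeff_mul_add_eq_of_natDegree_le hP ((natDegree_theta _).trans (le_vdeg (M j) i)),
      coeff_theta, hPk, one_mul] at h3
    have h4 : ∀ l, ((X * B i l) * M j l).coeff (k + d j) =
        (B i l).coeff (k - 1) * (M j l).coeff (d j) := by
      intro l
      have h5 : (X * B i l).natDegree ≤ k := by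
        refine natDegree_mul_le.trans ?_
        have := hB i l
        rw [natDegree_X]; omega
      rw [coeff_mul_add_eq_of_natDegree_le h5 (le_vdeg (M j) l)]
      congr 1
      obtain ⟨m, rfl⟩ : ∃ m, k = m + 1 := ⟨k - 1, by omega⟩
      rw [coeff_X_mul, Nat.add_sub_cancel]
    rw [Finset.sum_congr rfl (fun l _ => h4 l)] at h3
    exact h3.symm
  have heig : ∀ j, (Matrix.of fun i l => (B i l).coeff (k - 1)).mulVec (U j) =
      ((d j : ℕ) : K) • U j := by
    intro j; funext i
    simpa [Matrix.mulVec, dotProduct] using heig0 j i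
  have heig' : ∀ j, A.mulVec (U j) = (s * ((d j : ℕ) : K)) • U j := by
    intro j; funext i
    simp only [Matrix.mulVec, dotProduct, Pi.smul_apply, smul_eq_mul]
    calc ∑ l, A i l * U j l = s * ∑ l, (B i l).coeff (k - 1) * U j l := by
          rw [Finset.mul_sum]; exact Finset.sum_congr rfl fun l _ => by rw [← hA]; ring
      _ = s * ((d j : ℕ) : K) * U j i := by rw [heig0]; ring
  have hdet : U.det ≠ 0 := by
    intro h0
    obtain ⟨c, j0, hc0, hcl, hc⟩ := supp heig h0
    obtain ⟨j1, hj1, hmax⟩ := Finset.exists_max_image (univ.filter fun j => c j ≠ 0)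
      d ⟨j0, by simp [hc0]⟩
    simp only [Finset.mem_filter, Finset.mem_univ, true_and] at hj1 hmax
    have hm : ∀ j, ∃ m : ℕ, c j ≠ 0 → d j1 = m * p + d j := by
      intro j
      by_cases hj : c j = 0
      · exact ⟨0, fun h => absurd hj h⟩
      · have h1 : ((d j : ℕ) : K) = ((d j1 : ℕ) : K) := by rw [hcl j hj, hcl j1 hj1]
        rw [CharP.natCast_eq_natCast K p] at h1
        obtain ⟨m, hm⟩ := (Nat.modEq_iff_dvd' (hmax j hj)).1 h1
        refine ⟨m, fun _ => ?_⟩
        have := hmax j hj
        rw [mul_comm m p, ← hm]; omega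
    choose m hm using hm
    set a : Fin r → K[X] := fun j => C (c j) * (X ^ m j) ^ p with ha
    have hda : ∀ j, derivative (a j) = 0 := by
      intro j
      rw [ha]
      simp only
      rw [derivative_mul, der_pow_p p, derivative_C]; simp
    set g : Fin r → K[X] := ∑ j, a j • M j with hg
    obtain ⟨h1, h2⟩ := hM.le (c := 1) (g := g) derivative_one one_ne_zero hda (one_smul _ _)
      (j0 := j1) (by
        rw [ha]
        exact mul_ne_zero (by rwa [Ne, C_eq_zero]) (pow_ne_zero _ (pow_ne_zero _ X_ne_zero)))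
    have hgi : ∀ i, (g i).natDegree ≤ d j1 ∧ (g i).coeff (d j1) = 0 := by
      intro i
      have h3 : g i = ∑ j, a j * M j i := by rw [hg]; simp [Finset.sum_apply]
      constructor
      · rw [h3]
        apply natDegree_sum_le_of_forall_le
        intro j _
        by_cases hj : c j = 0
        · rw [ha]; simp [hj]
        · refine natDegree_mul_le.trans ?_
          have h4 : (a j).natDegree ≤ m j * p := by
            rw [ha]
            simp only
            rw [← pow_mul]
            exact natDegree_C_mul_X_pow_le _ _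
          have h5 := hm j hj
          have h6 := le_vdeg (M j) i
          have h7 : vdeg (M j) = d j := rfl
          omega
      · rw [h3, finset_sum_coeff, ← hc i]
        apply Finset.sum_congr rfl
        intro j _
        by_cases hj : c j = 0
        · rw [ha]; simp [hj]
        · rw [ha]
          simp only
          rw [← pow_mul, mul_assoc, coeff_C_mul, hm j hj, add_comm, coeff_X_pow_mul]
          rfl
    obtain ⟨i0, hi0⟩ := Function.ne_iff.1 h2
    have hlt : ∀ i, g i ≠ 0 → (g i).natDegree < d j1 := by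
      intro i hi
      refine lt_of_le_of_ne (hgi i).1 ?_
      intro he
      have := (hgi i).2
      rw [← he] at this
      exact hi (leadingCoeff_eq_zero.1 this)
    have hpos := hlt i0 hi0
    have h5 : vdeg g ≤ d j1 - 1 := by
      apply vdeg_le
      intro i
      by_cases hi : g i = 0
      · rw [hi]; simp
      · have := hlt i hi; omega
    have h6 : vdeg (M j1) = d j1 := rfl
    omega
  refine ⟨charpoly_of_eig heig' hdet, ?_⟩
  apply le_natDegree_of_ne_zero
  rw [coeff_det (fun j i => le_vdeg (M j) i)]
  exact hdet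

/-- a factorisation of an invertible constant combination of the rows of `M` at `x0` -/
def AdaptF (M : Matrix (Fin r) (Fin r) K[X]) (x0 : K)
    (E : Matrix (Fin r) (Fin r) (K)) (v : Fin r → ℕ)
    (u : Matrix (Fin r) (Fin r) K[X]) : Prop :=
  E.det ≠ 0 ∧ ∀ j i, (X - C x0) ^ v j * u j i = ∑ l, C (E j l) * M l i

include hp in
lemma AdaptF.lt {P : K[X]} {B M : Matrix (Fin r) (Fin r) K[X]} (hM : MinM P B M)
    {x0 : K} {E : Matrix (Fin r) (Fin r) (K)} {v : Fin r → ℕ}
    {u : Matrix (Fin r) (Fin r) K[X]} (h : AdaptF M x0 E v u) (j : Fin r) : v j < p := by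
  classical
  by_contra hc
  push Not at hc
  have hrow : ∃ l, E j l ≠ 0 := by
    by_contra h0
    push Not at h0
    exact h.1 (Matrix.det_eq_zero_of_row_eq_zero j h0)
  obtain ⟨l1, hl1⟩ := hrow
  have hirr : Irreducible (X - C x0) := irreducible_X_sub_C x0
  choose e he using frob_surj (K := K) p
  refine hM.nodep p hirr (α := fun l => C (e (E j l))) ?_ (j1 := l1) ?_
    (g := fun i => (X - C x0) ^ (v j - p) * u j i) ?_
  · intro l
    rw [natDegree_C, natDegree_X_sub_C]; exact one_pos
  · rw [Ne, C_eq_zero]
    intro h0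
    apply hl1
    rw [← he (E j l1), h0, zero_pow hp.out.ne_zero]
  · funext i
    have h1 := h.2 j i
    simp only [Pi.smul_apply, smul_eq_mul, Finset.sum_apply]
    rw [← mul_assoc, ← pow_add, Nat.add_sub_cancel' hc, h1]
    apply Finset.sum_congr rfl
    intro l _
    rw [← C_pow, he]

/-- the local structure at a singular point -/
lemma MinM.singF {P P1 : K[X]} {B M : Matrix (Fin r) (Fin r) K[X]}
    (hM : MinM P B M) {x0 : K} (hP : P = (X - C x0) * P1) (hP1 : P1.eval x0 ≠ 0)
    {s : K} (A : Matrix (Fin r) (Fin r) (K))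
    (hA : ∀ i l, s * (B i l).eval x0 = P1.eval x0 * A i l) :
    ∃ v : Fin r → ℕ, (∀ j, v j < p) ∧
      A.charpoly = ∏ j, (X - C (s * ((v j : ℕ) : K))) ∧
      ¬ (X - C x0) ^ (∑ j, v j + 1) ∣ M.det := by
  classical
  set π : K[X] := X - C x0 with hπ
  have hirr : Irreducible π := irreducible_X_sub_C x0
  -- maximal adapted data
  have hex : ∃ m : ℕ, ∃ (E : Matrix (Fin r) (Fin r) (K)) (v : Fin r → ℕ)
      (u : Matrix (Fin r) (Fin r) K[X]), AdaptF M x0 E v u ∧ ∑ j, v j + m = r * p := by
    refine ⟨r * p, 1, fun _ => 0, M, ⟨by simp, ?_⟩, by simp⟩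
    intro j i
    rw [pow_zero, one_mul, Finset.sum_eq_single j]
    · simp
    · intro l _ hl
      rw [Matrix.one_apply_ne (Ne.symm hl), C_0, zero_mul]
    · intro h; exact absurd (Finset.mem_univ _) h
  obtain ⟨E, v, u, hEu, hsum⟩ := Nat.find_spec hex
  have hvp := fun j => hEu.lt p hM j
  -- eigenvector property
  have heig0 : ∀ j i, s * ((v j : ℕ) : K) * (u j i).eval x0 =
      ∑ l, A i l * (u j l).eval x0 := by
    intro j i
    have hsol : VSol P B (fun i => π ^ v j * u j i) := by
      have h1 : (fun i => π ^ v j * u j i) = ∑ l, (fun l => C (E j l)) l • M l := by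
        funext i
        rw [hEu.2 j i]
        simp [Finset.sum_apply]
      rw [h1]
      exact VSol.sum hM.1 (fun l => derivative_C)
    have h1 := hsol i
    simp only at h1
    have hdπ : derivative π = 1 := by rw [hπ]; simp
    have h2 : π ^ v j * (P1 * (C ((v j : ℕ) : K) * u j i + π * derivative (u j i))) =
        π ^ v j * ∑ l, B i l * u j l := by
      have h3 : ∑ l, B i l * (π ^ v j * u j l) = π ^ v j * ∑ l, B i l * u j l := by
        rw [Finset.mul_sum]; exact Finset.sum_congr rfl fun l _ => by ring
      rw [← h3, ← h1, hP, derivative_mul]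
      rcases Nat.eq_zero_or_pos (v j) with h0 | h0
      · rw [h0]; simp; ring
      · obtain ⟨n, hn⟩ : ∃ n, v j = n + 1 := ⟨v j - 1, by omega⟩
        rw [hn, derivative_pow_succ, hdπ]
        simp only [Nat.cast_add, Nat.cast_one, map_add, map_natCast, map_one]
        ring
    have h3 := mul_left_cancel₀ (pow_ne_zero _ hirr.ne_zero) h2
    have h4 := congrArg (eval x0) h3
    have hπ0 : eval x0 π = 0 := by rw [hπ]; simp
    simp only [eval_mul, eval_add, eval_C, hπ0, zero_mul, add_zero, eval_finset_sum] at h4
    apply mul_left_cancel₀ hP1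
    calc eval x0 P1 * (s * ((v j : ℕ) : K) * eval x0 (u j i))
        = s * (eval x0 P1 * (((v j : ℕ) : K) * eval x0 (u j i))) := by ring
      _ = s * ∑ l, eval x0 (B i l) * eval x0 (u j l) := by rw [h4]
      _ = eval x0 P1 * ∑ l, A i l * eval x0 (u j l) := by
        rw [Finset.mul_sum, Finset.mul_sum]
        exact Finset.sum_congr rfl fun l _ => by rw [← mul_assoc, hA]; ring
  set U : Matrix (Fin r) (Fin r) (K) := Matrix.of fun j i => (u j i).eval x0 with hU
  have heig : ∀ j, A.mulVec (U j) = (s * ((v j : ℕ) : K)) • U j := by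
    intro j; funext i
    simp only [Matrix.mulVec, dotProduct, Pi.smul_apply, smul_eq_mul, hU, Matrix.of_apply]
    exact (heig0 j i).symm
  -- eigenvector property without the factor s: needed to separate the valuations
  have heigv : ∀ j, (Matrix.of fun i l => (P1.eval x0)⁻¹ * (B i l).eval x0).mulVec (U j) =
      ((v j : ℕ) : K) • U j := by
    intro j; funext i
    have hsol : VSol P B (fun i => π ^ v j * u j i) := by
      have h1 : (fun i => π ^ v j * u j i) = ∑ l, (fun l => C (E j l)) l • M l := by
        funext i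
        rw [hEu.2 j i]
        simp [Finset.sum_apply]
      rw [h1]
      exact VSol.sum hM.1 (fun l => derivative_C)
    have h1 := hsol i
    simp only at h1
    have hdπ : derivative π = 1 := by rw [hπ]; simp
    have h2 : π ^ v j * (P1 * (C ((v j : ℕ) : K) * u j i + π * derivative (u j i))) =
        π ^ v j * ∑ l, B i l * u j l := by
      have h3 : ∑ l, B i l * (π ^ v j * u j l) = π ^ v j * ∑ l, B i l * u j l := by
        rw [Finset.mul_sum]; exact Finset.sum_congr rfl fun l _ => by ring
      rw [← h3, ← h1, hP, derivative_mul]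
      rcases Nat.eq_zero_or_pos (v j) with h0 | h0
      · rw [h0]; simp; ring
      · obtain ⟨n, hn⟩ : ∃ n, v j = n + 1 := ⟨v j - 1, by omega⟩
        rw [hn, derivative_pow_succ, hdπ]
        simp only [Nat.cast_add, Nat.cast_one, map_add, map_natCast, map_one]
        ring
    have h3 := mul_left_cancel₀ (pow_ne_zero _ hirr.ne_zero) h2
    have h4 := congrArg (eval x0) h3
    have hπ0 : eval x0 π = 0 := by rw [hπ]; simp
    simp only [eval_mul, eval_add, eval_C, hπ0, zero_mul, add_zero, eval_finset_sum] at h4
    simp only [Matrix.mulVec, dotProduct, Pi.smul_apply, smul_eq_mul, hU, Matrix.of_apply]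
    calc ∑ l, (P1.eval x0)⁻¹ * (B i l).eval x0 * (u j l).eval x0
        = (P1.eval x0)⁻¹ * ∑ l, (B i l).eval x0 * (u j l).eval x0 := by
          rw [Finset.mul_sum]; exact Finset.sum_congr rfl fun l _ => by ring
      _ = (P1.eval x0)⁻¹ * (eval x0 P1 * (((v j : ℕ) : K) * eval x0 (u j i))) := by rw [h4]
      _ = ((v j : ℕ) : K) * eval x0 (u j i) := by field_simp
  have hdet : U.det ≠ 0 := by
    intro h0
    obtain ⟨c, j0, hc0, hcl, hc⟩ := supp heigv h0
    have hveq : ∀ j, c j ≠ 0 → v j = v j0 := by
      intro j hj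
      have h1 := hcl j hj
      rw [CharP.natCast_eq_natCast K p] at h1
      rwa [Nat.ModEq, Nat.mod_eq_of_lt (hvp j), Nat.mod_eq_of_lt (hvp j0)] at h1
    have hdvd : ∀ i, π ∣ ∑ j, C (c j) * u j i := by
      intro i
      rw [hπ, dvd_iff_isRoot, IsRoot.def, eval_finset_sum, ← hc i]
      apply Finset.sum_congr rfl
      intro j _
      simp [hU]
    choose w hw using hdvd
    set E' := E.updateRow j0 (∑ j, c j • E j) with hE'
    set v' := Function.update v j0 (v j0 + 1) with hv'
    set u' := u.updateRow j0 w with hu'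
    have hAd : AdaptF M x0 E' v' u' := by
      constructor
      · rw [hE', Matrix.det_updateRow_sum, smul_eq_mul]
        exact mul_ne_zero hc0 hEu.1
      · intro j i
        by_cases hj : j = j0
        · subst hj
          rw [hv', Function.update_self, hu', hE', Matrix.updateRow_self]
          have h1 : ∀ l, (E.updateRow j (∑ j, c j • E j)) j l = ∑ m, c m * E m l := by
            intro l
            rw [Matrix.updateRow_self]; simp [Finset.sum_apply]
          simp only [h1, map_sum, map_mul, Finset.sum_mul]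
          rw [Finset.sum_comm, ← hπ, pow_succ, mul_assoc, ← hw i, Finset.mul_sum]
          apply Finset.sum_congr rfl
          intro m _
          by_cases hm : c m = 0
          · simp [hm]
          · rw [← hveq m hm]
            have h2 := hEu.2 m i
            rw [← hπ] at h2
            calc π ^ v m * (C (c m) * u m i) = C (c m) * (π ^ v m * u m i) := by ring
              _ = C (c m) * ∑ l, C (E m l) * M l i := by rw [h2]
              _ = ∑ l, C (c m) * C (E m l) * M l i := by
                rw [Finset.mul_sum]; exact Finset.sum_congr rfl fun l _ => by ring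
        · rw [hv', Function.update_of_ne hj, hu', hE', Matrix.updateRow_ne hj]
          have h1 : ∀ l, (E.updateRow j0 (∑ j, c j • E j)) j l = E j l := by
            intro l; rw [Matrix.updateRow_ne hj]
          simp only [h1]
          exact hEu.2 j i
    have hsum' : ∑ j, v' j = ∑ j, v j + 1 := by
      rw [← Finset.add_sum_erase _ v (Finset.mem_univ j0),
        ← Finset.add_sum_erase _ v' (Finset.mem_univ j0), hv', Function.update_self]
      have : ∑ x ∈ univ.erase j0, Function.update v j0 (v j0 + 1) x = ∑ x ∈ univ.erase j0, v x := by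
        apply Finset.sum_congr rfl
        intro x hx
        rw [Function.update_of_ne (Finset.ne_of_mem_erase hx)]
      rw [this]; omega
    have hbound : ∑ j, v' j ≤ r * p := by
      have h1 : ∑ j, v' j ≤ ∑ _j : Fin r, p := Finset.sum_le_sum fun j _ => (hAd.lt p hM j).le
      simpa using h1
    have hpos : 0 < Nat.find hex := by omega
    exact Nat.find_min hex (m := Nat.find hex - 1) (by omega) ⟨E', v', u', hAd, by omega⟩
  refine ⟨v, hvp, charpoly_of_eig heig hdet, ?_⟩
  -- valuation of the determinant
  have hmat : (E.map C) * M = Matrix.diagonal (fun j => π ^ v j) * u := by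
    ext1 j i
    rw [Matrix.diagonal_mul, Matrix.mul_apply]
    have := hEu.2 j i
    rw [← hπ] at this
    rw [this]
    rfl
  have hdetE : (E.map C).det = C E.det := by
    rw [← RingHom.mapMatrix_apply, ← RingHom.map_det]
  have hdets := congrArg Matrix.det hmat
  rw [Matrix.det_mul, Matrix.det_mul, Matrix.det_diagonal, hdetE, Finset.prod_pow_eq_pow_sum]
    at hdets
  rintro ⟨w, hw⟩
  rw [hw, pow_succ] at hdets
  have h1 : π ^ (∑ j, v j) * (π * (C E.det * w)) = π ^ (∑ j, v j) * u.det := by
    rw [← hdets]; ring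
  have h2 := mul_left_cancel₀ (pow_ne_zero _ hirr.ne_zero) h1
  apply hdet
  have h3 : U.det = eval x0 u.det := by
    have : U = (evalRingHom x0).mapMatrix u := by
      ext j i; rfl
    rw [this, ← RingHom.map_det]; rfl
  rw [h3, ← h2, eval_mul, hπ]
  simp

/-- The inequality between the exponents of a system with a polynomial fundamental matrix. -/
theorem sys_coreF {k : ℕ} (hk : 1 ≤ k) {x : Fin k → K} (hx : Function.Injective x)
    {B M : Matrix (Fin r) (Fin r) K[X]} (hsol : ∀ j, VSol (∏ i, (X - C (x i))) B (M j))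
    (hdet : M.det ≠ 0) (hB : ∀ i l, (B i l).natDegree ≤ k - 1) {s : K}
    (A : Fin k → Matrix (Fin r) (Fin r) (K)) (Ainf : Matrix (Fin r) (Fin r) (K))
    (hA : ∀ m i l, s * (B i l).eval (x m) = (∏ n ∈ univ.erase m, (x m - x n)) * A m i l)
    (hAinf : ∀ i l, s * (B i l).coeff (k - 1) = Ainf i l) :
    ∃ (d : Fin r → ℕ) (v : Fin k → Fin r → ℕ), (∀ m j, v m j < p) ∧
      Ainf.charpoly = ∏ j, (X - C (s * ((d j : ℕ) : K))) ∧
      (∀ m, (A m).charpoly = ∏ j, (X - C (s * ((v m j : ℕ) : K)))) ∧
      ∑ j, d j ≤ ∑ m, ∑ j, v m j := by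
  classical
  obtain ⟨M', hM⟩ := exists_minM hsol hdet
  set P : K[X] := ∏ i, (X - C (x i)) with hP
  have hPdeg : P.natDegree = k := by
    rw [hP, natDegree_prod_of_monic _ _ (fun i _ => monic_X_sub_C _)]; simp
  have hPm : P.Monic := monic_prod_of_monic _ _ (fun i _ => monic_X_sub_C _)
  have hPk : P.coeff k = 1 := by
    have := hPm.coeff_natDegree
    rwa [hPdeg] at this
  obtain ⟨h1, h2⟩ := hM.infF p hk hPdeg.le hPk hB Ainf hAinf
  have hsing : ∀ m, ∃ v : Fin r → ℕ, (∀ j, v j < p) ∧
      (A m).charpoly = ∏ j, (X - C (s * ((v j : ℕ) : K))) ∧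
      ¬ (X - C (x m)) ^ (∑ j, v j + 1) ∣ M'.det := by
    intro m
    have e1 : (∏ n ∈ univ.erase m, (X - C (x n))).eval (x m) =
        ∏ n ∈ univ.erase m, (x m - x n) := by
      rw [eval_prod]; simp
    refine hM.singF p (P1 := ∏ n ∈ univ.erase m, (X - C (x n))) ?_ ?_ (A m) ?_
    · exact hP.trans (Finset.mul_prod_erase univ (fun n => X - C (x n)) (Finset.mem_univ m)).symm
    · rw [e1]
      apply Finset.prod_ne_zero_iff.2
      intro n hn
      exact sub_ne_zero.2 (fun h => Finset.ne_of_mem_erase hn (hx h).symm)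
    · intro i l
      rw [e1]; exact hA m i l
  choose v hv1 hv2 hv3 using hsing
  refine ⟨fun j => vdeg (M' j), v, hv1, h1, hv2, h2.trans ?_⟩
  have hdvd : M'.det ∣ ∏ m, (X - C (x m)) ^ (∑ j, v m j) := by
    apply dvd_of_local hM.2.1
    intro π hπ
    by_cases hπP : π ∣ P
    · obtain ⟨m, -, hm⟩ := (hπ.prime.dvd_finsetProd_iff _).1 hπP
      have hassoc : Associated π (X - C (x m)) :=
        hπ.associated_of_dvd (irreducible_X_sub_C _) hm
      refine ⟨∑ j, v m j + 1, by omega, ?_, ?_⟩
      · intro h3
        exact hv3 m ((hassoc.pow_pow.symm.dvd).trans h3)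
      · rw [Nat.add_sub_cancel]
        exact (pow_dvd_pow_of_dvd hm _).trans (Finset.dvd_prod_of_mem
          (fun m => (X - C (x m)) ^ (∑ j, v m j)) (Finset.mem_univ m))
    · exact ⟨1, le_rfl, by rw [pow_one]; exact hM.ord p hπ hπP, by simp⟩
  have h3 := natDegree_le_of_dvd hdvd (Finset.prod_ne_zero_iff.2 fun m _ =>
    pow_ne_zero _ (X_sub_C_ne_zero _))
  refine h3.trans ((natDegree_prod_le _ _).trans (Finset.sum_le_sum fun m _ => ?_))
  refine natDegree_pow_le.trans ?_
  rw [natDegree_X_sub_C, mul_one]

end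

end H921PC
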